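import Pool.Agent.NR.Defs
import Pool.Agent.GQ.StT

/-!
# NR: statements

Library: everything in KQ (`import Pool.Agent.KQ.Core`: `all_StrHt`, `all_StrRow`, `all_StrCol`, `all_StrFib`,
`all_StrProd`, `thm_Str23`, `thm_StrUnion`, statements in `KQ/StStr.lean`), FGK and GQ may be imported. Useful: the
homotopies of nerves and the lemmas on bisimplicial sets in `GQ/ZX.lean` (`zx_iso`, `zx_row`, `zx_colm`, `zx_mix`, ..).
-/

set_option autoImplicit false
set_option linter.unusedVariables false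

noncomputable section

namespace Pool.Agent.NR

open CategoryTheory Function Pool.Agent.KQ Pool.Agent.FGK Pool.Agent.GQ

universe u

/-! ### simplicial sets -/

/-- **Glue.** Maps which are strong on two pieces and on their intersection; unions of two contractible
pieces with contractible intersection.

Proof. (1) Bisimplicial set `W_{p,n} = {(α, x) | α : [p] → Bool monotone, x ∈ X_n, (α 0 = false → x ∈ A_n),
(α p = true → x ∈ B_n)}` (operators in the direction `p`: `α ↦ α ∘ θ`). `W → X`, `(α, x) ↦ x`: for fixed `n` the fibre over `x`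
is `{α}` = the nerve of `Bool` if `x ∈ A ∩ B`, the constant `α = false` if `x ∉ B`, the constant `α = true` if `x ∉ A`;
contractible in all cases: `all_StrCol`, `all_StrFib` (2). `W → W'`: for fixed `p` the fibre over `α` is `A → A'`
(`α` constant `false`), `B → B'` (`α` constant `true`), or `A ∩ B → A' ∩ B'`: `all_StrRow`, `all_StrFib` (1). Two out of
three. (2) (1) for `X → pt`, or directly `W → const {α}`. -/
def St_Glue : Prop :=
  (∀ {X X' : SSt.{u}} (f : X ⟶ X') (A B : SubS X) (A' B' : SubS X')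
    (hA : ∀ n x, x ∈ A.s n → f.app n x ∈ A'.s n) (hB : ∀ n x, x ∈ B.s n → f.app n x ∈ B'.s n),
    (∀ n x, x ∈ A.s n ∨ x ∈ B.s n) → (∀ n x, x ∈ A'.s n ∨ x ∈ B'.s n) →
    SSt.Strong (SubS.mapS f A A' hA) → SSt.Strong (SubS.mapS f B B' hB) →
    SSt.Strong (SubS.mapS f (subInt A B) (subInt A' B') fun n x h => ⟨hA n x h.1, hB n x h.2⟩) →
    SSt.Strong f) ∧
  (∀ {X : SSt.{u}} (A B : SubS X), (∀ n x, x ∈ A.s n ∨ x ∈ B.s n) → SSt.Contr A.S →
    SSt.Contr B.S → SSt.Contr (subInt A B).S → SSt.Contr X)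

/-- **QA.** Theorem A of Quillen for ordered sets.

Proof. Bisimplicial set `Z_{m,n} = {(x, y) | x : [m] → P, y : [n] → Q, f (x_m) ≤ y_0}`. Projection to the nerve of `P`: for
fixed `m` the fibre over `x` is the nerve of `{q | f (x_m) ≤ q}`, which has a smallest element. Projection to
the nerve of `Q`: for fixed `n` the fibre over `y` is the nerve of `{p | f p ≤ y_0}`. So both projections of the
diagonal are strong. The maps `(x, y) ↦ f x` and `(x, y) ↦ y` of the diagonal are homotopic, as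
`f (x_i) ≤ f (x_n) ≤ y_0 ≤ y_i`. Two out of three. -/
def St_QA : Prop := ∀ (P Q : Type) [Preorder P] [Preorder Q] (f : P →o Q),
  (∀ q : Q, SSt.Contr (nvS.{u} {p : P // f p ≤ q})) → SSt.Strong (nvMap.{u} f)

/-- **CCN.** Nerves of coverings of convex sets by convex sets.

Proof. For a convex subset `P` of `C` let `N(P)` be the nerve of `{σ // σ.Nonempty ∧ Adm P S σ}`. CLAIM: if `P` is convex
and nonempty and there is a finite set `K` such that `MinOn S h` is nonempty and contained in `K` for all `h ∈ P`, then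
`N(P)` is contractible. Induction on the number of the pairs `(v, w) ∈ K × K` which are not comparable, that is, there
are `h, h' ∈ P` with `h v < h w` and `h' w < h' v`. (i) If there is no such pair: `v ≼ w :↔ ∀ h ∈ P, h v ≤ h w` is a total
preorder on `K`, `K` is not empty, let `v_0` be a smallest element of `K` (replace `K` by `K ∩ S` first). For `h ∈ P` take
`v ∈ MinOn S h ⊆ K`: `h v_0 ≤ h v`, so `v_0 ∈ MinOn S h`. So `Adm P S σ → Adm P S (σ ∪ {v_0})`, and
`σ ≤ σ ∪ {v_0} ≥ {v_0}` contracts `N(P)` (classical decidability of equality). (ii) Otherwise let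
`P₊ = {h ∈ P | h v ≤ h w}`, `P₋ = {h ∈ P | h w ≤ h v}`, `P₀ = P₊ ∩ P₋`: convex, nonempty (`P₀`: a point of the segment
between `h` and `h'`), with fewer pairs, so `N(P₊)`, `N(P₋)`, `N(P₀)` are contractible. `N(P)` is the union of the
subsets of the chains with `Adm P₊ S σ_n`, `Adm P₋ S σ_n`, and their intersection is `Adm P₀ S σ_n`: if `h₊, h₋` are
witnesses for `σ`, then all points of the segment between them are, and one of them is in `P₀`. `St_Glue` (2).
Finally `N(C)` is the directed union of the `N(convexHull H)`, `H ⊆ C` finite and nonempty: `thm_StrUnion` (2)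
for the map to the point. -/
def St_CCN : Prop := ∀ (T : Type) (C : Set (T → ℝ)) (S : Set T), Convex ℝ C → C.Nonempty →
  (∀ H : Finset (T → ℝ), (H : Set (T → ℝ)) ⊆ C → ∃ K : Set T, K.Finite ∧
    ∀ h ∈ convexHull ℝ (H : Set (T → ℝ)), (MinOn S h).Nonempty ∧ MinOn S h ⊆ K) →
  SSt.Contr (nvS.{1} {σ : Finset T // σ.Nonempty ∧ Adm C S σ})

/-! ### norms -/

/-- **Nm.** Properties of norms.

Proof. (1) sums and multiples of norms; `h₁ + h₂ ≤ R` implies `h₁ ≤ R` by (2). (2) `0 = h 0 ≤ h v + h (-v) = 2 h v`. If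
`h v = 0`: `a v ∈ M` for some `a ≠ 0` in `A` (`M` spans `V`, common denominators), `h (n a v) = 0` for all `n : ℕ`, so
`a v = 0` by `fin`. (3) `M ∩ W` contains a nonzero vector `m_1` (denominators); the set of `m ∈ M` with `h m ≤ h m_1` is
finite. (4) let `p : V → V` be an `F`-linear projection onto `W`. `{x | x = m - p m, m ∈ M, h x ≤ 1}` is finite: there
is `d ≠ 0` in `A` with `d (m - p m) ∈ M` for all `m ∈ M` (`M` is finitely generated), and `h (d x) ≤ c d`. So there is
`ε > 0` with `ε ≤ h (m - p m)` for all `m ∈ M ∖ W`. `h' v = h (p v) + t h (v - p v)` with `t > 0`, `t ε ≥ R`. `fin`: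
`h m ≤ h (p m) + h (m - p m) ≤ (1 + t⁻¹) h' m`. -/
def St_Nm : Prop := ∀ (A F V : Type) [CommRing A] [IsDomain A] [Field F] [CharZero F]
  [Algebra A F] [IsFractionRing A F] [AddCommGroup V] [Module F V] [FiniteDimensional F V]
  [Module A V] [IsScalarTower A F V] (c : A → ℝ) (M : Submodule A V), IsLatA F M →
  Convex ℝ (Nms F c M) ∧
  (∀ h ∈ Nms F c M, ∀ v, 0 ≤ h v ∧ (h v = 0 → v = 0)) ∧
  (∀ h ∈ Nms F c M, ∀ W : Submodule F V, W ≠ ⊥ → (MinOn (SW M W) h).Nonempty) ∧
  ∀ h ∈ Nms F c M, ∀ (W : Submodule F V) (R : ℝ), ∃ h' ∈ Nms F c M, (∀ w ∈ W, h' w = h w) ∧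
    ∀ m ∈ M, m ∉ W → R ≤ h' m

/-- **NmEx.** Existence of norms.

Proof. `A` has a `ℤ`-basis `ω_1, .., ω_n`; it is a `ℚ`-basis of `F` (every `b ≠ 0` in `A` divides a nonzero integer, as
`b` is integral over `ℤ`). `|x| = ∑ |x_i|` for `x = ∑ x_i ω_i ∈ F`, `c a = ∑ |a ω_i|`; `|a x| ≤ c a |x|`. For `V` take a basis
`b` over `F` and `h v = ∑ |b.repr v l|`. There is `d ≠ 0` in `ℤ` with `d M ⊆ ⨁ A b_l`, and there are finitely many `x ∈ A` with
`|x| ≤ R`. -/
def St_NmEx : Prop := ∀ (A F : Type) [CommRing A] [IsDomain A] [Module.Finite ℤ A] [Field F]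
  [CharZero F] [Algebra A F] [IsFractionRing A F], ∃ c : A → ℝ, ∀ (V : Type) [AddCommGroup V]
  [Module F V] [Module A V] [IsScalarTower A F V] (M : Submodule A V), IsLatA F M →
    (Nms F c M).Nonempty

/-- **NmC.** Contractibility.

Proof. `St_CCN` for `C = Nms F c M`, `S = SW M W`; convexity and minima from `St_Nm` (for the hull of `H ⊆ Nms`, which is
in `Nms`). Let `H = {h_0, .., h_k}`, `m_1 ∈ SW M W`, `R = max h_i m_1`, `K = {m ∈ M | ∃ i, h_i m ≤ R}`, finite. If
`h = ∑ λ_i h_i` is minimal at `m`, then `h m ≤ h m_1 ≤ R`, so `h_i m ≤ R` for some `i`. -/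
def St_NmC : Prop := ∀ (A F V : Type) [CommRing A] [IsDomain A] [Field F] [CharZero F]
  [Algebra A F] [IsFractionRing A F] [AddCommGroup V] [Module F V] [FiniteDimensional F V]
  [Module A V] [IsScalarTower A F V] (c : A → ℝ) (M : Submodule A V), IsLatA F M →
  (Nms F c M).Nonempty → ∀ W : Submodule F V, W ≠ ⊥ →
    SSt.Contr (nvS.{1} {σ : Finset V // σ.Nonempty ∧ Adm (Nms F c M) (SW M W) σ})

/-- **AdmW.** Shortest vectors of `M ∩ W`.

Proof. From right to left: the same `h`. From left to right: let `h` be a witness, `v_0 ∈ σ`, `R = h v_0`; all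
`v ∈ σ` have `h v = R`. Take `h'` from `St_Nm` (4). -/
def St_AdmW : Prop := ∀ (A F V : Type) [CommRing A] [IsDomain A] [Field F] [CharZero F]
  [Algebra A F] [IsFractionRing A F] [AddCommGroup V] [Module F V] [FiniteDimensional F V]
  [Module A V] [IsScalarTower A F V] (c : A → ℝ) (M : Submodule A V), IsLatA F M →
  ∀ (W : Submodule F V) (σ : Finset V), σ.Nonempty →
    (Adm (Nms F c M) (SW M W) σ ↔
      Adm (Nms F c M) (SW M (⊤ : Submodule F V)) σ ∧ ∀ v ∈ σ, v ∈ W)

/-- **SpX.** The map from the sets of shortest vectors to their spans.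

Proof. (1) both nerves are contractible: smallest elements `∅` (`Nms` is not empty) and `⊥`. (2) `St_Glue` (1) for
`badX.S → badS.S` with the subsets `A`: `σ_0 ≠ ∅`, `A'`: `F_0 ≠ ⊥` (`σ ⊆ V ∖ 0`, so `span σ = ⊥` iff `σ = ∅`), `B`: `span σ_n ≠ ⊤`,
`B'`: `F_n ≠ ⊤`. `A` is (isomorphic to) the nerve of `{σ // σ.Nonempty ∧ Adm ..}`, contractible by `St_NmC` for `W = ⊤`, `A'` the
nerve of the nonzero subspaces, with the largest element `⊤`. `B`, `B'` have smallest elements `∅`, `⊥`. `A ∩ B → A' ∩ B'`: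
nerve of a map of ordered sets `P = {σ // σ.Nonempty ∧ Adm .. ∧ span σ ≠ ⊤} → Q = {W // W ≠ ⊥ ∧ W ≠ ⊤}`, and
`{p // f p ≤ W} = {σ // σ.Nonempty ∧ Adm (Nms) (SW M W) σ}` by `St_AdmW`, contractible by `St_NmC`: `St_QA`. -/
def St_SpX : Prop := ∀ (A F V : Type) [CommRing A] [IsDomain A] [Field F] [CharZero F]
  [Algebra A F] [IsFractionRing A F] [AddCommGroup V] [Module F V] [FiniteDimensional F V]
  [Nontrivial V] [Module A V] [IsScalarTower A F V] (c : A → ℝ) (M : Submodule A V),
  IsLatA F M → (Nms F c M).Nonempty → SSt.Strong (nvMap.{1} (spX F c M)) ∧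
    ∃ h, SSt.Strong (SubS.mapS (nvMap.{1} (spX F c M)) (badX F c M)
      (badS.{1} (Submodule F V)) h)

/-! ### finiteness -/

/-- **Idx.** Lattices with a basis of shortest vectors: the index.

Proof. `ω_1, .., ω_n` a `ℤ`-basis of `A` (and a `ℚ`-basis of `F`, see `St_NmEx`), `N ≥ c ω_j`, `N ≥ 1`, `m` an integer
`≥ n r N`, `B = (m ^ (n r))!`. Let `μ = h (v l)` (all equal), `μ > 0`. The `e = ω_j v_l` are a `ℚ`-basis of `V`, `h e ≤ N μ`. Let
`x ∈ M`, `x = ∑ a_e e`. For `k = 0, .., m ^ (n r)` consider the `n r` integers `⌊m · frac (k a_e)⌋ ∈ {0, .., m-1}`: there are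
`k < k'` with the same values. Then `(k' - k) x - y = ∑ δ_e e` with `y ∈ ⨁ ℤ e ⊆ M`, `|δ_e| < 1 / m`; this vector of `M` has
`h < n r N μ / m ≤ μ`, so it is `0` (`μ` is the minimum of `h` on `M ∖ 0`), and `(k' - k) x = y ∈ ⨁ A v_l`, so `B x` is.
(If `r = 0` take `B = 1`.) -/
def St_Idx : Prop := ∀ (A F : Type) [CommRing A] [IsDomain A] [Module.Finite ℤ A] [Field F]
  [CharZero F] [Algebra A F] [IsFractionRing A F] (c : A → ℝ) (r : ℕ), ∃ B : ℕ, 0 < B ∧
  ∀ (V : Type) [AddCommGroup V] [Module F V] [Module A V] [IsScalarTower A F V]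
    (M : Submodule A V) (h : V → ℝ) (v : Module.Basis (Fin r) F V), IsLatA F M →
    IsNm F c M h → (∀ l, v l ∈ MinOn (SW M (⊤ : Submodule F V)) h) →
    ∀ m ∈ M, ∀ l, ∃ a : A, algebraMap A F a = B * v.repr m l

/-- **Box.** Lattices with a basis of shortest vectors: the other shortest vectors.

Proof. Notation and `B` as in `St_Idx`. Let `w ∈ MinOn`, `w = ∑ a_e e`, `T = max |a_e|`. Let `m' > 2 n r N` be an integer and
`J = m' ^ (n r)`; claim: `T ≤ 2 J`. Suppose `T > 2 J`. For `k = 0, .., J` consider the integers `⌊m' · frac (k a_e / T)⌋`: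
there are `k < k'` with the same values, so `y = ((k' - k) / T) w - ∑ δ_e e ∈ ⨁ ℤ e ⊆ M` with `|δ_e| < 1 / m'`. `y ≠ 0`: for `e` with
`|a_e| = T` the coordinate of `y` is `± (k' - k) - δ_e`, an integer, so `δ_e = 0` and it is `± (k' - k) ≠ 0`. But
`h y ≤ (k' - k) μ / T + n r N μ / m' < μ / 2 + μ / 2`, a contradiction to the minimality of `μ` (`St_Nm` (2) or
directly: `h ≥ 0`). So `w` is in the finite set of the `∑ x_l v_l`, `x_l ∈ F` with `B x_l ∈ A` and `ℚ`-coordinates of `x_l`
bounded by `2 J`. -/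
def St_Box : Prop := ∀ (A F : Type) [CommRing A] [IsDomain A] [Module.Finite ℤ A] [Field F]
  [CharZero F] [Algebra A F] [IsFractionRing A F] (c : A → ℝ) (r : ℕ),
  ∃ E : Set (Fin r → F), E.Finite ∧
  ∀ (V : Type) [AddCommGroup V] [Module F V] [Module A V] [IsScalarTower A F V]
    (M : Submodule A V) (h : V → ℝ) (v : Module.Basis (Fin r) F V), IsLatA F M →
    IsNm F c M h → (∀ l, v l ∈ MinOn (SW M (⊤ : Submodule F V)) h) →
    ∀ w ∈ MinOn (SW M (⊤ : Submodule F V)) h, v.equivFun w ∈ E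

/-- **Lam.** Lattices with a basis of shortest vectors: finitely many isomorphism classes.

Proof. `L = {x | ∑ x_l v_l ∈ M}`, with `B` from `St_Idx`: `A ^ r ⊆ L ⊆ B⁻¹ A ^ r`, and `B⁻¹ A ^ r / A ^ r ≅ (A / B A) ^ r` is
finite; a subgroup between is determined by its image. -/
def St_Lam : Prop := ∀ (A F : Type) [CommRing A] [IsDomain A] [Module.Finite ℤ A] [Field F]
  [CharZero F] [Algebra A F] [IsFractionRing A F] (c : A → ℝ) (r : ℕ),
  ∃ Λ : Set (Submodule A (Fin r → F)), Λ.Finite ∧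
  ∀ (V : Type) [AddCommGroup V] [Module F V] [Module A V] [IsScalarTower A F V]
    (M : Submodule A V) (h : V → ℝ) (v : Module.Basis (Fin r) F V), IsLatA F M →
    IsNm F c M h → (∀ l, v l ∈ MinOn (SW M (⊤ : Submodule F V)) h) →
    ∃ L ∈ Λ, ∀ x : Fin r → F, x ∈ L ↔ v.equivFun.symm x ∈ M

/-- **XFin.** Finitely many orbits with finite stabilizers.

Proof. `x = (σ_0 ≤ .. ≤ σ_n)` not bad: `σ_n` spans `V` and is in `MinOn (SW M ⊤) h` for some `h`, choose a basis
`v : Fin r → V` of `V` in `σ_n` (`exists_linearIndependent` / `Module.Basis.ofSpan`), `r = finrank F V`. CODE of `(x, v)`: the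
`L ∈ Λ` of `St_Lam` and the sets `v.equivFun '' σ_i ⊆ E` (`St_Box`): an element of a finite set. If `(x, v)` and `(x', v')` have
the same code, then `g = v'.equivFun.symm ∘ v.equivFun` satisfies `g M = M` and `g σ_i = σ'_i`. `T` = one `x` for every
code which occurs. Stabilizers: `g` with `g σ_n = σ_n` is determined by the permutation of `σ_n`, which
spans `V`. -/
def St_XFin : Prop := ∀ (A F V : Type) [CommRing A] [IsDomain A] [Module.Finite ℤ A] [Field F]
  [CharZero F] [Algebra A F] [IsFractionRing A F] [AddCommGroup V] [Module F V]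
  [FiniteDimensional F V] [Module A V] [IsScalarTower A F V] (c : A → ℝ) (M : Submodule A V),
  IsLatA F M →
  (∀ n, ∃ T : Set ((nvS.{1} (PX F c M)).obj n), T.Finite ∧ ∀ x, x ∉ (badX F c M).s n →
    ∃ g, ((pxAct c M).act g).app n x ∈ T) ∧
  ∀ n x, x ∉ (badX F c M).s n → {g | ((pxAct c M).act g).app n x = x}.Finite

/-- **SlM.** THE HOMOLOGY OF `GL(M)` WITH COEFFICIENTS IN THE STEINBERG MODULE: slender.

Proof. `c` from `St_NmEx`. `St_XFin`, `GQ.St_hOSl` for `pxAct c M`, `badX` (invariant): `ZR (hO ..) (hOs .. badX)` is slender.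
`spX` is equivariant (`span (g σ) = g (span σ)`), so by `St_SpX` and `GQ.St_hOStr` (2) there is a map to
`ZR (hO (nvAct M)) (hOs .. badS)` which is an isomorphism on homotopy groups; `FGK.St_AbEx` (10). -/
def St_SlM : Prop := ∀ (A F : Type) [CommRing A] [IsDomain A] [Module.Finite ℤ A] [Field F]
  [CharZero F] [Algebra A F] [IsFractionRing A F], SlLat A F

/-- **WR.** Every lattice has a norm whose shortest vectors span `V`.

Proof. Choose `h ∈ Nms` such that `W = span (MinOn ..)` has maximal dimension; suppose `W ≠ V`. `W ≠ ⊥` if `V ≠ 0`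
(`St_Nm` (3)). `p : V → V` a projection onto `W`, `h_t v = h (p v) + t h (v - p v)` for `t > 0`, in `Nms` as in the proof of
`St_Nm` (4), equal to `h` on `W`. `μ` = the minimum of `h`. For `m ∈ M ∖ W` with `h (p m) < μ` let
`t_m = (μ - h (p m)) / h (m - p m) > 0`; `h_t m ≥ μ` iff `t ≥ t_m`. There is such an `m` (a nonzero element of
`M ∩ ker p`), and for `s > 0` there are finitely many `m` with `t_m ≥ s` (`h_s m ≤ μ`), so there is an `m` with maximal
`t_m = t`. Then `h_t ≥ μ` on `M ∖ 0`, and the shortest vectors for `h_t` contain those for `h` and `m`: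
contradiction. -/
def St_WR : Prop := ∀ (A F V : Type) [CommRing A] [IsDomain A] [Field F] [CharZero F]
  [Algebra A F] [IsFractionRing A F] [AddCommGroup V] [Module F V] [FiniteDimensional F V]
  [Module A V] [IsScalarTower A F V] (c : A → ℝ) (M : Submodule A V), IsLatA F M →
  (Nms F c M).Nonempty → ∃ h ∈ Nms F c M,
    Submodule.span F (MinOn (SW M (⊤ : Submodule F V)) h) = ⊤

/-- **FLM.** Finitely many lattices in every rank (Jordan, Zassenhaus).

Proof. `N` finitely generated torsion-free of rank `r`: `N ≅ M`, `M` a lattice of `F ^ r` (`GQ.finlat_emb` of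
`GQ/FinLat.lean`). `c` from `St_NmEx`, `h` from `St_WR`, a basis `v` of `F ^ r` in `MinOn`; by `St_Lam` `M` is isomorphic (by
`v.equivFun`) to some `L ∈ Λ`; `L` is a lattice. `S` = the lattices in `Λ`. -/
def St_FLM : Prop := ∀ (A F : Type) [CommRing A] [IsDomain A] [Module.Finite ℤ A] [Field F]
  [CharZero F] [Algebra A F] [IsFractionRing A F], FinLat A F

/-- **NRK.** THE K-GROUPS OF ORDERS IN NUMBER FIELDS ARE FINITELY GENERATED (Quillen 1973).

Proof. `GQ.St_T3` (`GQ/T3.lean`), `St_FLM`, `St_SlM` for `F = FractionRing A`. -/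
def St_NRK : Prop := ∀ (A : Type) [CommRing A] [IsDomain A] [CharZero A] [Module.Finite ℤ A]
  (n : ℕ), AddGroup.FG (Kn n (KQG.MA A))

end Pool.Agent.NR
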