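import Pool.Agent.NR.ZSch
import Pool.Agent.NR.St
import Pool.Agent.GQ.FAll
import Pool.Agent.KTH.Fin

/-!
# NR, part Z: finite generation of `K'_n` in dimension at most one over the integers

Architect helper38.
-/

set_option autoImplicit false
set_option linter.style.haveILetI false

noncomputable section

namespace Pool.Agent.NR

open CategoryTheory AlgebraicGeometry Pool.Agent.KQ Pool.Agent.KQG Pool.Agent.KTX Pool.Agent.GQ
open Pool.Agent.KPR

universe u

/-- orders in number fields -/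
def NumK (K : KInt.{u}) : Prop := Num (fun R _ => GK K R)

/-- rings of Krull dimension at most one -/
theorem thm_Z1 (hCl : St_ClK.{u}) (K : KInt.{u}) (hB : BaseK K) (hN : NumK K) (B : Type)
    [CommRing B] [Algebra.FiniteType ℤ B] (h : ringKrullDim B ≤ 1) (n : ℕ) :
    AddGroup.FG (K.K n (MA B)) := z_krull (hCl K) hB hN B h n

/-- rings of residual dimension zero -/
theorem thm_Z1r (hCl : St_ClK.{u}) (K : KInt.{u}) (hB : BaseK K) (hN : NumK K) (B : Type)
    [CommRing B] [Algebra.FiniteType ℤ B] (h : BassH.ResDimLE 0 B) (n : ℕ) :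
    AddGroup.FG (K.K n (MA B)) := z_res (hCl K) hB hN B h n

/-- schemes of dimension at most one -/
theorem thm_Z2 (hTHY : St_THY.{u}) (hGE : St_GE) (K : KInt.{u}) (hB : BaseK K) (hN : NumK K)
    (X : Scheme.{0}) (f : X ⟶ Sp ℤ) [LocallyOfFiniteType f] [QuasiCompact f]
    (hX : topologicalKrullDim X ≤ 1) (n : ℕ) : AddGroup.FG (K.K n (Coh X)) := by
  obtain ⟨L, e, h0, -, -⟩ := hTHY K
  obtain ⟨E, -⟩ := hGE
  have h1 : ∀ (B : Type) [CommRing B] [Algebra.FiniteType ℤ B], ringKrullDim B ≤ 1 →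
      ∀ m : ℤ, AddGroup.FG ((L.th m).T (Sp B)) := by
    intro B _ _ hd m
    cases m with
    | ofNat m =>
      have h2 : AddGroup.FG (K.K m (Coh (Sp B))) := by
        haveI := thm_Z1 (thm_ClK hTHY) K hB hN B hd m
        exact AddGroup.fg_of_surjective (kint_equiv K m (E B)).2
      exact AddGroup.fg_of_surjective (f := (e m (Sp B)).symm.toAddMonoidHom)
        (e m (Sp B)).symm.surjective
    | negSucc m =>
      haveI : Subsingleton ((L.th (Int.negSucc m)).T (Sp B)) :=
        ⟨fun x y => (h0 m (Sp B) x).trans (h0 m (Sp B) y).symm⟩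
      haveI : Finite ((L.th (Int.negSucc m)).T (Sp B)) := Finite.of_subsingleton
      infer_instance
  haveI := thy_dimZ L h1 X f hX n
  exact AddGroup.fg_of_surjective (f := (e n X).toAddMonoidHom) (e n X).surjective

/-! ### Quillen's groups -/

theorem numK_kInt (h : St_HOMK) (hN : St_NRK) : NumK (kInt h) := fun A _ _ _ _ n => hN A n

/-- `K'_n(B)`, rings of Krull dimension at most one -/
theorem fin_KA_Z (h : St_HOMK) (hN : St_NRK) (B : Type) [CommRing B] [Algebra.FiniteType ℤ B]
    (hB : ringKrullDim B ≤ 1) (n : ℕ) : AddGroup.FG (KA n B) :=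
  fg_equiv (kaEquiv n B) (thm_Z1 (thm_ClK all_THY) (kInt h) (all_BaseK h) (numK_kInt h hN) B hB n)

/-- `K'_n(B)`, rings of residual dimension zero -/
theorem fin_KA_Zres (h : St_HOMK) (hN : St_NRK) (B : Type) [CommRing B]
    [Algebra.FiniteType ℤ B] (hB : BassH.ResDimLE 0 B) (n : ℕ) : AddGroup.FG (KA n B) :=
  fg_equiv (kaEquiv n B) (thm_Z1r (thm_ClK all_THY) (kInt h) (all_BaseK h) (numK_kInt h hN) B hB n)

/-- `K'_n(X)`, schemes of dimension at most one -/
theorem fin_KX_Z (h : St_HOMK) (hN : St_NRK) (X : Scheme.{0}) (hX : KTH.FTZ X)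
    (hd : topologicalKrullDim X ≤ 1) (n : ℕ) : AddGroup.FG (KX n X) := by
  haveI := hX.1
  haveI := hX.2
  obtain ⟨f, h1, h2⟩ := exists_specZ X
  exact fg_equiv (kxEquiv n X) (thm_Z2 all_THY thm_GE (kInt h) (all_BaseK h) (numK_kInt h hN)
    X f hd n)

end Pool.Agent.NR
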