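import Pool.Agent.NR.All
import Pool.Agent.NR.ZK

/-!
# NR, part Z: finite generation of `K'_n` in dimension at most one over the integers, assembly

The only hypothesis is homotopy invariance for rings, `KQG.St_HOMK` (library KQH, helper83).
-/

set_option autoImplicit false

noncomputable section

namespace Pool.Agent.NR

open Pool.Agent.KQG Pool.Agent.KPR AlgebraicGeometry

/-- `K'_n` of orders in number fields, no hypotheses -/
theorem all_KA_order (A : Type) [CommRing A] [IsDomain A] [CharZero A] [Module.Finite ℤ A]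
    (n : ℕ) : AddGroup.FG (KA n A) := GQ.fg_equiv (kaEquiv n A) (all_NRK A n)

theorem all_NumK (h : St_HOMK) : NumK (kInt h) := numK_kInt h all_NRK

/-- `K'_n(B)`, rings of Krull dimension at most one -/
theorem all_KA_Z (h : St_HOMK) (B : Type) [CommRing B] [Algebra.FiniteType ℤ B]
    (hB : ringKrullDim B ≤ 1) (n : ℕ) : AddGroup.FG (KA n B) := fin_KA_Z h all_NRK B hB n

/-- `K'_n(B)`, rings of residual dimension zero -/
theorem all_KA_Zres (h : St_HOMK) (B : Type) [CommRing B] [Algebra.FiniteType ℤ B]
    (hB : BassH.ResDimLE 0 B) (n : ℕ) : AddGroup.FG (KA n B) := fin_KA_Zres h all_NRK B hB n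

/-- `K'_n(X)`, schemes of finite type over the integers of dimension at most one -/
theorem all_KX_Z (h : St_HOMK) (X : Scheme.{0}) (hX : KTH.FTZ X)
    (hd : topologicalKrullDim X ≤ 1) (n : ℕ) : AddGroup.FG (KX n X) :=
  fin_KX_Z h all_NRK X hX hd n

end Pool.Agent.NR
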