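import Pool.Agent.NR.St

/-!
# NR: shortest vectors of `M ∩ W`
-/

set_option autoImplicit false
set_option linter.unusedVariables false

noncomputable section

namespace Pool.Agent.NR

theorem thm_AdmW (hNm : St_Nm) : St_AdmW := by
  intro A F V _ _ _ _ _ _ _ _ _ _ _ c M hM W σ hσ
  obtain ⟨-, -, -, hR⟩ := hNm A F V c M hM
  constructor
  · rintro ⟨h, hh, h1⟩
    obtain ⟨v0, hv0⟩ := hσ
    obtain ⟨h', hh', h2, h3⟩ := hR h hh W (h v0)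
    refine ⟨⟨h', hh', fun v hv => ?_⟩, fun v hv => (h1 v hv).1.2.1⟩
    obtain ⟨⟨hvM, hvW, hv'⟩, hmin⟩ := h1 v hv
    refine ⟨⟨hvM, Submodule.mem_top, hv'⟩, fun w hw => ?_⟩
    rw [h2 v hvW]
    by_cases hwW : w ∈ W
    · rw [h2 w hwW]
      exact hmin w ⟨hw.1, hwW, hw.2.2⟩
    · exact le_trans (hmin v0 (h1 v0 hv0).1) (h3 w hw.1 hwW)
  · rintro ⟨⟨h, hh, h1⟩, h2⟩
    refine ⟨h, hh, fun v hv => ?_⟩
    obtain ⟨⟨hvM, -, hv'⟩, hmin⟩ := h1 v hv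
    exact ⟨⟨hvM, h2 v hv, hv'⟩, fun w hw => hmin w ⟨hw.1, Submodule.mem_top, hw.2.2⟩⟩

end Pool.Agent.NR
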