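import Pool.Agent.NR.St

/-!
# NR: the coordinates of the other shortest vectors (Dirichlet)
-/

set_option autoImplicit false
set_option linter.unusedVariables false
set_option linter.unusedSectionVars false

noncomputable section

namespace Pool.Agent.NR

open CategoryTheory Function Pool.Agent.KQ Pool.Agent.FGK Pool.Agent.GQ

/-- simultaneous approximation -/
theorem box_dir {ι : Type} [Fintype ι] (m : ℕ) (hm : 0 < m) (x : ι → ℚ) :
    ∃ κ : ℕ, 0 < κ ∧ κ ≤ m ^ Fintype.card ι ∧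
      ∃ y : ι → ℤ, ∀ i, |(κ : ℚ) * x i - y i| < 1 / m := by
  classical
  have hm' : (0 : ℚ) < m := by exact_mod_cast hm
  have h0 : ∀ (k : ℕ) (i : ι), (0 : ℚ) ≤ (m : ℚ) * Int.fract ((k : ℚ) * x i) := fun k i =>
    mul_nonneg hm'.le (Int.fract_nonneg _)
  have hf : ∀ (k : ℕ) (i : ι), ⌊(m : ℚ) * Int.fract ((k : ℚ) * x i)⌋₊ < m := by
    intro k i
    rw [Nat.floor_lt (h0 k i)]
    have := Int.fract_lt_one ((k : ℚ) * x i)
    nlinarith
  have key : ∀ k k' : ℕ, k < k' → k' ≤ m ^ Fintype.card ι →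
      (∀ i, ⌊(m : ℚ) * Int.fract ((k : ℚ) * x i)⌋₊ = ⌊(m : ℚ) * Int.fract ((k' : ℚ) * x i)⌋₊) →
      ∃ κ : ℕ, 0 < κ ∧ κ ≤ m ^ Fintype.card ι ∧
        ∃ y : ι → ℤ, ∀ i, |(κ : ℚ) * x i - y i| < 1 / m := by
    intro k k' hk hk' hfl
    refine ⟨k' - k, by omega, by omega, fun i => ⌊(k' : ℚ) * x i⌋ - ⌊(k : ℚ) * x i⌋, fun i => ?_⟩
    have e1 : (((k' - k : ℕ) : ℚ) * x i - ((⌊(k' : ℚ) * x i⌋ - ⌊(k : ℚ) * x i⌋ : ℤ) : ℚ)) =
        Int.fract ((k' : ℚ) * x i) - Int.fract ((k : ℚ) * x i) := by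
      rw [Nat.cast_sub hk.le]
      push_cast
      rw [Int.fract, Int.fract]
      ring
    rw [e1]
    have a1 := Nat.floor_le (h0 k i)
    have a2 := Nat.lt_floor_add_one ((m : ℚ) * Int.fract ((k : ℚ) * x i))
    have b1 := Nat.floor_le (h0 k' i)
    have b2 := Nat.lt_floor_add_one ((m : ℚ) * Int.fract ((k' : ℚ) * x i))
    have e2 : ((⌊(m : ℚ) * Int.fract ((k : ℚ) * x i)⌋₊ : ℕ) : ℚ) =
      ((⌊(m : ℚ) * Int.fract ((k' : ℚ) * x i)⌋₊ : ℕ) : ℚ) := by rw [hfl i]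
    have e3 : |Int.fract ((k' : ℚ) * x i) - Int.fract ((k : ℚ) * x i)| * m < 1 := by
      rw [← abs_of_pos hm', ← abs_mul, abs_lt]
      constructor <;> nlinarith
    rwa [lt_div_iff₀ hm']
  let f : Fin (m ^ Fintype.card ι + 1) → (ι → Fin m) := fun k i =>
    ⟨⌊(m : ℚ) * Int.fract (((k : ℕ) : ℚ) * x i)⌋₊, hf k i⟩
  obtain ⟨k, k', hne, hkk⟩ := Fintype.exists_ne_map_eq_of_card_lt f (by simp)
  have hfl : ∀ i, ⌊(m : ℚ) * Int.fract (((k : ℕ) : ℚ) * x i)⌋₊ =
      ⌊(m : ℚ) * Int.fract (((k' : ℕ) : ℚ) * x i)⌋₊ := fun i =>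
    congrArg Fin.val (congrFun hkk i)
  rcases lt_or_gt_of_ne (fun h => hne (Fin.ext h) : (k : ℕ) ≠ (k' : ℕ)) with h | h
  · exact key k k' h (Nat.lt_succ_iff.1 k'.2) hfl
  · exact key k' k h (Nat.lt_succ_iff.1 k.2) fun i => (hfl i).symm

section

variable {A F V : Type} [CommRing A] [IsDomain A] [Field F] [CharZero F] [Algebra A F]
  [IsFractionRing A F] [AddCommGroup V] [Module F V] [Module A V] [IsScalarTower A F V]

theorem box_zero {c : A → ℝ} {M : Submodule A V} {h : V → ℝ} (hh : IsNm F c M h) : h 0 = 0 := by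
  have := hh.rat 0 0
  simpa using this

theorem box_sum {c : A → ℝ} {M : Submodule A V} {h : V → ℝ} (hh : IsNm F c M h) {ι : Type}
    (s : Finset ι) (f : ι → V) : h (∑ i ∈ s, f i) ≤ ∑ i ∈ s, h (f i) := by
  classical
  induction s using Finset.induction_on with
  | empty => simp [box_zero hh]
  | insert a s ha ih =>
    rw [Finset.sum_insert ha, Finset.sum_insert ha]
    exact (hh.add _ _).trans (by linarith)

/-- the vector with the coordinates `y` -/
def boxV {ι : Type} [Fintype ι] {r : ℕ} (ω : Module.Basis ι ℤ A) (v : Module.Basis (Fin r) F V)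
    (y : ι × Fin r → ℤ) : V := ∑ p : ι × Fin r, (y p : F) • (ω p.1 • v p.2)

theorem boxV_eq {ι : Type} [Fintype ι] {r : ℕ} (ω : Module.Basis ι ℤ A)
    (v : Module.Basis (Fin r) F V) (y : ι × Fin r → ℤ) :
    boxV ω v y = ∑ l, algebraMap A F (∑ j, y (j, l) • ω j) • v l := by
  rw [boxV, Fintype.sum_prod_type_right]
  refine Finset.sum_congr rfl fun l _ => ?_
  rw [map_sum, Finset.sum_smul]
  refine Finset.sum_congr rfl fun j _ => ?_
  rw [map_zsmul, zsmul_eq_mul, mul_smul, algebraMap_smul]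

theorem box_indep {ι : Type} [Fintype ι] {r : ℕ} (ω : Module.Basis ι ℤ A)
    (v : Module.Basis (Fin r) F V) (y : ι × Fin r → ℤ) (hy : boxV ω v y = 0) : y = 0 := by
  rw [boxV_eq] at hy
  funext p
  have h1 := Fintype.linearIndependent_iff.1 v.linearIndependent _ hy p.2
  have h2 : ∑ j, y (j, p.2) • ω j = 0 := (IsFractionRing.injective A F) (by rw [h1, map_zero])
  exact Fintype.linearIndependent_iff.1 ω.linearIndependent (fun j => y (j, p.2)) h2 p.1

theorem box_mem {ι : Type} [Fintype ι] {r : ℕ} (ω : Module.Basis ι ℤ A)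
    (v : Module.Basis (Fin r) F V) (M : Submodule A V) (hv : ∀ l, v l ∈ M)
    (y : ι × Fin r → ℤ) : boxV ω v y ∈ M := by
  refine Submodule.sum_mem _ fun p _ => ?_
  rw [Int.cast_smul_eq_zsmul]
  exact zsmul_mem (M.smul_mem _ (hv _)) _

/-- the bound for the coordinates -/
theorem box_bd {ι : Type} [Fintype ι] {r : ℕ} (ω : Module.Basis ι ℤ A) (c : A → ℝ) (N : ℝ)
    (hN : ∀ j, c (ω j) ≤ N) (hN0 : 0 ≤ N) (m : ℕ) (hm : 0 < m)
    (hm2 : 2 * (Fintype.card (ι × Fin r) * N) < m) (B : ℕ) (hB : 0 < B)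
    (M : Submodule A V) (h : V → ℝ) (v : Module.Basis (Fin r) F V) (hh : IsNm F c M h)
    (h0 : ∀ v, 0 ≤ h v ∧ (h v = 0 → v = 0))
    (hv : ∀ l, v l ∈ MinOn (SW M (⊤ : Submodule F V)) h) (w : V)
    (hw : w ∈ MinOn (SW M (⊤ : Submodule F V)) h) (z : ι × Fin r → ℤ)
    (hz : boxV ω v z = (B : F) • w) (p : ι × Fin r) :
    |z p| ≤ 2 * m ^ Fintype.card (ι × Fin r) * B := by
  classical
  by_contra hcon
  rw [not_le] at hcon
  have : Nonempty (ι × Fin r) := ⟨p⟩
  obtain ⟨p0, hp0⟩ := Finite.exists_max fun p : ι × Fin r => |z p|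
  set J : ℕ := m ^ Fintype.card (ι × Fin r) with hJ
  set Z : ℚ := ((|z p0| : ℤ) : ℚ) with hZ
  have hm' : (0 : ℚ) < m := by exact_mod_cast hm
  have hmr : (0 : ℝ) < m := by exact_mod_cast hm
  have hJ0 : 0 < J := Nat.pos_of_ne_zero (pow_ne_zero _ hm.ne')
  have hBq : (0 : ℚ) < B := by exact_mod_cast hB
  have hZb : (2 * J * B : ℚ) < Z := by
    have h1 := hcon.trans_le (hp0 p)
    rw [hZ, hJ]
    exact_mod_cast h1
  have hZ0 : 0 < Z := lt_of_le_of_lt (by positivity) hZb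
  obtain ⟨κ, hκ0, hκJ, y, hy⟩ := box_dir m hm fun p => (z p : ℚ) / Z
  -- the vector
  set δ : ι × Fin r → ℚ := fun p => (κ : ℚ) * ((z p : ℚ) / Z) - y p with hδ
  have hy' : ∀ p, |δ p| < 1 / m := hy
  have hEq : boxV ω v y = (((κ : ℚ) * B / Z : ℚ) : F) • w +
      ∑ p : ι × Fin r, ((-δ p : ℚ) : F) • (ω p.1 • v p.2) := by
    have h1 : (((κ : ℚ) * B / Z : ℚ) : F) • w = (((κ : ℚ) / Z : ℚ) : F) • boxV ω v z := by
      rw [hz, smul_smul]
      congr 1
      push_cast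
      ring
    rw [h1, boxV, boxV, Finset.smul_sum, ← Finset.sum_add_distrib]
    refine Finset.sum_congr rfl fun p _ => ?_
    rw [smul_smul, ← add_smul]
    congr 1
    have h2 : (y p : ℚ) = (κ : ℚ) / Z * z p + -δ p := by
      rw [hδ]
      ring
    exact_mod_cast congrArg (fun x : ℚ => (x : F)) h2
  -- the minimum
  have hwS : w ∈ SW M (⊤ : Submodule F V) := hw.1
  have hμ : ∀ l, h (v l) = h w := fun l =>
    le_antisymm ((hv l).2 w hwS) (hw.2 (v l) (hv l).1)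
  have hμ0 : 0 < h w := lt_of_le_of_ne (h0 w).1 fun h1 => hwS.2.2 ((h0 w).2 h1.symm)
  have hcard : 0 < (Fintype.card (ι × Fin r) : ℝ) := by exact_mod_cast Fintype.card_pos
  have hκB : (((κ : ℚ) * B / Z : ℚ) : ℝ) < 1 / 2 := by
    have h1 : (κ : ℚ) * B / Z < 1 / 2 := by
      rw [div_lt_iff₀ hZ0]
      have h2 : (κ : ℚ) ≤ J := by exact_mod_cast hκJ
      nlinarith
    have h3 : (((κ : ℚ) * B / Z : ℚ) : ℝ) < ((1 / 2 : ℚ) : ℝ) := by exact_mod_cast h1
    simpa using h3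
  have hκ00 : (0 : ℝ) ≤ (((κ : ℚ) * B / Z : ℚ) : ℝ) := by
    have h1 : (0 : ℚ) ≤ (κ : ℚ) * B / Z := by positivity
    exact_mod_cast h1
  have hlt : h (boxV ω v y) < h w := by
    rw [hEq]
    refine lt_of_le_of_lt (hh.add _ _) ?_
    have e1 : h ((((κ : ℚ) * B / Z : ℚ) : F) • w) < 1 / 2 * h w := by
      rw [hh.rat, abs_of_nonneg hκ00]
      exact mul_lt_mul_of_pos_right hκB hμ0
    have e2 : ∀ q : ι × Fin r, h (((-δ q : ℚ) : F) • (ω q.1 • v q.2)) ≤ 1 / m * (N * h w) := by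
      intro q
      rw [hh.rat]
      have h1 : |((-δ q : ℚ) : ℝ)| ≤ 1 / m := by
        have h2 : |(-δ q : ℚ)| ≤ 1 / m := by
          rw [abs_neg]
          exact (hy' q).le
        have h3 : ((|(-δ q : ℚ)| : ℚ) : ℝ) ≤ ((1 / m : ℚ) : ℝ) := by exact_mod_cast h2
        rw [Rat.cast_abs] at h3
        simpa using h3
      have h2 : h (ω q.1 • v q.2) ≤ N * h w := by
        refine (hh.mul _ _).trans ?_
        rw [hμ]
        exact mul_le_mul_of_nonneg_right (hN _) hμ0.le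
      exact mul_le_mul h1 h2 (h0 _).1 (by positivity)
    have e3 : h (∑ q : ι × Fin r, ((-δ q : ℚ) : F) • (ω q.1 • v q.2)) ≤ 1 / 2 * h w := by
      refine (box_sum hh _ _).trans ((Finset.sum_le_sum fun q _ => e2 q).trans ?_)
      rw [Finset.sum_const, Finset.card_univ, nsmul_eq_mul]
      have h1 : (Fintype.card (ι × Fin r) : ℝ) * (1 / m * (N * h w)) =
          (Fintype.card (ι × Fin r) * N) / m * h w := by ring
      rw [h1]
      refine mul_le_mul_of_nonneg_right ?_ hμ0.le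
      rw [div_le_iff₀ hmr]
      linarith
    linarith
  have hy0 : boxV ω v y = 0 := by
    by_contra hne
    have h1 := hw.2 (boxV ω v y) ⟨box_mem ω v M (fun l => (hv l).1.1) y, Submodule.mem_top, hne⟩
    linarith
  have hyy := congrFun (box_indep ω v y hy0) p0
  have h1 := hy' p0
  rw [hδ] at h1
  simp only [hyy, Pi.zero_apply, Int.cast_zero, sub_zero] at h1
  rw [abs_mul, abs_div, abs_of_pos hZ0] at h1
  have h2 : |((z p0 : ℤ) : ℚ)| / Z = 1 := by
    rw [hZ, Int.cast_abs]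
    rw [hZ, Int.cast_abs] at hZ0
    exact div_self hZ0.ne'
  rw [h2, mul_one, Nat.abs_cast] at h1
  have h3 : (1 : ℚ) ≤ κ := by exact_mod_cast hκ0
  have h4 : (1 : ℚ) / m ≤ 1 := by
    rw [div_le_one hm']
    exact_mod_cast hm
  linarith

end

/-- **Box.** -/
theorem thm_Box (hIdx : St_Idx) (hNm : St_Nm) : St_Box := by
  intro A F _ _ _ _ _ _ _ c r
  classical
  have : CharZero A := (algebraMap A F).charZero
  have : Module.Free ℤ A := inferInstance
  obtain ⟨B, hB, hI⟩ := hIdx A F c r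
  let ω := Module.Free.chooseBasis ℤ A
  let ι := Module.Free.ChooseBasisIndex ℤ A
  let N : ℝ := ∑ j, |c (ω j)|
  have hN : ∀ j, c (ω j) ≤ N := fun j =>
    (le_abs_self _).trans (Finset.single_le_sum (f := fun j => |c (ω j)|)
      (fun _ _ => abs_nonneg _) (Finset.mem_univ j))
  have hN0 : 0 ≤ N := Finset.sum_nonneg fun _ _ => abs_nonneg _
  obtain ⟨m, hm⟩ := exists_nat_gt (2 * (Fintype.card (ι × Fin r) * N))
  have hm0 : 0 < m := by
    have : (0 : ℝ) < m := lt_of_le_of_lt (by positivity) hm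
    exact_mod_cast this
  let K : ℤ := 2 * m ^ Fintype.card (ι × Fin r) * B
  let S : Set (Fin r → ι → ℤ) := Set.pi Set.univ fun _ => Set.pi Set.univ fun _ => Set.Icc (-K) K
  have hS : S.Finite := Set.Finite.pi fun _ => Set.Finite.pi fun _ => Set.finite_Icc _ _
  refine ⟨(fun z : Fin r → ι → ℤ => fun l =>
    (B : F)⁻¹ * algebraMap A F (∑ j, z l j • ω j)) '' S, hS.image _, ?_⟩
  intro V _ _ _ _ M h v hM hh hv w hw
  have : FiniteDimensional F V := Module.Finite.of_basis v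
  have h0 := (hNm A F V c M hM).2.1 h hh
  choose a ha using hI V M h v hM hh hv w hw.1.1
  have hBF : (B : F) ≠ 0 := by exact_mod_cast hB.ne'
  have hz : boxV ω v (fun p => ω.repr (a p.2) p.1) = (B : F) • w := by
    rw [boxV_eq]
    have h1 : ∀ l, ∑ j, ω.repr (a l) j • ω j = a l := fun l => ω.sum_repr (a l)
    calc ∑ l, algebraMap A F (∑ j, ω.repr (a l) j • ω j) • v l
        = ∑ l, (B * v.repr w l) • v l := Finset.sum_congr rfl fun l _ => by rw [h1, ha]
      _ = (B : F) • ∑ l, v.repr w l • v l := by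
        rw [Finset.smul_sum]
        exact Finset.sum_congr rfl fun l _ => mul_smul _ _ _
      _ = (B : F) • w := by rw [v.sum_repr]
  refine ⟨fun l j => ω.repr (a l) j, fun l _ j _ => ?_, ?_⟩
  · have h1 := box_bd ω c N hN hN0 m hm0 hm B hB M h v hh h0 hv w hw _ hz (j, l)
    exact Set.mem_Icc.2 (abs_le.1 h1)
  · funext l
    change (B : F)⁻¹ * algebraMap A F (∑ j, ω.repr (a l) j • ω j) = v.equivFun w l
    rw [ω.sum_repr, ha, inv_mul_cancel_left₀ hBF]
    rfl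

end Pool.Agent.NR
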