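import Pool.Agent.NR.St
import Pool.Agent.GQ.ZX

/-!
# NR, module CCN (helper90): nerves of coverings of convex sets by convex sets
-/

set_option autoImplicit false
set_option linter.unusedVariables false
set_option linter.unusedSectionVars false

noncomputable section

namespace Pool.Agent.NR

open CategoryTheory Function Pool.Agent.KQ Pool.Agent.FGK Pool.Agent.GQ

universe u

/-! ### simplicial subsets -/

theorem ccn_eq {X : SSt.{u}} (A B : SubS X) (h : ∀ n x, x ∈ A.s n ↔ x ∈ B.s n) : A = B := by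
  obtain ⟨s, hs⟩ := A
  obtain ⟨t, ht⟩ := B
  have h1 : s = t := funext fun n => Set.ext (h n)
  subst h1
  rfl

theorem ccn_in {X : SSt.{u}} (A Y : SubS X) (h : ∀ n x, x ∈ A.s n → x ∈ Y.s n)
    (hA : SSt.Contr A.S) : SSt.Contr (subIn A Y).S :=
  zx_iso (X := (subIn A Y).S) (Y := A.S) ⟨fun n x => ⟨x.1.1, x.2⟩, fun _ _ => rfl⟩
    ⟨fun n x => ⟨⟨x.1, h n x.1 x.2⟩, x.2⟩, fun _ _ => rfl⟩ rfl rfl hA

theorem ccn_glue (hG : St_Glue.{u}) {X : SSt.{u}} (A B Y : SubS X)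
    (hA : ∀ n x, x ∈ A.s n → x ∈ Y.s n) (hB : ∀ n x, x ∈ B.s n → x ∈ Y.s n)
    (hY : ∀ n x, x ∈ Y.s n → x ∈ A.s n ∨ x ∈ B.s n) (cA : SSt.Contr A.S) (cB : SSt.Contr B.S)
    (cAB : SSt.Contr (subInt A B).S) : SSt.Contr Y.S :=
  hG.2 (subIn A Y) (subIn B Y) (fun n x => hY n x.1 x.2) (ccn_in A Y hA cA) (ccn_in B Y hB cB)
    (ccn_in (subInt A B) Y (fun n x h => hA n x h.1) cAB)

/-- directed unions of contractible simplicial subsets -/
theorem ccn_union {X : SSt.{u}} {J : Type u} [Nonempty J] (Y : SubS X) (A : J → SubS X)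
    (hA : ∀ j n x, x ∈ (A j).s n → x ∈ Y.s n)
    (hdir : ∀ i j, ∃ k, ∀ n x, x ∈ (A i).s n ∨ x ∈ (A j).s n → x ∈ (A k).s n)
    (hcov : ∀ n x, x ∈ Y.s n → ∃ j, x ∈ (A j).s n) (hC : ∀ j, SSt.Contr (A j).S) :
    SSt.Contr Y.S := by
  have h := thm_StrUnion.2 (X := Y.S) (Y := SSt.const PUnit.{u + 1}) (J := J)
    (fun j => subIn (A j) Y) (fun _ => ⟨fun _ => Set.univ, fun _ _ _ => trivial⟩) Y.S.toPt
    (fun _ _ _ _ => trivial) ?_ (fun n x => hcov n x.1 x.2)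
    (fun n x => ⟨Classical.arbitrary J, trivial⟩) ?_
  · exact h
  · intro i j
    obtain ⟨k, hk⟩ := hdir i j
    exact ⟨k, fun n x hx => hk n x.1 hx, fun _ _ _ => trivial⟩
  · intro j
    have h1 : SSt.Contr (subIn (A j) Y).S := ccn_in (A j) Y (hA j) (hC j)
    let B : SubS (SSt.const PUnit.{u + 1}) := ⟨fun _ => Set.univ, fun _ _ _ => trivial⟩
    have h2 : SSt.Contr B.S := by
      refine zx_iso (X := B.S) (Y := SSt.const PUnit.{u + 1}) ⟨fun n x => x.1, fun _ _ => rfl⟩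
        ⟨fun n x => ⟨x, trivial⟩, fun _ _ => rfl⟩ rfl rfl ?_
      exact all_StrHt.2.1 _ (𝟙 _) (fun Φ n => rfl) (fun Φ n => rfl)
    exact thm_Str23.2.2.1 _ B.S.toPt h2 h1

/-! ### convex sets -/

variable {T : Type}

theorem ccn_seg (f g : T → ℝ) (v w : T) (h1 : f v ≤ f w) (h2 : g w ≤ g v) :
    ∃ a b : ℝ, 0 ≤ a ∧ 0 ≤ b ∧ a + b = 1 ∧ (a • f + b • g) v = (a • f + b • g) w := by
  by_cases h : f v = f w
  · exact ⟨1, 0, zero_le_one, le_rfl, add_zero 1, by simp [h]⟩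
  · have h3 : 0 < f w - f v := by
      rcases lt_or_eq_of_le h1 with h4 | h4
      · linarith
      · exact absurd h4 h
    have h5 : 0 < (f w - f v) + (g v - g w) := by linarith
    refine ⟨(g v - g w) / ((f w - f v) + (g v - g w)), (f w - f v) / ((f w - f v) + (g v - g w)),
      by apply div_nonneg <;> linarith, by apply div_nonneg <;> linarith, ?_, ?_⟩
    · field_simp
      ring
    · simp only [Pi.add_apply, Pi.smul_apply, smul_eq_mul]
      field_simp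
      ring

theorem ccn_min (S : Set T) (f g : T → ℝ) (a b : ℝ) (ha : 0 ≤ a) (hb : 0 ≤ b) (v : T)
    (hf : v ∈ MinOn S f) (hg : v ∈ MinOn S g) : v ∈ MinOn S (a • f + b • g) := by
  refine ⟨hf.1, fun w hw => ?_⟩
  simp only [Pi.add_apply, Pi.smul_apply, smul_eq_mul]
  exact add_le_add (mul_le_mul_of_nonneg_left (hf.2 w hw) ha)
    (mul_le_mul_of_nonneg_left (hg.2 w hw) hb)

theorem ccn_half (v w : T) (P : Set (T → ℝ)) (hP : Convex ℝ P) :
    Convex ℝ {h | h ∈ P ∧ h v ≤ h w} := by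
  intro f hf g hg a b ha hb hab
  refine ⟨hP hf.1 hg.1 ha hb hab, ?_⟩
  simp only [Pi.add_apply, Pi.smul_apply, smul_eq_mul]
  exact add_le_add (mul_le_mul_of_nonneg_left hf.2 ha) (mul_le_mul_of_nonneg_left hg.2 hb)

theorem ccn_least (r : T → T → Prop) (htr : ∀ a b c, r a b → r b c → r a c) (F : Finset T)
    (hF : F.Nonempty) (htot : ∀ a ∈ F, ∀ b ∈ F, r a b ∨ r b a) : ∃ v ∈ F, ∀ w ∈ F, r v w := by
  classical
  induction F using Finset.induction_on with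
  | empty => exact absurd hF Finset.not_nonempty_empty
  | @insert a F ha ih =>
    have hr : r a a := (htot a (Finset.mem_insert_self _ _) a (Finset.mem_insert_self _ _)).elim
      id id
    rcases F.eq_empty_or_nonempty with h | h
    · subst h
      refine ⟨a, Finset.mem_insert_self _ _, fun w hw => ?_⟩
      rw [Finset.mem_insert] at hw
      rcases hw with rfl | hw
      · exact hr
      · exact absurd hw (Finset.notMem_empty w)
    · obtain ⟨v, hv, h1⟩ := ih h fun b hb c hc =>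
        htot b (Finset.mem_insert_of_mem hb) c (Finset.mem_insert_of_mem hc)
      rcases htot a (Finset.mem_insert_self _ _) v (Finset.mem_insert_of_mem hv) with h2 | h2
      · refine ⟨a, Finset.mem_insert_self _ _, fun w hw => ?_⟩
        rw [Finset.mem_insert] at hw
        rcases hw with rfl | hw
        · exact hr
        · exact htr _ _ _ h2 (h1 w hw)
      · refine ⟨v, Finset.mem_insert_of_mem hv, fun w hw => ?_⟩
        rw [Finset.mem_insert] at hw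
        rcases hw with rfl | hw
        · exact h2
        · exact h1 w hw

/-! ### the nerves -/

section

open Classical

/-- the nonempty finite sets of common minima -/
def ccn_A (P : Set (T → ℝ)) (S : Set T) : Set (Finset T) := {σ | σ.Nonempty ∧ Adm P S σ}

/-- the chains of nonempty finite sets of common minima -/
def ccn_N (P : Set (T → ℝ)) (S : Set T) : SubS (nvS.{1} (Finset T)) := zx_nv.{1} (ccn_A P S)

theorem ccn_sub (P : Set (T → ℝ)) (S : Set T) {σ τ : Finset T} (h : σ ⊆ τ) (hτ : Adm P S τ) :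
    Adm P S σ := by
  obtain ⟨f, hf, h1⟩ := hτ
  exact ⟨f, hf, fun v hv => h1 v (h hv)⟩

theorem ccn_mono {P Q : Set (T → ℝ)} (S : Set T) (h : P ⊆ Q) {σ : Finset T} (hσ : Adm P S σ) :
    Adm Q S σ := by
  obtain ⟨f, hf, h1⟩ := hσ
  exact ⟨f, h hf, h1⟩

/-- a chain with values in `ccn_A Q` is in `ccn_N P` if its last element is admissible for `P` -/
theorem ccn_last (P Q : Set (T → ℝ)) (S : Set T) (n : ℕ) (x : (nvS.{1} (Finset T)).obj n)
    (hx : x ∈ (ccn_N Q S).s n) (h : Adm P S (x.down (Fin.last n))) : x ∈ (ccn_N P S).s n :=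
  fun i => ⟨(hx i).1, ccn_sub P S (x.down.monotone (Fin.le_last i)) h⟩

theorem ccn_point (P : Set (T → ℝ)) (S : Set T) (v : T) (hP : P.Nonempty)
    (hv : ∀ h ∈ P, v ∈ MinOn S h) : SSt.Contr (ccn_N P S).S := by
  refine zx_nvC.{1} (ccn_A P S) {v} ?_ ?_
  · obtain ⟨f, hf⟩ := hP
    refine ⟨Finset.singleton_nonempty v, f, hf, fun w hw => ?_⟩
    rw [Finset.mem_singleton] at hw
    subst hw
    exact hv f hf
  · rintro σ ⟨h1, f, hf, h2⟩
    refine ⟨h1.mono Finset.subset_union_left, f, hf, fun w hw => ?_⟩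
    rcases Finset.mem_union.1 hw with hw | hw
    · exact h2 w hw
    · rw [Finset.mem_singleton] at hw
      subst hw
      exact hv f hf

theorem ccn_ind (hG : St_Glue.{1}) (S : Set T) (K : Finset T) : ∀ (n : ℕ) (P : Set (T → ℝ)),
    Convex ℝ P → P.Nonempty → (∀ h ∈ P, (MinOn S h).Nonempty ∧ MinOn S h ⊆ K) →
    ((K ×ˢ K).filter (fun p => (∃ h ∈ P, h p.1 < h p.2) ∧ ∃ h ∈ P, h p.2 < h p.1)).card = n →
    SSt.Contr (ccn_N P S).S := by
  intro n
  induction n using Nat.strong_induction_on with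
  | _ n ih =>
  intro P hP hne hK hn
  by_cases hE : ∃ v ∈ K, ∃ w ∈ K, (∃ h ∈ P, h v < h w) ∧ ∃ h ∈ P, h w < h v
  · obtain ⟨v, hv, w, hw, ⟨f, hf, hfv⟩, g, hg, hgv⟩ := hE
    have key : ∀ P' : Set (T → ℝ), P' ⊆ P → Convex ℝ P' → P'.Nonempty →
        ((∀ h ∈ P', h v ≤ h w) ∨ (∀ h ∈ P', h w ≤ h v)) → SSt.Contr (ccn_N P' S).S := by
      intro P' h1 h2 h3 h4
      refine ih _ ?_ P' h2 h3 (fun h hh => hK h (h1 hh)) rfl
      rw [← hn]
      refine Finset.card_lt_card (Finset.ssubset_iff_subset_ne.2 ⟨fun p hp => ?_, fun h => ?_⟩)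
      · rw [Finset.mem_filter] at hp ⊢
        obtain ⟨h5, ⟨f', hf', h6⟩, g', hg', h7⟩ := hp
        exact ⟨h5, ⟨f', h1 hf', h6⟩, g', h1 hg', h7⟩
      · have h5 : (v, w) ∈ (K ×ˢ K).filter
            (fun p => (∃ h ∈ P, h p.1 < h p.2) ∧ ∃ h ∈ P, h p.2 < h p.1) :=
          Finset.mem_filter.2 ⟨Finset.mem_product.2 ⟨hv, hw⟩, ⟨f, hf, hfv⟩, g, hg, hgv⟩
        rw [← h, Finset.mem_filter] at h5
        obtain ⟨-, ⟨f', hf', h6⟩, g', hg', h7⟩ := h5
        rcases h4 with h4 | h4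
        · exact absurd (h4 g' hg') (not_le.2 h7)
        · exact absurd (h4 f' hf') (not_le.2 h6)
    obtain ⟨a, b, ha, hb, hab, h0⟩ := ccn_seg f g v w hfv.le hgv.le
    have c1 := key {h | h ∈ P ∧ h v ≤ h w} (fun h hh => hh.1) (ccn_half v w P hP)
      ⟨f, hf, hfv.le⟩ (Or.inl fun h hh => hh.2)
    have c2 := key {h | h ∈ P ∧ h w ≤ h v} (fun h hh => hh.1) (ccn_half w v P hP)
      ⟨g, hg, hgv.le⟩ (Or.inr fun h hh => hh.2)
    have c3 := key ({h | h ∈ P ∧ h v ≤ h w} ∩ {h | h ∈ P ∧ h w ≤ h v}) (fun h hh => hh.1.1)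
      ((ccn_half v w P hP).inter (ccn_half w v P hP))
      ⟨a • f + b • g, ⟨hP hf hg ha hb hab, h0.le⟩, ⟨hP hf hg ha hb hab, h0.ge⟩⟩
      (Or.inl fun h hh => hh.1.2)
    refine ccn_glue hG (ccn_N {h | h ∈ P ∧ h v ≤ h w} S) (ccn_N {h | h ∈ P ∧ h w ≤ h v} S)
      (ccn_N P S) (fun n x hx i => ⟨(hx i).1, ccn_mono S (fun h hh => hh.1) (hx i).2⟩)
      (fun n x hx i => ⟨(hx i).1, ccn_mono S (fun h hh => hh.1) (hx i).2⟩) (fun m x hx => ?_)
      c1 c2 ?_
    · obtain ⟨h, hh, h1⟩ := (hx (Fin.last m)).2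
      rcases le_total (h v) (h w) with h2 | h2
      · exact Or.inl (ccn_last _ P S m x hx ⟨h, ⟨hh, h2⟩, h1⟩)
      · exact Or.inr (ccn_last _ P S m x hx ⟨h, ⟨hh, h2⟩, h1⟩)
    · rw [ccn_eq (subInt (ccn_N {h | h ∈ P ∧ h v ≤ h w} S) (ccn_N {h | h ∈ P ∧ h w ≤ h v} S))
        (ccn_N ({h | h ∈ P ∧ h v ≤ h w} ∩ {h | h ∈ P ∧ h w ≤ h v}) S) fun m x => ⟨fun hx => ?_,
          fun hx => ?_⟩]
      · exact c3
      · obtain ⟨f', ⟨hf', h1⟩, h2⟩ := (hx.1 (Fin.last m)).2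
        obtain ⟨g', ⟨hg', h3⟩, h4⟩ := (hx.2 (Fin.last m)).2
        obtain ⟨a', b', ha', hb', hab', h0'⟩ := ccn_seg f' g' v w h1 h3
        have h5 := hP hf' hg' ha' hb' hab'
        exact ccn_last _ _ S m x hx.1 ⟨a' • f' + b' • g', ⟨⟨h5, h0'.le⟩, ⟨h5, h0'.ge⟩⟩,
          fun z hz => ccn_min S f' g' a' b' ha' hb' z (h2 z hz) (h4 z hz)⟩
      · exact ⟨fun i => ⟨(hx i).1, ccn_mono S (fun h hh => hh.1) (hx i).2⟩,
          fun i => ⟨(hx i).1, ccn_mono S (fun h hh => hh.2) (hx i).2⟩⟩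
  · have hF : (K.filter fun v => v ∈ S).Nonempty := by
      obtain ⟨f, hf⟩ := hne
      obtain ⟨v, hv⟩ := (hK f hf).1
      exact ⟨v, Finset.mem_filter.2 ⟨(hK f hf).2 hv, hv.1⟩⟩
    obtain ⟨v, hv, h1⟩ := ccn_least (fun v w => ∀ h ∈ P, h v ≤ h w)
      (fun a b c h1 h2 h hh => (h1 h hh).trans (h2 h hh)) (K.filter fun v => v ∈ S) hF
      (fun a ha b hb => by
        by_contra hc
        push Not at hc
        obtain ⟨⟨f, hf, h2⟩, g, hg, h3⟩ := hc
        exact hE ⟨a, (Finset.mem_filter.1 ha).1, b, (Finset.mem_filter.1 hb).1, ⟨g, hg, h3⟩,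
          f, hf, h2⟩)
    refine ccn_point P S v hne fun h hh => ⟨(Finset.mem_filter.1 hv).2, fun w hw => ?_⟩
    obtain ⟨z, hz⟩ := (hK h hh).1
    exact (h1 z (Finset.mem_filter.2 ⟨(hK h hh).2 hz, hz.1⟩) h hh).trans (hz.2 w hw)

end

theorem thm_CCN (hG : St_Glue.{1}) : St_CCN := by
  classical
  intro T C S hC hne hfin
  have h1 : SSt.Contr (ccn_N C S).S := by
    let J : Type 1 := ULift.{1} {H : Finset (T → ℝ) // H.Nonempty ∧ (H : Set (T → ℝ)) ⊆ C}
    have hJ : Nonempty J := by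
      obtain ⟨f, hf⟩ := hne
      refine ⟨⟨⟨{f}, Finset.singleton_nonempty f, ?_⟩⟩⟩
      rw [Finset.coe_singleton]
      exact Set.singleton_subset_iff.2 hf
    refine ccn_union (J := J) (ccn_N C S)
      (fun j => ccn_N (convexHull ℝ (j.down.1 : Set (T → ℝ))) S) ?_ ?_ ?_ ?_
    · exact fun j n x hx i => ⟨(hx i).1, ccn_mono S (convexHull_min j.down.2.2 hC) (hx i).2⟩
    · rintro ⟨i, hi, hi'⟩ ⟨j, hj, hj'⟩
      refine ⟨⟨⟨i ∪ j, hi.mono Finset.subset_union_left, ?_⟩⟩, fun n x hx => ?_⟩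
      · rw [Finset.coe_union]
        exact Set.union_subset hi' hj'
      · rcases hx with hx | hx
        · exact fun l => ⟨(hx l).1, ccn_mono S (convexHull_mono
            (Finset.coe_subset.2 Finset.subset_union_left)) (hx l).2⟩
        · exact fun l => ⟨(hx l).1, ccn_mono S (convexHull_mono
            (Finset.coe_subset.2 Finset.subset_union_right)) (hx l).2⟩
    · intro n x hx
      obtain ⟨f, hf, h2⟩ := (hx (Fin.last n)).2
      refine ⟨⟨⟨{f}, Finset.singleton_nonempty f, ?_⟩⟩, ccn_last _ C S n x hx ⟨f, ?_, h2⟩⟩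
      · rw [Finset.coe_singleton]
        exact Set.singleton_subset_iff.2 hf
      · exact subset_convexHull ℝ _ (Finset.mem_coe.2 (Finset.mem_singleton_self f))
    · rintro ⟨H, hH, hH'⟩
      obtain ⟨K, hK, h2⟩ := hfin H hH'
      refine ccn_ind hG S hK.toFinset _ _ (convex_convexHull ℝ _)
        ((Finset.coe_nonempty.2 hH).mono (subset_convexHull ℝ _)) (fun h hh => ?_) rfl
      rw [hK.coe_toFinset]
      exact h2 h hh
  exact zx_iso (X := nvS.{1} {σ : Finset T // σ.Nonempty ∧ Adm C S σ}) (Y := (ccn_N C S).S)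
    ⟨fun n x => ⟨⟨⟨fun i => (x.down i).1, fun i j h => x.down.monotone h⟩⟩,
      fun i => (x.down i).2⟩, fun _ _ => rfl⟩
    ⟨fun n x => ⟨⟨fun i => ⟨x.1.down i, x.2 i⟩, fun i j h => x.1.down.monotone h⟩⟩,
      fun _ _ => rfl⟩ rfl rfl h1

end Pool.Agent.NR
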