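import Pool.Agent.NR.St
import Pool.Agent.GQ.FinLat

/-!
# NR: finitely many lattices in every rank (Jordan, Zassenhaus)
-/

set_option autoImplicit false
set_option linter.unusedVariables false

noncomputable section

namespace Pool.Agent.NR

open CategoryTheory Function Pool.Agent.KQ Pool.Agent.FGK Pool.Agent.GQ

/-- a spanning set of `F ^ r` contains a basis -/
theorem flm_basis {F V : Type} [Field F] [AddCommGroup V] [Module F V] [FiniteDimensional F V]
    (r : ℕ) (hr : Module.finrank F V = r) (S : Set V) (hS : Submodule.span F S = ⊤) :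
    ∃ v : Module.Basis (Fin r) F V, ∀ l, v l ∈ S := by
  classical
  let b := Module.Basis.ofSpan hS.ge
  have hb : Set.range b ⊆ S := Module.Basis.ofSpan_subset hS.ge
  have : Fintype ((linearIndepOn_empty F (id : V → V)).extend (Set.empty_subset S)) :=
    FiniteDimensional.fintypeBasisIndex b
  have hcard : Fintype.card ((linearIndepOn_empty F (id : V → V)).extend (Set.empty_subset S)) =
      r := by rw [← hr, Module.finrank_eq_card_basis b]
  refine ⟨b.reindex (Fintype.equivFinOfCardEq hcard), fun l => ?_⟩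
  rw [Module.Basis.reindex_apply]
  exact hb ⟨_, rfl⟩

/-- **FLM.** Finitely many lattices in every rank. -/
theorem thm_FLM (hEx : St_NmEx) (hWR : St_WR) (hLam : St_Lam) : St_FLM := by
  intro A F _ _ _ _ _ _ _ r hr
  obtain ⟨c, hc⟩ := hEx A F
  obtain ⟨Λ, hΛ, h⟩ := hLam A F c r
  refine ⟨{M ∈ Λ | IsLatA F M}, hΛ.subset fun M hM => hM.1, fun M hM => hM.2, ?_⟩
  intro N hN hN' hr'
  have hN : Module.Finite A N := hN
  subst hr'
  obtain ⟨M, hM, ⟨e⟩⟩ := finlat_emb A F N hN'
  obtain ⟨h₁, hh, hsp⟩ := hWR A F (Fin (Module.finrank A N) → F) c M hM (hc _ M hM)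
  obtain ⟨v, hv⟩ := flm_basis (F := F) (Module.finrank A N)
    (Module.finrank_fin_fun F) _ hsp
  obtain ⟨L, hL, hL'⟩ := h (Fin (Module.finrank A N) → F) M h₁ v hM hh hv
  obtain ⟨h1, ⟨e'⟩⟩ := finlat_map M L v.equivFun (fun w => by
    rw [hL', LinearEquiv.symm_apply_apply]) hM
  exact ⟨L, ⟨hL, h1⟩, ⟨e.trans e'⟩⟩

end Pool.Agent.NR
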