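import Pool.Agent.NR.St
import Pool.Agent.GQ.ZX

/-!
# NR, module QA (helper41): theorem A of Quillen for ordered sets
-/

set_option autoImplicit false
set_option linter.unusedVariables false

noncomputable section

namespace Pool.Agent.NR

open CategoryTheory Function Pool.Agent.KQ Pool.Agent.FGK Pool.Agent.GQ

universe u

/-! ### homotopies of maps to nerves -/

/-- a chain which is `a` where `α` is `false` and `b` where `α` is `true` -/
def qa_mix {P : Type} [Preorder P] {n : ℕ} (α : Fin (n + 1) →o Bool) (a b : Fin (n + 1) →o P)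
    (h : ∀ i, a i ≤ b i) : Fin (n + 1) →o P where
  toFun i := if α i = true then b i else a i
  monotone' i j hij := by
    by_cases h1 : α i = true
    · have h2 : α j = true := by
        have h3 := α.monotone hij
        rw [h1] at h3
        exact top_le_iff.1 h3
      change (if α i = true then b i else a i) ≤ (if α j = true then b j else a j)
      rw [if_pos h1, if_pos h2]
      exact b.monotone hij
    · change (if α i = true then b i else a i) ≤ (if α j = true then b j else a j)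
      rw [if_neg h1]
      by_cases h2 : α j = true
      · rw [if_pos h2]
        exact (a.monotone hij).trans (h j)
      · rw [if_neg h2]
        exact a.monotone hij

/-- comparable maps to the nerve of a preorder are homotopic -/
def qa_h {X : SSt.{u}} {P : Type} [Preorder P] (a b : X ⟶ nvS.{u} P)
    (h : ∀ n x i, (a.app n x).down i ≤ (b.app n x).down i) : SSt.Htpy a b where
  h n α x := ⟨qa_mix α (a.app n x).down (b.app n x).down (h n x)⟩
  nat {m n} θ α x := by
    apply ULift.ext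
    apply OrderHom.ext
    funext i
    change (if α (θ i) = true then (b.app m (X.map θ x)).down i else
      (a.app m (X.map θ x)).down i) = (if α (θ i) = true then (b.app n x).down (θ i) else
      (a.app n x).down (θ i))
    rw [b.nat θ x, a.nat θ x]
    rfl
  h0 n α x h := by
    apply ULift.ext
    apply OrderHom.ext
    funext i
    change (if α i = true then (b.app n x).down i else (a.app n x).down i) = (a.app n x).down i
    rw [h i]
    rfl
  h1 n α x h := by
    apply ULift.ext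
    apply OrderHom.ext
    funext i
    change (if α i = true then (b.app n x).down i else (a.app n x).down i) = (b.app n x).down i
    rw [if_pos (h i)]

/-- comparable maps to the nerve of a preorder are equal on homotopy groups -/
theorem qa_eq {X : SSt.{u}} {P : Type} [Preorder P] (a b : X ⟶ nvS.{u} P)
    (h : ∀ n x i, (a.app n x).down i ≤ (b.app n x).down i) : SSt.StrEq a b :=
  all_StrHt.1 _ _ ⟨qa_h a b h⟩

/-- the constant map -/
def qa_pt {P : Type} [Preorder P] (p : P) : SSt.const PUnit.{u + 1} ⟶ nvS.{u} P :=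
  ⟨fun n _ => ⟨⟨fun _ => p, fun _ _ _ => le_rfl⟩⟩, fun _ _ => rfl⟩

/-- the nerve of a preorder with a smallest element -/
theorem qa_bot {P : Type} [Preorder P] (p : P) (hp : ∀ x, p ≤ x) : SSt.Contr (nvS.{u} P) :=
  all_StrHt.2.2 _ (qa_pt.{u} p) (qa_eq _ _ fun _ _ _ => hp _)

/-- the nerve of a preorder with a largest element -/
theorem qa_top {P : Type} [Preorder P] (p : P) (hp : ∀ x, x ≤ p) : SSt.Contr (nvS.{u} P) :=
  all_StrHt.2.2 _ (qa_pt.{u} p) (fun Φ n => (qa_eq (𝟙 _) ((nvS.{u} P).toPt ≫ qa_pt.{u} p)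
    (fun _ _ _ => hp _) Φ n).symm)

/-! ### the bisimplicial set -/

section

variable {P Q : Type} [Preorder P] [Preorder Q] (f : P →o Q)

/-- the pairs of a chain of `P` and a chain of `Q` above its image -/
def qa_Q (p : ℕ) : SubS ((zx_bp (nvS.{u} P) (nvS.{u} Q)).obj p) where
  s q := {x | f (x.1.down (Fin.last p)) ≤ x.2.down 0}
  map_mem {m n} θ x h := le_trans (show f (x.1.down (Fin.last p)) ≤ x.2.down 0 from h)
    (x.2.down.monotone (Fin.zero_le (θ 0)))

/-- the bisimplicial set -/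
def qa_B : SOb SSt.{u} :=
  zx_sub (zx_bp (nvS.{u} P) (nvS.{u} Q)) (qa_Q f) (by
    intro m n θ q x h
    exact le_trans (f.monotone (x.1.down.monotone (Fin.le_last (θ (Fin.last m)))))
      (show f (x.1.down (Fin.last n)) ≤ x.2.down 0 from h))

/-- first projection -/
def qa_f1 : qa_B.{u} f ⟶ zx_cst (nvS.{u} P) :=
  ⟨fun p => ⟨fun q x => x.1.1, fun _ _ => rfl⟩, fun _ => rfl⟩

/-- second projection -/
def qa_f2 : qa_B.{u} f ⟶ SOb.const (nvS.{u} Q) :=
  ⟨fun p => ⟨fun q x => x.1.2, fun _ _ => rfl⟩, fun _ => rfl⟩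

theorem qa_le {p q : ℕ} (x : ((qa_B.{u} f).obj p).obj q) :
    f (x.1.1.down (Fin.last p)) ≤ x.1.2.down 0 := x.2

theorem qa_c1 (p : ℕ) (σ : (nvS.{u} P).obj p) :
    SSt.Contr (SSt.fib (J := (nvS.{u} P).obj p) ((qa_f1 f).app p) σ).S := by
  have hC : SSt.Contr (nvS.{u} {q : Q // f (σ.down (Fin.last p)) ≤ q}) :=
    qa_bot ⟨_, le_rfl⟩ (fun x => x.2)
  refine zx_iso (Y := nvS.{u} {q : Q // f (σ.down (Fin.last p)) ≤ q})
    ⟨fun q x => ⟨⟨fun i => ⟨x.1.1.2.down i, ?_⟩, fun i j h => x.1.1.2.down.monotone h⟩⟩,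
      fun _ _ => rfl⟩
    ⟨fun q y => ⟨⟨(σ, ⟨⟨fun i => (y.down i).1, fun i j h => y.down.monotone h⟩⟩),
      (y.down 0).2⟩, rfl⟩, fun _ _ => rfl⟩ ?_ ?_ hC
  · obtain ⟨⟨⟨σ', y⟩, h⟩, h'⟩ := x
    change σ' = σ at h'
    subst h'
    exact le_trans (show f (σ'.down (Fin.last p)) ≤ y.down 0 from h)
      (y.down.monotone (Fin.zero_le i))
  · apply SSt.hom_ext
    intro q x
    exact Subtype.ext (Subtype.ext (Prod.ext (show σ = x.1.1.1 from x.2.symm) rfl))
  · rfl

theorem qa_c2 (hf : ∀ q : Q, SSt.Contr (nvS.{u} {p : P // f p ≤ q})) (q : ℕ)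
    (y : (nvS.{u} Q).obj q) :
    SSt.Contr (SSt.fib (J := (nvS.{u} Q).obj q) (SSt.colMap (qa_f2 f) q) y).S := by
  refine zx_iso (Y := nvS.{u} {p : P // f p ≤ y.down 0})
    ⟨fun p x => ⟨⟨fun i => ⟨x.1.1.1.down i, ?_⟩, fun i j h => x.1.1.1.down.monotone h⟩⟩,
      fun _ _ => rfl⟩
    ⟨fun p s => ⟨⟨(⟨⟨fun i => (s.down i).1, fun i j h => s.down.monotone h⟩⟩, y),
      (s.down (Fin.last p)).2⟩, rfl⟩, fun _ _ => rfl⟩ ?_ ?_ (hf (y.down 0))
  · obtain ⟨⟨⟨σ, y'⟩, h⟩, h'⟩ := x
    change y' = y at h'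
    subst h'
    exact le_trans (f.monotone (σ.down.monotone (Fin.le_last i)))
      (show f (σ.down (Fin.last p)) ≤ y'.down 0 from h)
  · apply SSt.hom_ext
    intro p x
    exact Subtype.ext (Subtype.ext (Prod.ext rfl (show y = x.1.1.2 from x.2.symm)))
  · rfl

end

theorem thm_QA : St_QA.{u} := by
  intro P Q _ _ f hf
  have h1 : SSt.Strong (SSt.diagF.map (qa_f1.{u} f)) := zx_row (qa_f1 f) (qa_c1 f)
  have h2 : SSt.Strong (SSt.diagF.map (qa_f2.{u} f)) := zx_colm (qa_f2 f) (qa_c2 f hf)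
  have h3 : SSt.StrEq ((show SSt.diagF.obj (qa_B.{u} f) ⟶ nvS.{u} P from
      SSt.diagF.map (qa_f1.{u} f)) ≫ nvMap.{u} f)
      (show SSt.diagF.obj (qa_B.{u} f) ⟶ nvS.{u} Q from SSt.diagF.map (qa_f2.{u} f)) := by
    apply qa_eq
    intro n x i
    exact le_trans (f.monotone (x.1.1.down.monotone (Fin.le_last i)))
      (le_trans (qa_le f x) (x.1.2.down.monotone (Fin.zero_le i)))
  exact thm_Str23.2.1 (show SSt.diagF.obj (qa_B.{u} f) ⟶ nvS.{u} P from
    SSt.diagF.map (qa_f1.{u} f)) (nvMap.{u} f) h1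
    (thm_Str23.2.2.2.2 _ _ (fun Φ n => (h3 Φ n).symm) h2)

end Pool.Agent.NR
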