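import Pool.Agent.NR.St
import Pool.Agent.GQ.ZX
import Pool.Agent.NR.QA

/-!
# NR, module Glue (helper18): gluing of strong maps, unions of two contractible pieces
-/

set_option autoImplicit false
set_option linter.unusedVariables false

noncomputable section

namespace Pool.Agent.NR

open CategoryTheory Function Pool.Agent.KQ Pool.Agent.FGK Pool.Agent.GQ

universe u

section

variable {X X' : SSt.{u}}

/-- the pairs `(α, x)` with `x ∈ A` if `α 0 = false` and `x ∈ B` if `α p = true` -/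
def glue_Q (A B : SubS X) (p : ℕ) : SubS ((zx_bp (nvS.{u} Bool) X).obj p) where
  s q := {x | (x.1.down 0 = false → x.2 ∈ A.s q) ∧ (x.1.down (Fin.last p) = true → x.2 ∈ B.s q)}
  map_mem θ x h := ⟨fun h1 => A.map_mem θ x.2 (h.1 h1), fun h1 => B.map_mem θ x.2 (h.2 h1)⟩

/-- the bisimplicial set -/
def glue_B (A B : SubS X) : SOb SSt.{u} :=
  zx_sub (zx_bp (nvS.{u} Bool) X) (glue_Q A B) (by
    intro m n θ q x h
    refine ⟨fun h1 => h.1 ?_, fun h1 => h.2 ?_⟩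
    · have h2 : x.1.down 0 ≤ x.1.down (θ 0) := x.1.down.monotone (Fin.zero_le (θ 0))
      have h3 : x.1.down (θ 0) = false := h1
      rw [h3] at h2
      exact le_bot_iff.1 h2
    · have h2 : x.1.down (θ (Fin.last m)) ≤ x.1.down (Fin.last n) :=
        x.1.down.monotone (Fin.le_last (θ (Fin.last m)))
      have h3 : x.1.down (θ (Fin.last m)) = true := h1
      rw [h3] at h2
      exact top_le_iff.1 h2)

/-- the projection to `X` -/
def glue_p (A B : SubS X) : glue_B A B ⟶ SOb.const X :=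
  ⟨fun p => ⟨fun q x => x.1.2, fun _ _ => rfl⟩, fun _ => rfl⟩

theorem glue_col (A B : SubS X) (hX : ∀ n x, x ∈ A.s n ∨ x ∈ B.s n) (q : ℕ) (y : X.obj q) :
    SSt.Contr (SSt.fib (J := X.obj q) (SSt.colMap (glue_p A B) q) y).S := by
  have hC : SSt.Contr (nvS.{u} {b : Bool // (b = false → y ∈ A.s q) ∧ (b = true → y ∈ B.s q)}) := by
    by_cases h : y ∈ A.s q
    · exact qa_bot ⟨false, fun _ => h, fun h1 => absurd h1 (by decide)⟩ fun x => bot_le (a := x.1)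
    · have h1 : y ∈ B.s q := (hX q y).resolve_left h
      refine qa_bot ⟨true, fun h2 => absurd h2 (by decide), fun _ => h1⟩ fun x => ?_
      have h2 : x.1 = true := by
        rcases x with ⟨b, h3, h4⟩
        cases b
        · exact absurd (h3 rfl) h
        · rfl
      exact le_of_eq (α := Bool) h2.symm
  refine zx_iso (Y := nvS.{u} {b : Bool // (b = false → y ∈ A.s q) ∧ (b = true → y ∈ B.s q)})
    ⟨fun p x => ⟨⟨fun i => ⟨x.1.1.1.down i, ?_⟩, fun i j h => x.1.1.1.down.monotone h⟩⟩,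
      fun _ _ => rfl⟩
    ⟨fun p s => ⟨⟨(⟨⟨fun i => (s.down i).1, fun i j h => s.down.monotone h⟩⟩, y),
      ⟨fun h => (s.down 0).2.1 h, fun h => (s.down (Fin.last p)).2.2 h⟩⟩, rfl⟩,
      fun _ _ => rfl⟩ ?_ ?_ hC
  · obtain ⟨⟨⟨σ, y'⟩, h⟩, h'⟩ := x
    change y' = y at h'
    subst h'
    obtain ⟨h1, h2⟩ := h
    refine ⟨fun h3 => h1 ?_, fun h3 => h2 ?_⟩
    · have h4 : σ.down 0 ≤ σ.down i := σ.down.monotone (Fin.zero_le i)
      have h5 : σ.down i = false := h3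
      rw [h5] at h4
      exact le_bot_iff.1 h4
    · have h4 : σ.down i ≤ σ.down (Fin.last p) := σ.down.monotone (Fin.le_last i)
      have h5 : σ.down i = true := h3
      rw [h5] at h4
      exact top_le_iff.1 h4
  · apply SSt.hom_ext
    intro p x
    exact Subtype.ext (Subtype.ext (Prod.ext rfl (show y = x.1.1.2 from x.2.symm)))
  · rfl

/-- the map of bisimplicial sets -/
def glue_m (f : X ⟶ X') (A B : SubS X) (A' B' : SubS X')
    (hA : ∀ n x, x ∈ A.s n → f.app n x ∈ A'.s n) (hB : ∀ n x, x ∈ B.s n → f.app n x ∈ B'.s n) :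
    glue_B A B ⟶ glue_B A' B' :=
  ⟨fun p => ⟨fun q x => ⟨(x.1.1, f.app q x.1.2), ⟨fun h => hA _ _ (x.2.1 h),
      fun h => hB _ _ (x.2.2 h)⟩⟩,
    fun θ x => Subtype.ext (Prod.ext rfl (f.nat θ x.1.2))⟩, fun _ => rfl⟩

/-- the projection to the first factor -/
def glue_a (A B : SubS X) (p : ℕ) : (glue_B A B).obj p ⟶ SSt.const ((nvS.{u} Bool).obj p) :=
  ⟨fun q x => x.1.1, fun _ _ => rfl⟩

/-- the fibre over `α` -/
theorem glue_fib (f : X ⟶ X') (A B C : SubS X) (A' B' C' : SubS X')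
    (hA : ∀ n x, x ∈ A.s n → f.app n x ∈ A'.s n) (hB : ∀ n x, x ∈ B.s n → f.app n x ∈ B'.s n)
    (hC : ∀ n x, x ∈ C.s n → f.app n x ∈ C'.s n) (p : ℕ) (α : (nvS.{u} Bool).obj p)
    (h1 : ∀ n x, x ∈ C.s n ↔ (α.down 0 = false → x ∈ A.s n) ∧
      (α.down (Fin.last p) = true → x ∈ B.s n))
    (h2 : ∀ n x, x ∈ C'.s n ↔ (α.down 0 = false → x ∈ A'.s n) ∧
      (α.down (Fin.last p) = true → x ∈ B'.s n))
    (hf : SSt.Strong (SubS.mapS f C C' hC))
    (h3 : ∀ n x, x ∈ (SSt.fib (J := (nvS.{u} Bool).obj p) (glue_a A B p) α).s n →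
      ((glue_m f A B A' B' hA hB).app p).app n x ∈
        (SSt.fib (J := (nvS.{u} Bool).obj p) (glue_a A' B' p) α).s n) :
    SSt.Strong (SubS.mapS ((glue_m f A B A' B' hA hB).app p)
      (SSt.fib (J := (nvS.{u} Bool).obj p) (glue_a A B p) α)
      (SSt.fib (J := (nvS.{u} Bool).obj p) (glue_a A' B' p) α) h3) := by
  let i : (SSt.fib (J := (nvS.{u} Bool).obj p) (glue_a A B p) α).S ⟶ C.S :=
    ⟨fun n x => ⟨x.1.1.2, (h1 n _).2 (by
      obtain ⟨⟨⟨σ, y⟩, h⟩, h'⟩ := x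
      change σ = α at h'
      subst h'
      exact h)⟩, fun _ _ => rfl⟩
  let r : C.S ⟶ (SSt.fib (J := (nvS.{u} Bool).obj p) (glue_a A B p) α).S :=
    ⟨fun n x => ⟨⟨(α, x.1), (h1 n _).1 x.2⟩, rfl⟩, fun _ _ => rfl⟩
  let j : (SSt.fib (J := (nvS.{u} Bool).obj p) (glue_a A' B' p) α).S ⟶ C'.S :=
    ⟨fun n x => ⟨x.1.1.2, (h2 n _).2 (by
      obtain ⟨⟨⟨σ, y⟩, h⟩, h'⟩ := x
      change σ = α at h'
      subst h'
      exact h)⟩, fun _ _ => rfl⟩
  let s : C'.S ⟶ (SSt.fib (J := (nvS.{u} Bool).obj p) (glue_a A' B' p) α).S :=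
    ⟨fun n x => ⟨⟨(α, x.1), (h2 n _).1 x.2⟩, rfl⟩, fun _ _ => rfl⟩
  have hir : i ≫ r = 𝟙 _ := by
    apply SSt.hom_ext
    intro n x
    exact Subtype.ext (Subtype.ext (Prod.ext (show α = x.1.1.1 from x.2.symm) rfl))
  have hjs : j ≫ s = 𝟙 _ := by
    apply SSt.hom_ext
    intro n x
    exact Subtype.ext (Subtype.ext (Prod.ext (show α = x.1.1.1 from x.2.symm) rfl))
  have hif : i ≫ SubS.mapS f C C' hC = SubS.mapS ((glue_m f A B A' B' hA hB).app p)
      (SSt.fib (J := (nvS.{u} Bool).obj p) (glue_a A B p) α)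
      (SSt.fib (J := (nvS.{u} Bool).obj p) (glue_a A' B' p) α) h3 ≫ j := rfl
  have hrf : r ≫ SubS.mapS ((glue_m f A B A' B' hA hB).app p)
      (SSt.fib (J := (nvS.{u} Bool).obj p) (glue_a A B p) α)
      (SSt.fib (J := (nvS.{u} Bool).obj p) (glue_a A' B' p) α) h3 =
        SubS.mapS f C C' hC ≫ s := rfl
  exact thm_Str23.2.2.2.1 _ _ i r j s (fun Φ n => by rw [hir]) (fun Φ n => by rw [hjs])
    (fun Φ n => by rw [hif]) (fun Φ n => by rw [hrf]) hf

theorem glue_row (f : X ⟶ X') (A B : SubS X) (A' B' : SubS X')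
    (hA : ∀ n x, x ∈ A.s n → f.app n x ∈ A'.s n) (hB : ∀ n x, x ∈ B.s n → f.app n x ∈ B'.s n)
    (h1 : SSt.Strong (SubS.mapS f A A' hA)) (h2 : SSt.Strong (SubS.mapS f B B' hB))
    (h3 : SSt.Strong (SubS.mapS f (subInt A B) (subInt A' B') fun n x h => ⟨hA n x h.1, hB n x h.2⟩))
    (p : ℕ) : SSt.Strong ((glue_m f A B A' B' hA hB).app p) := by
  refine all_StrFib.1 (J := (nvS.{u} Bool).obj p) _ (glue_a A B p) (glue_a A' B' p) rfl fun α => ?_
  by_cases h4 : α.down (Fin.last p) = true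
  · by_cases h5 : α.down 0 = false
    · exact glue_fib f A B (subInt A B) A' B' (subInt A' B') hA hB _ p α
        (fun n x => ⟨fun h => ⟨fun _ => h.1, fun _ => h.2⟩, fun h => ⟨h.1 h5, h.2 h4⟩⟩)
        (fun n x => ⟨fun h => ⟨fun _ => h.1, fun _ => h.2⟩, fun h => ⟨h.1 h5, h.2 h4⟩⟩) h3 _
    · exact glue_fib f A B B A' B' B' hA hB _ p α
        (fun n x => ⟨fun h => ⟨fun h6 => absurd h6 h5, fun _ => h⟩, fun h => h.2 h4⟩)
        (fun n x => ⟨fun h => ⟨fun h6 => absurd h6 h5, fun _ => h⟩, fun h => h.2 h4⟩) h2 _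
  · have h5 : α.down 0 = false := by
      have h6 : α.down 0 ≤ α.down (Fin.last p) := α.down.monotone (Fin.zero_le _)
      rw [Bool.eq_false_of_not_eq_true h4] at h6
      exact le_bot_iff.1 h6
    exact glue_fib f A B A A' B' A' hA hB _ p α
      (fun n x => ⟨fun h => ⟨fun _ => h, fun h6 => absurd h6 h4⟩, fun h => h.1 h5⟩)
      (fun n x => ⟨fun h => ⟨fun _ => h, fun h6 => absurd h6 h4⟩, fun h => h.1 h5⟩) h1 _

theorem glue_one (f : X ⟶ X') (A B : SubS X) (A' B' : SubS X')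
    (hA : ∀ n x, x ∈ A.s n → f.app n x ∈ A'.s n) (hB : ∀ n x, x ∈ B.s n → f.app n x ∈ B'.s n)
    (hX : ∀ n x, x ∈ A.s n ∨ x ∈ B.s n) (hX' : ∀ n x, x ∈ A'.s n ∨ x ∈ B'.s n)
    (h1 : SSt.Strong (SubS.mapS f A A' hA)) (h2 : SSt.Strong (SubS.mapS f B B' hB))
    (h3 : SSt.Strong (SubS.mapS f (subInt A B) (subInt A' B')
      fun n x h => ⟨hA n x h.1, hB n x h.2⟩)) : SSt.Strong f := by
  have h4 : SSt.Strong (SSt.diagF.map (glue_m f A B A' B' hA hB)) :=
    all_StrRow _ (glue_row f A B A' B' hA hB h1 h2 h3)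
  have h5 : SSt.Strong (SSt.diagF.map (glue_p A B)) := zx_colm (glue_p A B) (glue_col A B hX)
  have h6 : SSt.Strong (SSt.diagF.map (glue_p A' B')) := zx_colm (glue_p A' B') (glue_col A' B' hX')
  have h7 : SSt.Strong ((show SSt.diagF.obj (glue_B A B) ⟶ X from
      SSt.diagF.map (glue_p A B)) ≫ f) := by
    have h8 := thm_Str23.1 _ _ h4 h6
    exact h8
  exact thm_Str23.2.1 (show SSt.diagF.obj (glue_B A B) ⟶ X from
    SSt.diagF.map (glue_p A B)) f h5 h7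

/-- the whole simplicial set -/
def glue_t (X : SSt.{u}) : SubS X where
  s n := Set.univ
  map_mem _ _ _ := trivial

theorem glue_pt (A : SubS X) (C' : SubS (SSt.const PUnit.{u + 1}))
    (hC : ∀ n x, x ∈ C'.s n) (hA : SSt.Contr A.S)
    (h : ∀ n x, x ∈ A.s n → (X.toPt).app n x ∈ C'.s n) :
    SSt.Strong (SubS.mapS X.toPt A C' h) := by
  let g : SSt.const PUnit.{u + 1} ⟶ C'.S := ⟨fun n x => ⟨x, hC n x⟩, fun _ _ => rfl⟩
  have h1 : SSt.Strong C'.ι := all_StrHt.2.1 C'.ι g (fun Φ n => by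
    have : C'.ι ≫ g = 𝟙 _ := rfl
    rw [this]) (fun Φ n => by
    have : g ≫ C'.ι = 𝟙 _ := rfl
    rw [this])
  refine thm_Str23.2.2.1 (SubS.mapS X.toPt A C' h) C'.ι h1 ?_
  exact hA

end

theorem thm_Glue : St_Glue.{u} := by
  refine ⟨fun f A B A' B' hA hB h1 h2 h3 h4 h5 => glue_one f A B A' B' hA hB h1 h2 h3 h4 h5,
    fun {X} A B hX hA hB hAB => ?_⟩
  exact glue_one X.toPt A B (glue_t _) (glue_t _) (fun _ _ _ => trivial) (fun _ _ _ => trivial)
    hX (fun _ _ => Or.inl trivial) (glue_pt A (glue_t _) (fun _ _ => trivial) hA _)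
    (glue_pt B (glue_t _) (fun _ _ => trivial) hB _)
    (glue_pt (subInt A B) (subInt (glue_t _) (glue_t _)) (fun _ _ => ⟨trivial, trivial⟩) hAB _)

end Pool.Agent.NR
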