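import Pool.Agent.NR.St

/-!
# NR: index of a basis of shortest vectors (pigeonhole)
-/

set_option autoImplicit false
set_option linter.unusedVariables false

noncomputable section

namespace Pool.Agent.NR

open CategoryTheory Function Pool.Agent.KQ Pool.Agent.FGK Pool.Agent.GQ

/-- elements of the field of fractions are rational combinations of a basis -/
theorem idx_rep {A F : Type} [CommRing A] [IsDomain A] [Module.Finite ℤ A] [Field F]
    [CharZero F] [Algebra A F] [IsFractionRing A F] {n : ℕ} (ω : Module.Basis (Fin n) ℤ A)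
    (x : F) : ∃ q : Fin n → ℚ, x = ∑ j, (q j : F) * algebraMap A F (ω j) := by
  obtain ⟨a, b, hb, rfl⟩ := IsFractionRing.div_surjective (A := A) x
  have hb0 : b ≠ 0 := nonZeroDivisors.ne_zero hb
  have hbi : IsIntegral ℤ b := Algebra.IsIntegral.isIntegral b
  have h1 := Ideal.comap_ne_bot_of_integral_mem (R := ℤ) hb0
    (Ideal.mem_span_singleton_self b) hbi
  obtain ⟨d, hd, hd0⟩ := Submodule.exists_mem_ne_zero_of_ne_bot h1
  rw [Ideal.mem_comap, Ideal.mem_span_singleton'] at hd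
  obtain ⟨b', hb'⟩ := hd
  refine ⟨fun j => (ω.repr (a * b') j : ℚ) / d, ?_⟩
  have h2 : (∑ j, ω.repr (a * b') j • ω j) = a * b' := ω.sum_repr _
  have h3 : algebraMap A F (a * b') = ∑ j, (ω.repr (a * b') j : F) * algebraMap A F (ω j) := by
    conv_lhs => rw [← h2]
    rw [map_sum]
    refine Finset.sum_congr rfl fun j _ => ?_
    rw [zsmul_eq_mul, map_mul, map_intCast]
  have hd1 : (d : F) ≠ 0 := Int.cast_ne_zero.2 hd0
  have hbF : algebraMap A F b ≠ 0 := by
    rw [Ne, IsFractionRing.to_map_eq_zero_iff]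
    exact hb0
  have h4 : algebraMap A F b' * algebraMap A F b = (d : F) := by
    rw [← map_mul, hb']
    simp
  have h5 : ∑ j, (((ω.repr (a * b') j : ℚ) / d : ℚ) : F) * algebraMap A F (ω j)
      = (∑ j, (ω.repr (a * b') j : F) * algebraMap A F (ω j)) / d := by
    rw [Finset.sum_div]
    refine Finset.sum_congr rfl fun j _ => ?_
    rw [Rat.cast_div, Rat.cast_intCast, Rat.cast_intCast]
    ring
  rw [h5, ← h3, div_eq_div_iff hbF hd1, ← h4, map_mul]
  ring

/-- simultaneous approximation by integers -/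
theorem idx_dir {ι : Type} [Fintype ι] [DecidableEq ι] (m : ℕ) (hm : 0 < m) (q : ι → ℚ) :
    ∃ (D : ℤ) (z : ι → ℤ), D ≠ 0 ∧ D.natAbs ≤ m ^ Fintype.card ι ∧
      ∀ i, |(D : ℚ) * q i - z i| * m < 1 := by
  have hmQ : (0 : ℚ) < m := by exact_mod_cast hm
  have hfl : ∀ (k : Fin (m ^ Fintype.card ι + 1)) (i : ι),
      (⌊(m : ℚ) * Int.fract ((k : ℕ) * q i)⌋).toNat < m := by
    intro k i
    have h1 : (0 : ℚ) ≤ (m : ℚ) * Int.fract ((k : ℕ) * q i) :=
      mul_nonneg hmQ.le (Int.fract_nonneg _)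
    have h2 : (m : ℚ) * Int.fract ((k : ℕ) * q i) < m := by
      have h3 := Int.fract_lt_one ((k : ℕ) * q i)
      nlinarith
    have h3 : 0 ≤ ⌊(m : ℚ) * Int.fract ((k : ℕ) * q i)⌋ := Int.floor_nonneg.2 h1
    have h4 : ⌊(m : ℚ) * Int.fract ((k : ℕ) * q i)⌋ < (m : ℤ) := by
      rw [Int.floor_lt]
      exact_mod_cast h2
    omega
  let f : Fin (m ^ Fintype.card ι + 1) → (ι → Fin m) := fun k i => ⟨_, hfl k i⟩
  obtain ⟨k, k', hkk, hf⟩ := Fintype.exists_ne_map_eq_of_card_lt f (by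
    rw [Fintype.card_fin, Fintype.card_fun, Fintype.card_fin]
    exact Nat.lt_succ_self _)
  refine ⟨((k : ℕ) : ℤ) - ((k' : ℕ) : ℤ),
    fun i => ⌊((k : ℕ) : ℚ) * q i⌋ - ⌊((k' : ℕ) : ℚ) * q i⌋, ?_, ?_, fun i => ?_⟩
  · intro h
    apply hkk
    apply Fin.ext
    omega
  · have h1 := k.2
    have h2 := k'.2
    omega
  · have h1 : (⌊(m : ℚ) * Int.fract (((k : ℕ) : ℚ) * q i)⌋).toNat
        = (⌊(m : ℚ) * Int.fract (((k' : ℕ) : ℚ) * q i)⌋).toNat :=
      congrArg Fin.val (congrFun hf i)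
    have h2 : 0 ≤ ⌊(m : ℚ) * Int.fract (((k : ℕ) : ℚ) * q i)⌋ :=
      Int.floor_nonneg.2 (mul_nonneg hmQ.le (Int.fract_nonneg _))
    have h3 : 0 ≤ ⌊(m : ℚ) * Int.fract (((k' : ℕ) : ℚ) * q i)⌋ :=
      Int.floor_nonneg.2 (mul_nonneg hmQ.le (Int.fract_nonneg _))
    have h4 : ⌊(m : ℚ) * Int.fract (((k : ℕ) : ℚ) * q i)⌋
        = ⌊(m : ℚ) * Int.fract (((k' : ℕ) : ℚ) * q i)⌋ := by omega
    have h5 := Int.abs_sub_lt_one_of_floor_eq_floor h4
    have h6 : (((((k : ℕ) : ℤ) - ((k' : ℕ) : ℤ) : ℤ) : ℚ) * q i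
        - ((⌊((k : ℕ) : ℚ) * q i⌋ - ⌊((k' : ℕ) : ℚ) * q i⌋ : ℤ) : ℚ)) * m
        = (m : ℚ) * Int.fract (((k : ℕ) : ℚ) * q i) - m * Int.fract (((k' : ℕ) : ℚ) * q i) := by
      have e1 := Int.self_sub_floor (((k : ℕ) : ℚ) * q i)
      have e2 := Int.self_sub_floor (((k' : ℕ) : ℚ) * q i)
      rw [← e1, ← e2]
      push_cast
      ring
    rw [← h6, abs_mul, abs_of_pos hmQ] at h5
    exact h5

theorem thm_Idx : St_Idx := by
  classical
  intro A F _ _ _ _ _ _ _ c r
  have hinj : Injective (algebraMap A F) := IsFractionRing.injective A F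
  have : CharZero A := by
    constructor
    intro a b hab
    have h1 : algebraMap A F (a : A) = algebraMap A F (b : A) := by rw [hab]
    rw [map_natCast, map_natCast] at h1
    exact_mod_cast h1
  have : Module.Free ℤ A := inferInstance
  let ω := Module.finBasis ℤ A
  set n := Module.finrank ℤ A with hn
  obtain ⟨N, hN⟩ := exists_nat_ge (∑ j, |c (ω j)|)
  have hcN : ∀ j, c (ω j) ≤ N := fun j =>
    (le_abs_self _).trans ((Finset.single_le_sum (f := fun j => |c (ω j)|)
      (fun j _ => abs_nonneg _) (Finset.mem_univ j)).trans hN)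
  let m0 : ℕ := n * r * N + 1
  have hm0 : 0 < m0 := Nat.succ_pos _
  let K : ℕ := m0 ^ Fintype.card (Fin n × Fin r)
  refine ⟨K.factorial, Nat.factorial_pos _, ?_⟩
  intro V _ _ _ _ M h v hM hh hv m hm l
  have hsm : ∀ (a : A) (w : V), algebraMap A F a • w = a • w := fun a w => algebraMap_smul F a w
  have h0 : h 0 = 0 := by
    have h1 := hh.rat 0 0
    simpa using h1
  have hneg : ∀ w, h (-w) = h w := by
    intro w
    have h1 := hh.rat (-1) w
    simpa using h1
  have hnn : ∀ w, 0 ≤ h w := by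
    intro w
    have h1 := hh.add w (-w)
    rw [hneg, add_neg_cancel, h0] at h1
    linarith
  have hvM : ∀ l, v l ∈ M := fun l => (hv l).1.1
  have hvpos : 0 < h (v l) := by
    refine lt_of_le_of_ne (hnn _) fun h1 => ?_
    refine Set.infinite_of_injective_forall_mem (f := fun k : ℕ => (k : A) • v l)
      (s := {m : V | m ∈ M ∧ h m ≤ 0}) ?_ ?_ (hh.fin 0)
    · intro k k' hk
      have hk : (k : A) • v l = (k' : A) • v l := hk
      rw [← hsm, ← hsm, map_natCast, map_natCast] at hk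
      have h2 := smul_left_injective F (hv l).1.2.2 hk
      exact_mod_cast h2
    · intro k
      refine ⟨M.smul_mem _ (hvM l), ?_⟩
      have h2 := hh.rat k (v l)
      rw [← h1, mul_zero] at h2
      rw [← hsm, map_natCast]
      have h3 : ((k : ℚ) : F) = (k : F) := by push_cast; rfl
      rw [h3] at h2
      exact h2.le
  set μ := h (v l) with hμ
  have hvμ : ∀ i, h (v i) = μ := fun i =>
    le_antisymm ((hv i).2 _ (hv l).1) ((hv l).2 _ (hv i).1)
  choose q hq using fun i : Fin r => idx_rep ω (v.repr m i)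
  obtain ⟨D, z, hD, hDK, hz⟩ := idx_dir m0 hm0 (fun p : Fin n × Fin r => q p.2 p.1)
  -- the vector y
  let y : V := ∑ p : Fin n × Fin r, (z p : A) • (ω p.1 • v p.2)
  have hyM : y ∈ M := M.sum_mem fun p _ => M.smul_mem _ (M.smul_mem _ (hvM _))
  have hmv : m = ∑ p : Fin n × Fin r, ((q p.2 p.1 : ℚ) : F) • (ω p.1 • v p.2) := by
    rw [Fintype.sum_prod_type_right]
    conv_lhs => rw [← v.sum_repr m]
    refine Finset.sum_congr rfl fun i _ => ?_
    conv_lhs => rw [hq i]
    rw [Finset.sum_smul]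
    refine Finset.sum_congr rfl fun j _ => ?_
    rw [mul_smul, hsm]
  have hdiff : (D : A) • m - y = ∑ p : Fin n × Fin r,
      (((D : ℚ) * q p.2 p.1 - z p : ℚ) : F) • (ω p.1 • v p.2) := by
    rw [← hsm, map_intCast]
    conv_lhs => rw [hmv]
    rw [Finset.smul_sum, ← Finset.sum_sub_distrib]
    refine Finset.sum_congr rfl fun p _ => ?_
    rw [← hsm (z p : A), map_intCast, smul_smul, ← sub_smul]
    push_cast
    rfl
  have hxM : (D : A) • m - y ∈ M := M.sub_mem (M.smul_mem _ hm) hyM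
  have hbd : h ((D : A) • m - y) < μ := by
    rw [hdiff]
    have hm0R : (0 : ℝ) < m0 := by exact_mod_cast hm0
    have h1 : h (∑ p : Fin n × Fin r,
        (((D : ℚ) * q p.2 p.1 - z p : ℚ) : F) • (ω p.1 • v p.2))
        ≤ ∑ p : Fin n × Fin r, (N : ℝ) * μ / m0 := by
      refine (Finset.le_sum_of_subadditive h h0.le hh.add _ _).trans ?_
      refine Finset.sum_le_sum fun p _ => ?_
      rw [hh.rat]
      have e1 : h (ω p.1 • v p.2) ≤ N * μ := by
        refine (hh.mul _ _).trans ?_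
        rw [hvμ]
        exact mul_le_mul_of_nonneg_right (hcN _) hvpos.le
      have e2 : |(((D : ℚ) * q p.2 p.1 - z p : ℚ) : ℝ)| ≤ 1 / m0 := by
        rw [le_div_iff₀ hm0R]
        have e3 := (hz p).le
        exact_mod_cast e3
      calc |(((D : ℚ) * q p.2 p.1 - z p : ℚ) : ℝ)| * h (ω p.1 • v p.2)
          ≤ 1 / m0 * (N * μ) := mul_le_mul e2 e1 (hnn _) (by positivity)
        _ = N * μ / m0 := by ring
    refine h1.trans_lt ?_
    rw [Finset.sum_const, Finset.card_univ, Fintype.card_prod, Fintype.card_fin, Fintype.card_fin,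
      nsmul_eq_mul, mul_div_assoc', div_lt_iff₀ hm0R]
    have e4 : (m0 : ℝ) = n * r * N + 1 := by
      change ((n * r * N + 1 : ℕ) : ℝ) = _
      push_cast
      ring
    rw [e4]
    push_cast
    nlinarith
  have hy0 : (D : A) • m - y = 0 := by
    by_contra h1
    have h2 := (hv l).2 _ ⟨hxM, Submodule.mem_top, h1⟩
    linarith
  have hDm : (D : A) • m = y := sub_eq_zero.1 hy0
  -- coordinates
  have hco : (D : F) * v.repr m l = algebraMap A F (∑ j, (z (j, l) : A) * ω j) := by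
    have h1 : v.repr ((D : A) • m) l = (D : F) * v.repr m l := by
      rw [← hsm, map_intCast, map_smul]
      rfl
    rw [← h1, hDm]
    change v.repr (∑ p : Fin n × Fin r, (z p : A) • (ω p.1 • v p.2)) l = _
    rw [Fintype.sum_prod_type_right]
    have h2 : ∀ i : Fin r, ∑ j, (z (j, i) : A) • (ω j • v i)
        = algebraMap A F (∑ j, (z (j, i) : A) * ω j) • v i := by
      intro i
      rw [hsm, Finset.sum_smul]
      refine Finset.sum_congr rfl fun j _ => ?_
      rw [mul_smul]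
    rw [Finset.sum_congr rfl fun i _ => h2 i]
    rw [v.repr_sum_self (fun i => algebraMap A F (∑ j, (z (j, i) : A) * ω j))]
  have hdvd : (D : ℤ) ∣ ((K.factorial : ℕ) : ℤ) := by
    rw [← Int.natAbs_dvd, Int.natCast_dvd_natCast]
    exact Nat.dvd_factorial (Int.natAbs_pos.2 hD) hDK
  obtain ⟨e, he⟩ := hdvd
  refine ⟨(e : A) * ∑ j, (z (j, l) : A) * ω j, ?_⟩
  rw [map_mul, ← hco, map_intCast]
  have h3 : ((K.factorial : ℕ) : F) = (D : F) * (e : F) := by
    have h4 := congrArg (fun t : ℤ => (t : F)) he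
    push_cast at h4
    exact h4
  rw [h3]
  ring

end Pool.Agent.NR
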