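import Pool.Agent.NR.St

/-!
# NR: lattices with a basis of shortest vectors: finitely many isomorphism classes (`St_Lam`)
-/

set_option autoImplicit false
set_option linter.unusedVariables false

noncomputable section

namespace Pool.Agent.NR

open CategoryTheory Function Pool.Agent.KQ Pool.Agent.FGK Pool.Agent.GQ

/-- the quotient by a positive integer is finite -/
theorem lam_fin (A : Type) [CommRing A] [Module.Finite ℤ A] (B : ℕ) (hB : 0 < B) :
    Finite (A ⧸ (Ideal.span {(B : A)})) := by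
  have h1 : Module.Finite ℤ (A ⧸ (Ideal.span {(B : A)})) :=
    Module.Finite.of_surjective
      (Ideal.Quotient.mk (Ideal.span {(B : A)})).toAddMonoidHom.toIntLinearMap
      Ideal.Quotient.mk_surjective
  refine Module.finite_of_fg_torsion _ ?_
  intro x
  refine ⟨⟨(B : ℤ), mem_nonZeroDivisors_of_ne_zero (by exact_mod_cast hB.ne')⟩, ?_⟩
  obtain ⟨a, rfl⟩ := Ideal.Quotient.mk_surjective x
  change (B : ℤ) • (Ideal.Quotient.mk (Ideal.span {(B : A)}) a) = 0
  rw [zsmul_eq_mul, Int.cast_natCast, ← map_natCast (Ideal.Quotient.mk (Ideal.span {(B : A)})),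
    ← map_mul, Ideal.Quotient.eq_zero_iff_mem]
  exact Ideal.mul_mem_right _ _ (Ideal.subset_span rfl)

/-- the submodules between `A ^ r` and `B⁻¹ A ^ r` -/
def lam_set (A F : Type) [CommRing A] [Field F] [Algebra A F] (r B : ℕ) :
    Set (Submodule A (Fin r → F)) :=
  {L | (∀ a : Fin r → A, (fun l => algebraMap A F (a l)) ∈ L) ∧
    ∀ x ∈ L, ∀ l, ∃ a : A, algebraMap A F a = B * x l}

theorem lam_set_fin (A F : Type) [CommRing A] [Module.Finite ℤ A] [Field F] [CharZero F]
    [Algebra A F] (r B : ℕ) (hB : 0 < B) : (lam_set A F r B).Finite := by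
  have hfin := lam_fin A B hB
  let φ : Submodule A (Fin r → F) → Set (Fin r → A ⧸ (Ideal.span {(B : A)})) := fun L =>
    {q | ∃ a : Fin r → A, (fun l => Ideal.Quotient.mk _ (a l)) = q ∧
      (fun l => (B : F)⁻¹ * algebraMap A F (a l)) ∈ L}
  have hBF : (B : F) ≠ 0 := by exact_mod_cast hB.ne'
  refine Set.Finite.of_finite_image (f := φ) (Set.toFinite _) ?_
  have key : ∀ L ∈ lam_set A F r B, ∀ L' ∈ lam_set A F r B, φ L = φ L' → L ≤ L' := by
    intro L hL L' hL' h x hx
    choose a ha using hL.2 x hx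
    have h1 : (fun l => Ideal.Quotient.mk (Ideal.span {(B : A)}) (a l)) ∈ φ L := by
      refine ⟨a, rfl, ?_⟩
      have h2 : (fun l => (B : F)⁻¹ * algebraMap A F (a l)) = x := by
        funext l
        rw [ha, inv_mul_cancel_left₀ hBF]
      rw [h2]
      exact hx
    rw [h] at h1
    obtain ⟨a', ha', hm⟩ := h1
    have h3 : ∀ l, ∃ b : A, a l - a' l = (B : A) * b := fun l => by
      have h4 : Ideal.Quotient.mk (Ideal.span {(B : A)}) (a l) = Ideal.Quotient.mk _ (a' l) :=
        (congrFun ha' l).symm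
      rw [Ideal.Quotient.eq, Ideal.mem_span_singleton'] at h4
      obtain ⟨b, hb⟩ := h4
      exact ⟨b, by rw [← hb, mul_comm]⟩
    choose b hb using h3
    have h5 : x = (fun l => (B : F)⁻¹ * algebraMap A F (a' l)) +
        (fun l => algebraMap A F (b l)) := by
      funext l
      have h6 : algebraMap A F (a l) = algebraMap A F (a' l) + B * algebraMap A F (b l) := by
        rw [← map_natCast (algebraMap A F), ← map_mul, ← hb, ← map_add]
        ring_nf
      have h7 : x l = (B : F)⁻¹ * algebraMap A F (a l) := by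
        rw [ha, inv_mul_cancel_left₀ hBF]
      rw [h7, h6, Pi.add_apply, mul_add, inv_mul_cancel_left₀ hBF]
    rw [h5]
    exact L'.add_mem hm (hL'.1 b)
  intro L hL L' hL' h
  exact le_antisymm (key L hL L' hL' h) (key L' hL' L hL h.symm)

theorem thm_Lam (hIdx : St_Idx) : St_Lam := by
  intro A F _ _ _ _ _ _ _ c r
  obtain ⟨B, hB, h1⟩ := hIdx A F c r
  refine ⟨lam_set A F r B, lam_set_fin A F r B hB, ?_⟩
  intro V _ _ _ _ M h v hM hh hv
  refine ⟨M.comap (v.equivFun.symm.restrictScalars A).toLinearMap, ⟨?_, ?_⟩, fun x => Iff.rfl⟩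
  · intro a
    change v.equivFun.symm _ ∈ M
    rw [Module.Basis.equivFun_symm_apply]
    refine Submodule.sum_mem _ fun l _ => ?_
    rw [algebraMap_smul]
    exact M.smul_mem _ (hv l).1.1
  · intro x hx l
    have h2 : v.equivFun.symm x ∈ M := hx
    obtain ⟨a, ha⟩ := h1 V M h v hM hh hv _ h2 l
    refine ⟨a, ?_⟩
    rw [ha, ← Module.Basis.equivFun_apply, LinearEquiv.apply_symm_apply]

end Pool.Agent.NR
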