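import Pool.Agent.NR.St

/-!
# NR, NRK: the K-groups of orders in number fields are finitely generated
-/

set_option autoImplicit false
set_option linter.unusedVariables false

noncomputable section

namespace Pool.Agent.NR

open CategoryTheory Function Pool.Agent.KQ Pool.Agent.FGK Pool.Agent.GQ

/-- the field of fractions has characteristic zero -/
theorem nrk_charZero (A : Type) [CommRing A] [IsDomain A] [CharZero A] :
    CharZero (FractionRing A) :=
  charZero_of_injective_algebraMap (IsFractionRing.injective A (FractionRing A))

/-- a domain finite over the integers is noetherian -/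
theorem nrk_noeth (A : Type) [CommRing A] [Module.Finite ℤ A] : IsNoetherianRing A :=
  IsNoetherianRing.of_finite ℤ A

/-- **NRK** -/
theorem thm_NRK (hF : St_FLM) (hS : St_SlM) (hT : GQ.St_T3) : St_NRK := by
  intro A _ _ _ _ n
  have h1 := nrk_charZero A
  have h2 := nrk_noeth A
  exact hT A (FractionRing A) (hF A (FractionRing A)) (hS A (FractionRing A)) n

end Pool.Agent.NR
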