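import Pool.Agent.NR.St

/-!
# NR: properties of norms on lattices ([Nm])
-/

set_option autoImplicit false
set_option linter.unusedVariables false
set_option linter.unusedSectionVars false

noncomputable section

namespace Pool.Agent.NR

open Function Pool.Agent.GQ

section

variable {A F V : Type} [CommRing A] [IsDomain A] [Field F] [CharZero F] [Algebra A F]
  [IsFractionRing A F] [AddCommGroup V] [Module F V] [FiniteDimensional F V] [Module A V]
  [IsScalarTower A F V]

private theorem nm_ne {a : A} (ha : a ≠ 0) : algebraMap A F a ≠ 0 := fun h =>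
  ha ((IsFractionRing.injective A F) (h.trans (map_zero _).symm))

include F in
private theorem nm_inj {a : A} (ha : a ≠ 0) {v : V} (h : a • v = 0) : v = 0 := by
  rw [← algebraMap_smul F a v] at h
  exact (smul_eq_zero.1 h).resolve_left (nm_ne ha)

private theorem nm_den (M : Submodule A V) (hM : Submodule.span F (M : Set V) = ⊤) (v : V) :
    ∃ a : A, a ≠ 0 ∧ a • v ∈ M := by
  have hv : v ∈ Submodule.span F (M : Set V) := hM ▸ Submodule.mem_top
  induction hv using Submodule.span_induction with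
  | mem x hx => exact ⟨1, one_ne_zero, by rw [one_smul]; exact hx⟩
  | zero => exact ⟨1, one_ne_zero, by rw [smul_zero]; exact M.zero_mem⟩
  | add x y _ _ hx hy =>
    obtain ⟨a, ha, hax⟩ := hx
    obtain ⟨b, hb, hby⟩ := hy
    refine ⟨a * b, mul_ne_zero ha hb, ?_⟩
    rw [smul_add]
    refine M.add_mem ?_ ?_
    · rw [mul_comm, mul_smul]
      exact M.smul_mem b hax
    · rw [mul_smul]
      exact M.smul_mem a hby
  | smul x v _ hv =>
    obtain ⟨c, hc, hcv⟩ := hv
    obtain ⟨a, b, hb, rfl⟩ := IsFractionRing.div_surjective (A := A) x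
    have hb' : b ≠ 0 := nonZeroDivisors.ne_zero hb
    refine ⟨c * b, mul_ne_zero hc hb', ?_⟩
    have h1 : (c * b) • ((algebraMap A F a / algebraMap A F b) • v) = a • (c • v) := by
      rw [← algebraMap_smul F (c * b), ← algebraMap_smul F a, ← algebraMap_smul F c v, smul_smul,
        smul_smul, map_mul]
      congr 1
      have h2 := nm_ne (F := F) hb'
      field_simp
    rw [h1]
    exact M.smul_mem a hcv

variable (c : A → ℝ) (M : Submodule A V)

private theorem nm_zero {h : V → ℝ} (hh : IsNm F c M h) : h 0 = 0 := by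
  have h1 := hh.rat 0 0
  simpa using h1

private theorem nm_neg {h : V → ℝ} (hh : IsNm F c M h) (v : V) : h (-v) = h v := by
  have h1 := hh.rat (-1) v
  simpa using h1

private theorem nm_nonneg {h : V → ℝ} (hh : IsNm F c M h) (v : V) : 0 ≤ h v := by
  have h1 := hh.add v (-v)
  rw [add_neg_cancel, nm_zero c M hh, nm_neg c M hh] at h1
  linarith

private theorem nm_eq_zero (hM : Submodule.span F (M : Set V) = ⊤) {h : V → ℝ}
    (hh : IsNm F c M h) (v : V) (hv : h v = 0) : v = 0 := by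
  obtain ⟨a, ha, hav⟩ := nm_den M hM v
  have h1 : h (a • v) = 0 := by
    have h2 := hh.mul a v
    rw [hv, mul_zero] at h2
    exact le_antisymm h2 (nm_nonneg c M hh _)
  by_contra hv0
  have hav0 : a • v ≠ 0 := fun h2 => hv0 (nm_inj (F := F) ha h2)
  have hinj : Injective fun n : ℕ => ((n : ℚ) : F) • (a • v) := by
    intro m n hmn
    have h3 : (((m : ℚ) : F) - ((n : ℚ) : F)) • (a • v) = 0 := by
      rw [sub_smul]
      exact sub_eq_zero.2 hmn
    have h4 := (smul_eq_zero.1 h3).resolve_right hav0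
    have h5 : ((m : ℚ) : F) = ((n : ℚ) : F) := sub_eq_zero.1 h4
    exact_mod_cast h5
  refine (Set.infinite_range_of_injective hinj) ((hh.fin 0).subset ?_)
  rintro _ ⟨n, rfl⟩
  refine ⟨?_, ?_⟩
  · have h3 : ((n : ℚ) : F) • (a • v) = n • (a • v) := by
      rw [Rat.cast_natCast, Nat.cast_smul_eq_nsmul]
    change ((n : ℚ) : F) • (a • v) ∈ M
    rw [h3]
    exact M.nsmul_mem hav n
  · change h (((n : ℚ) : F) • (a • v)) ≤ 0
    rw [hh.rat, h1, mul_zero]

private theorem nm_convex : Convex ℝ (Nms F c M) := by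
  intro h₁ hh₁ h₂ hh₂ s t hs ht hst
  have hh₁ : IsNm F c M h₁ := hh₁
  have hh₂ : IsNm F c M h₂ := hh₂
  change IsNm F c M (s • h₁ + t • h₂)
  have ev : ∀ v, (s • h₁ + t • h₂) v = s * h₁ v + t * h₂ v := fun v => rfl
  refine ⟨fun v w => ?_, fun q v => ?_, fun a v => ?_, fun R => ?_⟩
  · rw [ev, ev, ev]
    have h1 := mul_le_mul_of_nonneg_left (hh₁.add v w) hs
    have h2 := mul_le_mul_of_nonneg_left (hh₂.add v w) ht
    linarith
  · rw [ev, ev, hh₁.rat, hh₂.rat]
    ring
  · rw [ev, ev]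
    have h1 := mul_le_mul_of_nonneg_left (hh₁.mul a v) hs
    have h2 := mul_le_mul_of_nonneg_left (hh₂.mul a v) ht
    linarith
  · refine ((hh₁.fin R).union (hh₂.fin R)).subset ?_
    rintro m ⟨hm, hR⟩
    rw [ev] at hR
    by_contra hne
    have h1 : R < h₁ m := by
      by_contra h2
      exact hne (Or.inl ⟨hm, not_lt.1 h2⟩)
    have h3 : R < h₂ m := by
      by_contra h2
      exact hne (Or.inr ⟨hm, not_lt.1 h2⟩)
    have h4 := mul_le_mul_of_nonneg_left h1.le hs
    have h5 := mul_le_mul_of_nonneg_left h3.le ht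
    rcases hs.eq_or_lt with h6 | h6
    · have h7 : t = 1 := by linarith
      rw [← h6, h7] at hR
      linarith
    · have h8 := mul_lt_mul_of_pos_left h1 h6
      have h9 : s * R + t * R = R := by rw [← add_mul, hst, one_mul]
      linarith

private theorem nm_min (hM : Submodule.span F (M : Set V) = ⊤) {h : V → ℝ}
    (hh : IsNm F c M h) (W : Submodule F V) (hW : W ≠ ⊥) : (MinOn (SW M W) h).Nonempty := by
  obtain ⟨w, hw, hw0⟩ := (Submodule.ne_bot_iff W).1 hW
  obtain ⟨a, ha, haw⟩ := nm_den M hM w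
  have h1 : a • w ∈ SW M W := ⟨haw, by
    rw [← algebraMap_smul F a w]
    exact W.smul_mem _ hw, fun h2 => hw0 (nm_inj (F := F) ha h2)⟩
  have h2 : {m | m ∈ SW M W ∧ h m ≤ h (a • w)}.Finite :=
    (hh.fin (h (a • w))).subset fun m hm => ⟨hm.1.1, hm.2⟩
  obtain ⟨m, hm, hmin⟩ := Set.exists_min_image _ h h2 ⟨a • w, h1, le_refl _⟩
  refine ⟨m, hm.1, fun v hv => ?_⟩
  rcases le_total (h v) (h (a • w)) with h3 | h3
  · exact hmin v ⟨hv, h3⟩
  · exact hm.2.trans h3

private theorem nm_prod (hM : Submodule.span F (M : Set V) = ⊤) (g : V →ₗ[A] V) (hfg : M.FG) :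
    ∃ d : A, d ≠ 0 ∧ ∀ m ∈ M, d • g m ∈ M := by
  obtain ⟨S, hS⟩ := hfg
  have key : ∀ S : Finset V, ∃ d : A, d ≠ 0 ∧ ∀ m ∈ Submodule.span A (S : Set V),
      d • g m ∈ M := by
    intro S
    classical
    induction S using Finset.induction_on with
    | empty =>
      refine ⟨1, one_ne_zero, fun m hm => ?_⟩
      rw [Finset.coe_empty, Submodule.span_empty, Submodule.mem_bot] at hm
      rw [hm, map_zero, smul_zero]
      exact M.zero_mem
    | insert s S hs ih =>
      obtain ⟨d, hd, hd'⟩ := ih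
      obtain ⟨a, ha, has⟩ := nm_den M hM (g s)
      refine ⟨a * d, mul_ne_zero ha hd, fun m hm => ?_⟩
      rw [Finset.coe_insert, Submodule.mem_span_insert] at hm
      obtain ⟨x, z, hz, rfl⟩ := hm
      rw [map_add, map_smul, smul_add]
      refine M.add_mem ?_ ?_
      · have e : (a * d) • (x • g s) = (d * x) • (a • g s) := by
          rw [smul_smul, smul_smul]
          congr 1
          ring
        rw [e]
        exact M.smul_mem _ has
      · rw [mul_smul]
        exact M.smul_mem a (hd' z hz)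
  obtain ⟨d, hd, hd'⟩ := key S
  exact ⟨d, hd, fun m hm => hd' m (hS ▸ hm)⟩

private theorem nm_eps (hM : IsLatA F M) {h : V → ℝ} (hh : IsNm F c M h) (g : V →ₗ[F] V) :
    ∃ ε : ℝ, 0 < ε ∧ ∀ m ∈ M, g m ≠ 0 → ε ≤ h (g m) := by
  obtain ⟨d, hd, hd'⟩ := nm_prod M hM.2 (g.restrictScalars A) hM.1
  have h1 : {x | (∃ m ∈ M, x = g m) ∧ h x ≤ 1}.Finite := by
    refine Set.Finite.of_finite_image (f := fun x => d • x)
      ((hh.fin |c d|).subset ?_) fun x _ y _ hxy => ?_
    · rintro _ ⟨x, ⟨⟨m, hm, rfl⟩, hx⟩, rfl⟩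
      refine ⟨hd' m hm, ?_⟩
      refine (hh.mul d (g m)).trans ?_
      refine (mul_le_mul_of_nonneg_right (le_abs_self (c d)) (nm_nonneg c M hh _)).trans ?_
      exact (mul_le_mul_of_nonneg_left hx (abs_nonneg _)).trans (mul_one _).le
    · have h2 : d • (x - y) = 0 := by
        rw [smul_sub]
        exact sub_eq_zero.2 hxy
      exact sub_eq_zero.1 (nm_inj (F := F) hd h2)
  have h2 : ({x | ((∃ m ∈ M, x = g m) ∧ h x ≤ 1) ∧ x ≠ 0}).Finite :=
    h1.subset fun x hx => hx.1
  rcases Set.eq_empty_or_nonempty {x | ((∃ m ∈ M, x = g m) ∧ h x ≤ 1) ∧ x ≠ 0} with h3 | h3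
  · refine ⟨1, one_pos, fun m hm hgm => ?_⟩
    by_contra h4
    have h5 : g m ∈ {x | ((∃ m ∈ M, x = g m) ∧ h x ≤ 1) ∧ x ≠ 0} :=
      ⟨⟨⟨m, hm, rfl⟩, (not_le.1 h4).le⟩, hgm⟩
    rw [h3] at h5
    exact h5
  · obtain ⟨x, hx, hmin⟩ := Set.exists_min_image _ h h2 h3
    have hpos : 0 < h x := lt_of_le_of_ne (nm_nonneg c M hh x) fun h4 =>
      hx.2 (nm_eq_zero c M hM.2 hh x h4.symm)
    refine ⟨min 1 (h x), lt_min one_pos hpos, fun m hm hgm => ?_⟩
    rcases le_total (h (g m)) 1 with h4 | h4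
    · exact (min_le_right _ _).trans (hmin _ ⟨⟨⟨m, hm, rfl⟩, h4⟩, hgm⟩)
    · exact (min_le_left _ _).trans h4

private theorem nm_ext (hM : IsLatA F M) {h : V → ℝ} (hh : IsNm F c M h) (W : Submodule F V)
    (R : ℝ) : ∃ h' ∈ Nms F c M, (∀ w ∈ W, h' w = h w) ∧ ∀ m ∈ M, m ∉ W → R ≤ h' m := by
  obtain ⟨p, hp⟩ := W.subtype.exists_leftInverse_of_injective W.ker_subtype
  obtain ⟨ε, hε, hε'⟩ := nm_eps c M hM hh (LinearMap.id - W.subtype ∘ₗ p)
  have hid : ∀ w ∈ W, W.subtype (p w) = w := fun w hw => by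
    have h1 := LinearMap.congr_fun hp ⟨w, hw⟩
    exact congrArg Subtype.val h1
  obtain ⟨t, ht, htR⟩ : ∃ t : ℝ, 0 < t ∧ R ≤ t * ε := by
    refine ⟨|R| / ε + 1, by positivity, ?_⟩
    have h1 : (|R| / ε + 1) * ε = |R| + ε := by
      field_simp
    rw [h1]
    linarith [le_abs_self R]
  have ev : ∀ v, (LinearMap.id - W.subtype ∘ₗ p : V →ₗ[F] V) v = v - W.subtype (p v) :=
    fun v => rfl
  have ha : ∀ (a : A) (v : V), W.subtype (p (a • v)) = a • W.subtype (p v) := fun a v => by
    rw [← algebraMap_smul F a v, map_smul, map_smul, algebraMap_smul]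
  refine ⟨fun v => h (W.subtype (p v)) + t * h (v - W.subtype (p v)),
    ⟨fun v w => ?_, fun q v => ?_, fun a v => ?_, fun R' => ?_⟩, fun w hw => ?_,
    fun m hm hmW => ?_⟩
  · have h1 := hh.add (W.subtype (p v)) (W.subtype (p w))
    have h2 := mul_le_mul_of_nonneg_left
      (hh.add (v - W.subtype (p v)) (w - W.subtype (p w))) ht.le
    have e1 : W.subtype (p (v + w)) = W.subtype (p v) + W.subtype (p w) := by
      rw [map_add, map_add]
    have e2 : v + w - (W.subtype (p v) + W.subtype (p w)) =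
        (v - W.subtype (p v)) + (w - W.subtype (p w)) := by abel
    change h (W.subtype (p (v + w))) + t * h (v + w - W.subtype (p (v + w))) ≤
      (h (W.subtype (p v)) + t * h (v - W.subtype (p v))) +
      (h (W.subtype (p w)) + t * h (w - W.subtype (p w)))
    rw [e1, e2]
    linarith
  · change h (W.subtype (p ((q : F) • v))) + t * h ((q : F) • v - W.subtype (p ((q : F) • v))) =
      |(q : ℝ)| * (h (W.subtype (p v)) + t * h (v - W.subtype (p v)))
    rw [map_smul, map_smul, ← smul_sub, hh.rat, hh.rat]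
    ring
  · change h (W.subtype (p (a • v))) + t * h (a • v - W.subtype (p (a • v))) ≤
      c a * (h (W.subtype (p v)) + t * h (v - W.subtype (p v)))
    rw [ha, ← smul_sub]
    have h1 := hh.mul a (W.subtype (p v))
    have h2 := mul_le_mul_of_nonneg_left (hh.mul a (v - W.subtype (p v))) ht.le
    linarith
  · refine (hh.fin ((1 + t⁻¹) * |R'|)).subset ?_
    rintro m ⟨hm, hR⟩
    refine ⟨hm, ?_⟩
    change h (W.subtype (p m)) + t * h (m - W.subtype (p m)) ≤ R' at hR
    have h1 := hh.add (W.subtype (p m)) (m - W.subtype (p m))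
    rw [add_sub_cancel] at h1
    have h2 := nm_nonneg c M hh (W.subtype (p m))
    have h3 := nm_nonneg c M hh (m - W.subtype (p m))
    have h4 := mul_nonneg ht.le h3
    have h5 : h (W.subtype (p m)) ≤ |R'| := by linarith [le_abs_self R']
    have h6 : t * h (m - W.subtype (p m)) ≤ |R'| := by linarith [le_abs_self R']
    have h7 : h (m - W.subtype (p m)) ≤ t⁻¹ * |R'| := by
      rw [← div_eq_inv_mul, le_div_iff₀ ht, mul_comm]
      exact h6
    rw [add_mul, one_mul]
    linarith
  · change h (W.subtype (p w)) + t * h (w - W.subtype (p w)) = h w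
    rw [hid w hw, sub_self, nm_zero c M hh, mul_zero, add_zero]
  · change R ≤ h (W.subtype (p m)) + t * h (m - W.subtype (p m))
    have h1 : (LinearMap.id - W.subtype ∘ₗ p : V →ₗ[F] V) m ≠ 0 := by
      rw [ev]
      intro h2
      refine hmW ?_
      rw [sub_eq_zero.1 h2]
      exact (p m).2
    have h2 := mul_le_mul_of_nonneg_left (hε' m hm h1) ht.le
    rw [ev] at h2
    linarith [nm_nonneg c M hh (W.subtype (p m))]

end

theorem thm_Nm : St_Nm := by
  intro A F V _ _ _ _ _ _ _ _ _ _ _ c M hM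
  exact ⟨nm_convex c M, fun h hh v => ⟨nm_nonneg c M hh v, nm_eq_zero c M hM.2 hh v⟩,
    fun h hh W hW => nm_min c M hM.2 hh W hW, fun h hh W R => nm_ext c M hM hh W R⟩

end Pool.Agent.NR
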