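import Pool.Agent.NR.St

/-!
# NR: NmC, contractibility of the sets of shortest vectors (helper50)
-/

set_option autoImplicit false
set_option linter.unusedVariables false

noncomputable section

namespace Pool.Agent.NR

open CategoryTheory Function Pool.Agent.KQ Pool.Agent.FGK Pool.Agent.GQ

theorem nmc_lin {T : Type} (v : T) : IsLinearMap ℝ fun h : T → ℝ => h v :=
  ⟨fun _ _ => rfl, fun _ _ => rfl⟩

/-- **NmC.** Contractibility. -/
theorem thm_NmC (hC : St_CCN) (hN : St_Nm) : St_NmC := by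
  intro A F V _ _ _ _ _ _ _ _ _ _ _ c M hM hne W hW
  obtain ⟨hconv, -, hmin, -⟩ := hN A F V c M hM
  refine hC V (Nms F c M) (SW M W) hconv hne fun H hH => ?_
  obtain ⟨h0, hh0⟩ := hne
  obtain ⟨m1, ⟨hm1, -⟩⟩ := hmin h0 hh0 W hW
  have hsub : convexHull ℝ (H : Set (V → ℝ)) ⊆ Nms F c M := convexHull_min hH hconv
  obtain ⟨R, hR⟩ : ∃ R : ℝ, ∀ h ∈ H, h m1 ≤ R :=
    ⟨∑ h ∈ H, |h m1|, fun h hh => (le_abs_self _).trans
      (Finset.single_le_sum (f := fun h : V → ℝ => |h m1|) (fun g _ => abs_nonneg _) hh)⟩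
  refine ⟨⋃ h ∈ H, {m : V | m ∈ M ∧ h m ≤ R}, ?_, fun h hh => ⟨hmin h (hsub hh) W hW, ?_⟩⟩
  · refine Set.Finite.biUnion H.finite_toSet fun h hh => ?_
    have h1 : IsNm F c M h := hH hh
    exact h1.fin R
  · rintro m ⟨hm, hm'⟩
    have h1 : h m1 ≤ R :=
      convexHull_min (s := (H : Set (V → ℝ))) (t := {g : V → ℝ | g m1 ≤ R}) hR
        (convex_halfSpace_le (nmc_lin m1) R) hh
    have h2 : h m ≤ R := (hm' m1 hm1).trans h1
    by_contra h3
    have h4 : (H : Set (V → ℝ)) ⊆ {g : V → ℝ | R < g m} := by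
      intro g hg
      by_contra h5
      exact h3 (Set.mem_biUnion hg ⟨hm.1, not_lt.1 h5⟩)
    have h5 : R < h m := convexHull_min h4 (convex_halfSpace_gt (nmc_lin m) R) hh
    exact absurd h2 (not_le.2 h5)

end Pool.Agent.NR
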