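import Pool.Agent.NR.Idx

/-!
# NR: existence of norms (helper16)
-/

set_option autoImplicit false
set_option linter.unusedVariables false

noncomputable section

namespace Pool.Agent.NR

open CategoryTheory Function Pool.Agent.KQ Pool.Agent.FGK Pool.Agent.GQ

/-- the field of fractions is a number field -/
theorem nmex_nf (A F : Type) [CommRing A] [IsDomain A] [Module.Finite ℤ A] [Field F]
    [CharZero F] [Algebra A F] [IsFractionRing A F] : NumberField F := by
  classical
  have hinj : Injective (algebraMap A F) := IsFractionRing.injective A F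
  have : CharZero A := by
    constructor
    intro a b hab
    have h1 : algebraMap A F (a : A) = algebraMap A F (b : A) := by rw [hab]
    rw [map_natCast, map_natCast] at h1
    exact_mod_cast h1
  have : Module.Free ℤ A := inferInstance
  let ω := Module.finBasis ℤ A
  have hfin : FiniteDimensional ℚ F := by
    refine ⟨⟨Finset.univ.image fun j => algebraMap A F (ω j), ?_⟩⟩
    rw [eq_top_iff]
    intro x _
    obtain ⟨q, hq⟩ := idx_rep (F := F) ω x
    rw [hq]
    refine Submodule.sum_mem _ fun j _ => ?_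
    rw [← Rat.smul_def]
    refine Submodule.smul_mem _ _ (Submodule.subset_span ?_)
    rw [Finset.coe_image, Finset.coe_univ, Set.image_univ]
    exact ⟨j, rfl⟩
  exact { to_charZero := inferInstance, to_finiteDimensional := hfin }

theorem thm_NmEx : St_NmEx := by
  classical
  intro A F _ _ _ _ _ _ _
  have hNF : NumberField F := nmex_nf A F
  have hinj : Injective (algebraMap A F) := IsFractionRing.injective A F
  refine ⟨fun a => ∑ σ : F →+* ℂ, ‖σ (algebraMap A F a)‖, ?_⟩
  intro V _ _ _ _ M hM
  obtain ⟨⟨S, hS⟩, hspan⟩ := hM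
  -- `V` is finite dimensional
  have hSV : Submodule.span F (S : Set V) = ⊤ := by
    rw [eq_top_iff, ← hspan, Submodule.span_le]
    intro m hm
    have hm : m ∈ Submodule.span A (S : Set V) := hS ▸ hm
    exact Submodule.span_le_restrictScalars A F (S : Set V) hm
  have hV : FiniteDimensional F V := ⟨⟨S, hSV⟩⟩
  let b := Module.finBasis F V
  let ab : F → ℝ := fun x => ∑ σ : F →+* ℂ, ‖σ x‖
  have hab0 : ∀ x, 0 ≤ ab x := fun x => Finset.sum_nonneg fun σ _ => norm_nonneg _
  have hle : ∀ (x : F) (σ : F →+* ℂ), ‖σ x‖ ≤ ab x := fun x σ =>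
    Finset.single_le_sum (f := fun σ : F →+* ℂ => ‖σ x‖) (fun σ _ => norm_nonneg _)
      (Finset.mem_univ σ)
  have hmul : ∀ x y, ab (x * y) ≤ ab x * ab y := by
    intro x y
    change ∑ σ : F →+* ℂ, ‖σ (x * y)‖ ≤ ab x * ∑ σ : F →+* ℂ, ‖σ y‖
    rw [Finset.mul_sum]
    refine Finset.sum_le_sum fun σ _ => ?_
    rw [map_mul, norm_mul]
    exact mul_le_mul_of_nonneg_right (hle x σ) (norm_nonneg _)
  refine ⟨fun v => ∑ l, ab (b.repr v l), ⟨fun v w => ?_, fun q v => ?_, fun a v => ?_,
    fun R => ?_⟩⟩
  · rw [← Finset.sum_add_distrib]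
    refine Finset.sum_le_sum fun l _ => ?_
    change ∑ σ : F →+* ℂ, ‖σ (b.repr (v + w) l)‖ ≤
      ∑ σ : F →+* ℂ, ‖σ (b.repr v l)‖ + ∑ σ : F →+* ℂ, ‖σ (b.repr w l)‖
    rw [← Finset.sum_add_distrib]
    refine Finset.sum_le_sum fun σ _ => ?_
    rw [map_add, Finsupp.add_apply, map_add]
    exact norm_add_le _ _
  · rw [Finset.mul_sum]
    refine Finset.sum_congr rfl fun l _ => ?_
    change ∑ σ : F →+* ℂ, ‖σ (b.repr ((q : F) • v) l)‖ =
      |(q : ℝ)| * ∑ σ : F →+* ℂ, ‖σ (b.repr v l)‖
    rw [Finset.mul_sum]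
    refine Finset.sum_congr rfl fun σ _ => ?_
    rw [map_smul, Finsupp.smul_apply, smul_eq_mul, map_mul, norm_mul, map_ratCast]
    congr 1
    exact Complex.norm_ratCast q
  · change ∑ l, ab (b.repr (a • v) l) ≤ ab (algebraMap A F a) * ∑ l, ab (b.repr v l)
    rw [Finset.mul_sum]
    refine Finset.sum_le_sum fun l _ => ?_
    rw [← algebraMap_smul F a v, map_smul, Finsupp.smul_apply, smul_eq_mul]
    exact hmul _ _
  · -- common denominators
    obtain ⟨d, hd⟩ := IsLocalization.exist_integer_multiples (nonZeroDivisors A)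
      (S ×ˢ (Finset.univ : Finset (Fin (Module.finrank F V))))
      (fun p : V × Fin (Module.finrank F V) => b.repr p.1 p.2)
    have hd0 : (d : A) ≠ 0 := nonZeroDivisors.ne_zero d.2
    have hdF : algebraMap A F (d : A) ≠ 0 := by
      rw [Ne, IsFractionRing.to_map_eq_zero_iff]
      exact hd0
    have hint : ∀ m ∈ M, ∀ l, ∃ z : A, algebraMap A F z = algebraMap A F (d : A) * b.repr m l := by
      intro m hm l
      have hm : m ∈ Submodule.span A (S : Set V) := hS ▸ hm
      refine Submodule.span_induction (p := fun m _ => ∃ z : A, algebraMap A F z =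
        algebraMap A F (d : A) * b.repr m l) ?_ ?_ ?_ ?_ hm
      · intro x hx
        obtain ⟨z, hz⟩ := hd (x, l) (Finset.mem_product.2 ⟨hx, Finset.mem_univ _⟩)
        refine ⟨z, ?_⟩
        rw [hz]
        exact Algebra.smul_def _ _
      · exact ⟨0, by simp⟩
      · rintro x y _ _ ⟨z, hz⟩ ⟨z', hz'⟩
        refine ⟨z + z', ?_⟩
        rw [map_add, hz, hz', map_add, Finsupp.add_apply]
        ring
      · rintro a x _ ⟨z, hz⟩
        refine ⟨a * z, ?_⟩
        rw [map_mul, hz, ← algebraMap_smul F a x, map_smul, Finsupp.smul_apply, smul_eq_mul]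
        ring
    have hY := NumberField.Embeddings.finite_of_norm_le F ℂ (ab (algebraMap A F (d : A)) * R)
    set Y := {x : F | IsIntegral ℤ x ∧ ∀ φ : F →+* ℂ, ‖φ x‖ ≤
      ab (algebraMap A F (d : A)) * R} with hYdef
    have hP : (Set.univ.pi fun _ : Fin (Module.finrank F V) => Y).Finite :=
      Set.Finite.pi fun _ => hY
    refine Set.Finite.of_finite_image (f := fun m : V => fun l : Fin (Module.finrank F V) =>
      algebraMap A F (d : A) * b.repr m l) (hP.subset ?_) ?_
    · rintro _ ⟨m, ⟨hm, hmR⟩, rfl⟩ l _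
      obtain ⟨z, hz⟩ := hint m hm l
      refine ⟨?_, fun φ => ?_⟩
      · change IsIntegral ℤ (algebraMap A F (d : A) * b.repr m l)
        rw [← hz]
        exact (Algebra.IsIntegral.isIntegral (R := ℤ) z).algebraMap
      · change ‖φ (algebraMap A F (d : A) * b.repr m l)‖ ≤ _
        rw [map_mul, norm_mul]
        refine mul_le_mul (hle _ φ) ((hle _ φ).trans ?_) (norm_nonneg _) (hab0 _)
        exact (Finset.single_le_sum (f := fun l => ab (b.repr m l)) (fun l _ => hab0 _)
          (Finset.mem_univ l)).trans hmR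
    · intro m _ m' _ h
      apply b.repr.injective
      ext l
      exact mul_left_cancel₀ hdF (congrFun h l)

end Pool.Agent.NR
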