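import Pool.Agent.NR.St
import Pool.Agent.GQ.StM

/-!
# NR, SlM: the homology of `GL(M)` with coefficients in the Steinberg module is slender
-/

set_option autoImplicit false
set_option linter.unusedVariables false
set_option linter.unusedSectionVars false

noncomputable section

namespace Pool.Agent.NR

open CategoryTheory Function Pool.Agent.KQ Pool.Agent.FGK Pool.Agent.GQ

section

variable {A F V : Type} [CommRing A] [Field F] [Algebra A F] [AddCommGroup V] [Module F V]
  [Module A V] [IsScalarTower A F V]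

/-- the span is equivariant -/
theorem slm_sp (c : A → ℝ) (M : Submodule A V) (g : Gam (F := F) M) (σ : PX F c M) :
    spX F c M (mapX c M g σ) = mapSub g.1 (spX F c M σ) := by
  change Submodule.span F ((σ.1.map g.1.toEquiv.toEmbedding : Finset V) : Set V) =
    (Submodule.span F (σ.1 : Set V)).map g.1.toLinearMap
  rw [Submodule.map_span, Finset.coe_map]
  rfl

theorem slm_eqv (c : A → ℝ) (M : Submodule A V) :
    (pxAct c M).Eqv (nvAct.{1} (F := F) M) (nvMap.{1} (spX F c M)) := by
  intro g
  refine SSt.hom_ext fun n x => congrArg ULift.up ?_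
  apply OrderHom.ext
  funext i
  exact slm_sp c M g (x.down i)

theorem slm_inv (c : A → ℝ) (M : Submodule A V) : (pxAct (F := F) c M).Inv (badX F c M) := by
  intro g n x hx
  rcases hx with h | h
  · left
    intro h1
    exact h (Finset.map_eq_empty.1 h1)
  · right
    intro h1
    have h2 : mapSub g.1 (spX F c M (x.down (Fin.last n))) = ⊤ := (slm_sp c M g _).symm.trans h1
    exact h (stm_map_top _ _ h2)

theorem slm_bad (M : Submodule A V) :
    (nvAct.{1} (F := F) M).Inv (badS.{1} (Submodule F V)) := by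
  intro g n x hx
  rcases hx with h | h
  · left
    intro h1
    exact h (stm_map_bot _ _ h1)
  · right
    intro h1
    exact h (stm_map_top _ _ h1)

end

/-- **SlM** -/
theorem thm_SlM (hNmEx : St_NmEx) (hXFin : St_XFin) (hSpX : St_SpX) (hSl : St_hOSl.{1})
    (hStr : St_hOStr.{1}) : St_SlM := by
  intro A F _ _ _ _ _ _ _ r hr M hM
  have h0 : Nonempty (Fin r) := ⟨⟨0, hr⟩⟩
  have h0' : Nontrivial (Fin r → F) := Function.nontrivial
  obtain ⟨c, hc⟩ := hNmEx A F
  have hne := hc (Fin r → F) M hM
  obtain ⟨hf1, hf2⟩ := hXFin A F (Fin r → F) c M hM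
  have h1 : ∀ j, (ZR (hO (pxAct (F := F) c M)) (hOs (pxAct c M) (badX F c M))).SlAt j :=
    hSl (pxAct c M) (badX F c M) (slm_inv c M) hf1 hf2
  obtain ⟨k1, k2, k3⟩ := hSpX A F (Fin r → F) c M hM hne
  obtain ⟨π, hπ⟩ := hStr.2 (pxAct c M) (nvAct.{1} (F := F) M) (nvMap.{1} (spX F c M))
    (slm_eqv c M) (badX F c M) (badS.{1} (Submodule F (Fin r → F))) (slm_inv c M) (slm_bad M)
    k2 k1 k3
  exact fun j => stm_surj π hπ j (h1 j)

end Pool.Agent.NR
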