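import Pool.Agent.NR.QA

/-!
# NR, module SpX (helper1): the map from the sets of shortest vectors to their spans
-/

set_option autoImplicit false
set_option linter.unusedVariables false

noncomputable section

namespace Pool.Agent.NR

open CategoryTheory Function Pool.Agent.KQ Pool.Agent.FGK Pool.Agent.GQ

universe u

/-! ### nerves -/

/-- maps of contractible simplicial sets are strong -/
theorem spx_cc {X Y : SSt.{u}} (f : X ⟶ Y) (hX : SSt.Contr X) (hY : SSt.Contr Y) :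
    SSt.Strong f :=
  thm_Str23.2.2.1 f Y.toPt hY hX

/-- isomorphisms of ordered sets -/
theorem spx_e {P Q : Type} [Preorder P] [Preorder Q] (f : P →o Q) (g : Q →o P)
    (h : ∀ p, g (f p) = p) (h' : ∀ q, f (g q) = q) (hQ : SSt.Contr (nvS.{u} Q)) :
    SSt.Contr (nvS.{u} P) := by
  refine zx_iso (nvMap.{u} f) (nvMap.{u} g) ?_ ?_ hQ
  · apply SSt.hom_ext
    intro n x
    apply ULift.ext
    apply OrderHom.ext
    funext i
    exact h _
  · apply SSt.hom_ext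
    intro n x
    apply ULift.ext
    apply OrderHom.ext
    funext i
    exact h' _

section

variable {P : Type} [Preorder P] (B : SubS (nvS.{u} P)) (A : SubS B.S) (S : Set P)

/-- the map from a simplicial subset to the nerve of a subset -/
def spx_f (h1 : ∀ n (x : B.S.obj n), x ∈ A.s n → ∀ i, x.1.down i ∈ S) :
    A.S ⟶ nvS.{u} {p // p ∈ S} :=
  ⟨fun n x => ⟨⟨fun i => ⟨x.1.1.down i, h1 n x.1 x.2 i⟩, fun i j h => x.1.1.down.monotone h⟩⟩,
    fun _ _ => rfl⟩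

/-- its inverse -/
def spx_g (h2 : ∀ n (x : (nvS.{u} P).obj n), (∀ i, x.down i ∈ S) →
      ∃ h : x ∈ B.s n, (⟨x, h⟩ : B.S.obj n) ∈ A.s n) :
    nvS.{u} {p // p ∈ S} ⟶ A.S :=
  ⟨fun n y => ⟨⟨⟨⟨fun i => (y.down i).1, fun i j h => y.down.monotone h⟩⟩,
      (h2 n ⟨⟨fun i => (y.down i).1, fun i j h => y.down.monotone h⟩⟩
        fun i => (y.down i).2).choose⟩,
      (h2 n ⟨⟨fun i => (y.down i).1, fun i j h => y.down.monotone h⟩⟩
        fun i => (y.down i).2).choose_spec⟩, fun _ _ => rfl⟩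

variable {B A S}

theorem spx_fg (h1 : ∀ n (x : B.S.obj n), x ∈ A.s n → ∀ i, x.1.down i ∈ S)
    (h2 : ∀ n (x : (nvS.{u} P).obj n), (∀ i, x.down i ∈ S) →
      ∃ h : x ∈ B.s n, (⟨x, h⟩ : B.S.obj n) ∈ A.s n) :
    spx_f B A S h1 ≫ spx_g B A S h2 = 𝟙 _ ∧ spx_g B A S h2 ≫ spx_f B A S h1 = 𝟙 _ :=
  ⟨rfl, rfl⟩

theorem spx_fS (h1 : ∀ n (x : B.S.obj n), x ∈ A.s n → ∀ i, x.1.down i ∈ S)
    (h2 : ∀ n (x : (nvS.{u} P).obj n), (∀ i, x.down i ∈ S) →
      ∃ h : x ∈ B.s n, (⟨x, h⟩ : B.S.obj n) ∈ A.s n) :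
    SSt.Strong (spx_f B A S h1) := by
  obtain ⟨h3, h4⟩ := spx_fg h1 h2
  exact all_StrHt.2.1 _ (spx_g B A S h2) (fun Φ n => by rw [h3]) (fun Φ n => by rw [h4])

theorem spx_c (h1 : ∀ n (x : B.S.obj n), x ∈ A.s n → ∀ i, x.1.down i ∈ S)
    (h2 : ∀ n (x : (nvS.{u} P).obj n), (∀ i, x.down i ∈ S) →
      ∃ h : x ∈ B.s n, (⟨x, h⟩ : B.S.obj n) ∈ A.s n)
    (h : SSt.Contr (nvS.{u} {p // p ∈ S})) : SSt.Contr A.S :=
  thm_Str23.1 _ _ (spx_fS h1 h2) h

end

section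

variable {A F V : Type} [CommRing A] [IsDomain A] [Field F] [CharZero F]
  [Algebra A F] [IsFractionRing A F] [AddCommGroup V] [Module F V] [FiniteDimensional F V]
  [Nontrivial V] [Module A V] [IsScalarTower A F V] (c : A → ℝ) (M : Submodule A V)

omit [IsDomain A] [CharZero F] [Algebra A F] [IsFractionRing A F] [FiniteDimensional F V]
  [Nontrivial V] [IsScalarTower A F V] in
theorem spx_ne {σ : PX F c M} (h : σ.1 ≠ ∅) : spX F c M σ ≠ ⊥ := by
  intro h1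
  obtain ⟨v, hv⟩ := Finset.nonempty_iff_ne_empty.2 h
  obtain ⟨g, -, hg⟩ := σ.2
  refine (hg v hv).1.2.2 ?_
  have h2 : v ∈ spX F c M σ := Submodule.subset_span hv
  rw [h1] at h2
  exact h2

omit [IsDomain A] [CharZero F] [Algebra A F] [IsFractionRing A F] [FiniteDimensional F V]
  [Nontrivial V] [IsScalarTower A F V] in
theorem spx_emp (h : (Nms F c M).Nonempty) :
    Adm (Nms F c M) (SW M (⊤ : Submodule F V)) (∅ : Finset V) := by
  obtain ⟨g, hg⟩ := h
  exact ⟨g, hg, fun v hv => absurd hv (Finset.notMem_empty v)⟩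

/-- the chains which do not start with `∅` -/
def spx_A : SubS (badX F c M).S where
  s n := {x | (x.1.down 0).1 ≠ ∅}
  map_mem {m n} θ x h h1 := h (Finset.subset_empty.1 (h1 ▸
    (show (x.1.down 0).1 ⊆ (x.1.down (θ 0)).1 from x.1.down.monotone (Fin.zero_le (θ 0)))))

/-- the chains which do not span `V` -/
def spx_B : SubS (badX F c M).S where
  s n := {x | spX F c M (x.1.down (Fin.last n)) ≠ ⊤}
  map_mem {m n} θ x h h1 := h (top_le_iff.1 (le_trans (le_of_eq h1.symm)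
    ((spX F c M).monotone (x.1.down.monotone (Fin.le_last (θ (Fin.last m)))))))

variable (F V) in
/-- the chains which do not start with `⊥` -/
def spx_A' : SubS (badS.{1} (Submodule F V)).S where
  s n := {x | x.1.down 0 ≠ ⊥}
  map_mem {m n} θ x h h1 := h (le_bot_iff.1 (h1 ▸ x.1.down.monotone (Fin.zero_le (θ 0))))

variable (F V) in
/-- the chains which do not end with `V` -/
def spx_B' : SubS (badS.{1} (Submodule F V)).S where
  s n := {x | x.1.down (Fin.last n) ≠ ⊤}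
  map_mem {m n} θ x h h1 := h (top_le_iff.1 (h1 ▸
    x.1.down.monotone (Fin.le_last (θ (Fin.last m)))))

theorem spx_cA (hC : St_NmC) (hM : IsLatA F M) (hN : (Nms F c M).Nonempty) :
    SSt.Contr (spx_A (F := F) c M).S := by
  refine spx_c (S := {σ : PX F c M | σ.1 ≠ ∅}) ?_ ?_ ?_
  · intro n x hx i h1
    exact hx (Finset.subset_empty.1 (h1 ▸
      (show (x.1.down 0).1 ⊆ (x.1.down i).1 from x.1.down.monotone (Fin.zero_le i))))
  · intro n x hx
    exact ⟨Or.inl (hx 0), hx 0⟩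
  · have h1 := hC A F V c M hM hN ⊤ (top_ne_bot)
    exact spx_e (Q := {σ : Finset V // σ.Nonempty ∧ Adm (Nms F c M) (SW M (⊤ : Submodule F V)) σ})
      ⟨fun σ => ⟨σ.1.1, Finset.nonempty_iff_ne_empty.2 σ.2, σ.1.2⟩, fun _ _ h => h⟩
      ⟨fun σ => ⟨⟨σ.1, σ.2.2⟩, Finset.nonempty_iff_ne_empty.1 σ.2.1⟩, fun _ _ h => h⟩
      (fun _ => rfl) (fun _ => rfl) h1

omit [CharZero F] [FiniteDimensional F V] in
theorem spx_cA' : SSt.Contr (spx_A' F V).S := by
  refine spx_c (S := {W : Submodule F V | W ≠ ⊥}) ?_ ?_ ?_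
  · intro n x hx i h1
    exact hx (le_bot_iff.1 (h1 ▸ x.1.down.monotone (Fin.zero_le i)))
  · intro n x hx
    exact ⟨Or.inl (hx 0), hx 0⟩
  · exact qa_top ⟨⊤, top_ne_bot⟩ fun x => (le_top : x.1 ≤ ⊤)

omit [IsDomain A] [CharZero F] [Algebra A F] [IsFractionRing A F] [FiniteDimensional F V]
  [IsScalarTower A F V] in
theorem spx_cB (hN : (Nms F c M).Nonempty) : SSt.Contr (spx_B (F := F) c M).S := by
  refine spx_c (S := {σ : PX F c M | spX F c M σ ≠ ⊤}) ?_ ?_ ?_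
  · intro n x hx i h1
    exact hx (top_le_iff.1 (le_trans (le_of_eq h1.symm)
      ((spX F c M).monotone (x.1.down.monotone (Fin.le_last i)))))
  · intro n x hx
    exact ⟨Or.inr (hx _), hx _⟩
  · refine qa_bot ⟨⟨∅, spx_emp c M hN⟩, ?_⟩ fun x => Finset.empty_subset _
    intro h1
    have h2 : Submodule.span F ((∅ : Finset V) : Set V) = ⊤ := h1
    rw [Finset.coe_empty, Submodule.span_empty] at h2
    exact bot_ne_top h2

omit [CharZero F] [FiniteDimensional F V] in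
theorem spx_cB' : SSt.Contr (spx_B' F V).S := by
  refine spx_c (S := {W : Submodule F V | W ≠ ⊤}) ?_ ?_ ?_
  · intro n x hx i h1
    exact hx (top_le_iff.1 (h1 ▸ x.1.down.monotone (Fin.le_last i)))
  · intro n x hx
    exact ⟨Or.inr (hx _), hx _⟩
  · exact qa_bot ⟨⊥, bot_ne_top⟩ fun x => (bot_le : ⊥ ≤ x.1)

/-- the sets of shortest vectors with a proper nonzero span -/
def spx_P : Set (PX F c M) := {σ | σ.1 ≠ ∅ ∧ spX F c M σ ≠ ⊤}

variable (F V) in
/-- the proper nonzero subspaces -/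
def spx_Q : Set (Submodule F V) := {W | W ≠ ⊥ ∧ W ≠ ⊤}

/-- the span -/
def spx_s : {σ // σ ∈ spx_P (F := F) c M} →o {W // W ∈ spx_Q F V} :=
  ⟨fun σ => ⟨spX F c M σ.1, spx_ne c M σ.2.1, σ.2.2⟩, fun _ _ h => (spX F c M).monotone h⟩

omit [Nontrivial V] in
theorem spx_sS (hC : St_NmC) (hA : St_AdmW) (hM : IsLatA F M) (hN : (Nms F c M).Nonempty) :
    SSt.Strong (nvMap.{1} (spx_s (F := F) c M)) := by
  refine thm_QA _ _ _ fun W => ?_
  have h1 := hC A F V c M hM hN W.1 W.2.1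
  refine spx_e (Q := {σ : Finset V // σ.Nonempty ∧ Adm (Nms F c M) (SW M W.1) σ})
    ⟨fun σ => ⟨σ.1.1.1, Finset.nonempty_iff_ne_empty.2 σ.1.2.1,
      (hA A F V c M hM W.1 _ (Finset.nonempty_iff_ne_empty.2 σ.1.2.1)).2 ⟨σ.1.1.2, fun v hv => ?_⟩⟩,
      fun _ _ h => h⟩
    ⟨fun σ => ⟨⟨⟨σ.1, ((hA A F V c M hM W.1 _ σ.2.1).1 σ.2.2).1⟩,
      Finset.nonempty_iff_ne_empty.1 σ.2.1, ?_⟩, ?_⟩, fun _ _ h => h⟩
    (fun _ => rfl) (fun _ => rfl) h1
  · have h2 : spX F c M σ.1.1 ≤ W.1 := σ.2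
    exact h2 (Submodule.subset_span hv)
  · intro h2
    have h3 : Submodule.span F (σ.1 : Set V) ≤ W.1 :=
      Submodule.span_le.2 ((hA A F V c M hM W.1 _ σ.2.1).1 σ.2.2).2
    exact W.2.2 (top_le_iff.1 (h2 ▸ h3))
  · exact Submodule.span_le.2 ((hA A F V c M hM W.1 _ σ.2.1).1 σ.2.2).2

end

theorem thm_SpX (hG : St_Glue.{1}) (hC : St_NmC) (hA : St_AdmW) : St_SpX := by
  intro A F V _ _ _ _ _ _ _ _ _ _ _ _ c M hM hN
  have hb : ∀ n x, x ∈ (badX F c M).s n →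
      (nvMap.{1} (spX F c M)).app n x ∈ (badS.{1} (Submodule F V)).s n := by
    intro n x hx
    rcases hx with hx | hx
    · exact Or.inl (spx_ne c M hx)
    · exact Or.inr hx
  refine ⟨?_, hb, ?_⟩
  · refine spx_cc _ ?_ ?_
    · exact qa_bot ⟨∅, spx_emp c M hN⟩ fun x => Finset.empty_subset _
    · exact qa_bot ⊥ fun x => bot_le
  · refine hG.1 _ (spx_A (F := F) c M) (spx_B (F := F) c M) (spx_A' F V) (spx_B' F V)
      (fun n x hx => spx_ne c M hx) (fun n x hx => hx) (fun n x => x.2) (fun n x => x.2)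
      (spx_cc _ (spx_cA c M hC hM hN) spx_cA') (spx_cc _ (spx_cB c M hN) spx_cB') ?_
    -- the intersection
    have h1 : ∀ n (x : (badX F c M).S.obj n),
        x ∈ (subInt (spx_A (F := F) c M) (spx_B (F := F) c M)).s n →
        ∀ i, x.1.down i ∈ spx_P (F := F) c M := by
      rintro n x ⟨hx, hx'⟩ i
      refine ⟨fun h1 => ?_, fun h1 => ?_⟩
      · exact hx (Finset.subset_empty.1 (h1 ▸
          (show (x.1.down 0).1 ⊆ (x.1.down i).1 from x.1.down.monotone (Fin.zero_le i))))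
      · exact hx' (top_le_iff.1 (le_trans (le_of_eq h1.symm)
          ((spX F c M).monotone (x.1.down.monotone (Fin.le_last i)))))
    have h2 : ∀ n (x : (nvS.{1} (PX F c M)).obj n), (∀ i, x.down i ∈ spx_P (F := F) c M) →
        ∃ h : x ∈ (badX F c M).s n, (⟨x, h⟩ : (badX F c M).S.obj n) ∈
          (subInt (spx_A (F := F) c M) (spx_B (F := F) c M)).s n :=
      fun n x hx => ⟨Or.inl (hx 0).1, (hx 0).1, (hx _).2⟩
    have h3 : ∀ n (x : (badS.{1} (Submodule F V)).S.obj n),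
        x ∈ (subInt (spx_A' F V) (spx_B' F V)).s n → ∀ i, x.1.down i ∈ spx_Q F V := by
      rintro n x ⟨hx, hx'⟩ i
      refine ⟨fun h1 => ?_, fun h1 => ?_⟩
      · exact hx (le_bot_iff.1 (h1 ▸ x.1.down.monotone (Fin.zero_le i)))
      · exact hx' (top_le_iff.1 (h1 ▸ x.1.down.monotone (Fin.le_last i)))
    have h4 : ∀ n (x : (nvS.{1} (Submodule F V)).obj n), (∀ i, x.down i ∈ spx_Q F V) →
        ∃ h : x ∈ (badS.{1} (Submodule F V)).s n, (⟨x, h⟩ : (badS.{1} (Submodule F V)).S.obj n) ∈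
          (subInt (spx_A' F V) (spx_B' F V)).s n :=
      fun n x hx => ⟨Or.inl (hx 0).1, (hx 0).1, (hx _).2⟩
    have h5 := spx_fS h1 h2
    have h6 := spx_fS h3 h4
    have h7 := thm_Str23.1 (spx_f _ _ _ h1) (nvMap.{1} (spx_s (F := F) c M)) h5
      (spx_sS c M hC hA hM hN)
    refine thm_Str23.2.2.1 _ (spx_f _ _ _ h3) h6 ?_
    refine Eq.mp (congrArg SSt.Strong ?_) h7
    apply SSt.hom_ext
    intro n x
    rfl

end Pool.Agent.NR
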