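import Pool.Agent.NR.St

/-!
# NR: every lattice has a norm whose shortest vectors span ([WR])
-/

set_option autoImplicit false
set_option linter.unusedVariables false
set_option linter.unusedSectionVars false

noncomputable section

namespace Pool.Agent.NR

open Function Pool.Agent.GQ

section

variable {A F V : Type} [CommRing A] [IsDomain A] [Field F] [CharZero F] [Algebra A F]
  [IsFractionRing A F] [AddCommGroup V] [Module F V] [FiniteDimensional F V] [Module A V]
  [IsScalarTower A F V]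

variable (c : A → ℝ) (M : Submodule A V)

/-- stretching a norm along the kernel of a projection -/
def wr_st (h : V → ℝ) (P : V →ₗ[F] V) (t : ℝ) (v : V) : ℝ := h (P v) + t * h (v - P v)

theorem wr_nm {h : V → ℝ} (hh : IsNm F c M h) (hn : ∀ v, 0 ≤ h v) (P : V →ₗ[F] V) (t : ℝ)
    (ht : 0 < t) : IsNm F c M (wr_st h P t) := by
  have ha : ∀ (a : A) (v : V), P (a • v) = a • P v := fun a v => by
    rw [← algebraMap_smul F a v, map_smul, algebraMap_smul]
  refine ⟨fun v w => ?_, fun q v => ?_, fun a v => ?_, fun R' => ?_⟩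
  · have h1 := hh.add (P v) (P w)
    have h2 := mul_le_mul_of_nonneg_left (hh.add (v - P v) (w - P w)) ht.le
    have e2 : v + w - (P v + P w) = (v - P v) + (w - P w) := by abel
    unfold wr_st
    rw [map_add, e2]
    linarith
  · unfold wr_st
    rw [map_smul, ← smul_sub, hh.rat, hh.rat]
    ring
  · unfold wr_st
    rw [ha, ← smul_sub]
    have h1 := hh.mul a (P v)
    have h2 := mul_le_mul_of_nonneg_left (hh.mul a (v - P v)) ht.le
    linarith
  · refine (hh.fin ((1 + t⁻¹) * |R'|)).subset ?_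
    rintro m ⟨hm, hR⟩
    refine ⟨hm, ?_⟩
    unfold wr_st at hR
    have h1 := hh.add (P m) (m - P m)
    rw [add_sub_cancel] at h1
    have h2 := hn (P m)
    have h3 := hn (m - P m)
    have h4 := mul_nonneg ht.le h3
    have h5 : h (P m) ≤ |R'| := by linarith [le_abs_self R']
    have h6 : t * h (m - P m) ≤ |R'| := by linarith [le_abs_self R']
    have h7 : h (m - P m) ≤ t⁻¹ * |R'| := by
      rw [← div_eq_inv_mul, le_div_iff₀ ht, mul_comm]
      exact h6
    rw [add_mul, one_mul]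
    linarith

/-- one more shortest vector -/
theorem wr_step (hNm : St_Nm) (hM : IsLatA F M) (h : V → ℝ) (hh : IsNm F c M h)
    (hW : Submodule.span F (MinOn (SW M (⊤ : Submodule F V)) h) ≠ ⊤) :
    ∃ h' : V → ℝ, IsNm F c M h' ∧
      Submodule.span F (MinOn (SW M (⊤ : Submodule F V)) h) <
        Submodule.span F (MinOn (SW M (⊤ : Submodule F V)) h') := by
  obtain ⟨-, h2, h3, -⟩ := hNm A F V c M hM
  have hn : ∀ v, 0 ≤ h v := fun v => (h2 h hh v).1
  have hz : ∀ v, h v = 0 → v = 0 := fun v => (h2 h hh v).2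
  have h0 : h 0 = 0 := by
    have h1 := hh.rat 0 0
    simpa using h1
  set W := Submodule.span F (MinOn (SW M (⊤ : Submodule F V)) h) with hWd
  have htb : (⊤ : Submodule F V) ≠ ⊥ := by
    intro e
    refine hW (top_le_iff.1 ?_)
    rw [e]
    exact bot_le
  obtain ⟨v0, hv0⟩ := h3 h hh ⊤ htb
  have hv00 : v0 ≠ 0 := hv0.1.2.2
  have hμ : 0 < h v0 := lt_of_le_of_ne (hn v0) fun e => hv00 (hz v0 e.symm)
  obtain ⟨p, hp⟩ := W.subtype.exists_leftInverse_of_injective W.ker_subtype
  have hid : ∀ w ∈ W, (W.subtype ∘ₗ p) w = w := fun w hw => by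
    have h1 := LinearMap.congr_fun hp ⟨w, hw⟩
    exact congrArg Subtype.val h1
  have hPW : ∀ v, (W.subtype ∘ₗ p) v ∈ W := fun v => (p v).2
  set P : V →ₗ[F] V := W.subtype ∘ₗ p with hP
  have hq : ∀ m, m ∉ W → 0 < h (m - P m) := by
    intro m hm
    refine lt_of_le_of_ne (hn _) fun e => hm ?_
    have e1 := hz _ e.symm
    rw [sub_eq_zero.1 e1]
    exact hPW m
  -- the kernel
  have hker : LinearMap.ker P ≠ ⊥ := by
    intro e
    obtain ⟨v, -, hv⟩ := SetLike.exists_of_lt (lt_top_iff_ne_top.2 hW)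
    have e1 : v - P v ∈ LinearMap.ker P := by
      rw [LinearMap.mem_ker, map_sub, hid _ (hPW v), sub_self]
    rw [e, Submodule.mem_bot] at e1
    refine hv ?_
    rw [sub_eq_zero.1 e1]
    exact hPW v
  obtain ⟨m1, hm1⟩ := h3 h hh _ hker
  obtain ⟨⟨hm1M, hm1k, hm10⟩, -⟩ := hm1
  rw [LinearMap.mem_ker] at hm1k
  have hm1W : m1 ∉ W := fun hw => hm10 (by rw [← hid m1 hw]; exact hm1k)
  let τ : V → ℝ := fun m => (h v0 - h (P m)) / h (m - P m)
  let E : Set V := {m | m ∈ M ∧ m ∉ W ∧ h (P m) < h v0}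
  have hE1 : m1 ∈ E := ⟨hm1M, hm1W, by rw [hm1k, h0]; exact hμ⟩
  have hτ0 : ∀ m ∈ E, 0 < τ m := fun m hm => div_pos (by linarith [hm.2.2]) (hq m hm.2.1)
  have hτe : ∀ m ∈ E, h (P m) + τ m * h (m - P m) = h v0 := by
    intro m hm
    have e1 : τ m * h (m - P m) = h v0 - h (P m) := div_mul_cancel₀ _ (hq m hm.2.1).ne'
    linarith
  have hfin : {m | m ∈ E ∧ τ m1 ≤ τ m}.Finite := by
    refine ((wr_nm c M hh hn P (τ m1) (hτ0 m1 hE1)).fin (h v0)).subset ?_
    rintro m ⟨hm, hmt⟩
    refine ⟨hm.1, ?_⟩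
    change h (P m) + τ m1 * h (m - P m) ≤ h v0
    rw [← hτe m hm]
    have := mul_le_mul_of_nonneg_right hmt (hq m hm.2.1).le
    linarith
  obtain ⟨ms, hms, hmax⟩ := Set.exists_max_image _ τ hfin ⟨m1, hE1, le_rfl⟩
  have hmax' : ∀ m ∈ E, τ m ≤ τ ms := by
    intro m hm
    rcases le_total (τ m1) (τ m) with h1 | h1
    · exact hmax m ⟨hm, h1⟩
    · exact h1.trans hms.2
  have ht := hτ0 ms hms.1
  refine ⟨wr_st h P (τ ms), wr_nm c M hh hn P _ ht, ?_⟩
  have hon : ∀ w ∈ W, wr_st h P (τ ms) w = h w := by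
    intro w hw
    unfold wr_st
    rw [hid w hw, sub_self, h0, mul_zero, add_zero]
  have hlow : ∀ m ∈ SW M (⊤ : Submodule F V), h v0 ≤ wr_st h P (τ ms) m := by
    intro m hm
    by_cases hmW : m ∈ W
    · rw [hon m hmW]
      exact hv0.2 m hm
    · have hq' := (hq m hmW).le
      unfold wr_st
      by_cases hlt : h (P m) < h v0
      · have hmE : m ∈ E := ⟨hm.1, hmW, hlt⟩
        have := mul_le_mul_of_nonneg_right (hmax' m hmE) hq'
        have := hτe m hmE
        linarith
      · have := mul_nonneg ht.le hq'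
        linarith [not_lt.1 hlt]
  have hsub : MinOn (SW M (⊤ : Submodule F V)) h ⊆
      MinOn (SW M (⊤ : Submodule F V)) (wr_st h P (τ ms)) := by
    intro v hv
    refine ⟨hv.1, fun w hw => ?_⟩
    rw [hon v (Submodule.subset_span hv)]
    exact (hv.2 v0 hv0.1).trans (hlow w hw)
  have hms0 : ms ≠ 0 := fun e => hms.1.2.1 (by rw [e]; exact W.zero_mem)
  have hmsm : ms ∈ MinOn (SW M (⊤ : Submodule F V)) (wr_st h P (τ ms)) := by
    refine ⟨⟨hms.1.1, Submodule.mem_top, hms0⟩, fun w hw => ?_⟩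
    have e1 : wr_st h P (τ ms) ms = h v0 := hτe ms hms.1
    rw [e1]
    exact hlow w hw
  refine lt_of_le_of_ne (Submodule.span_mono hsub) fun e => hms.1.2.1 ?_
  have e2 := Submodule.subset_span (R := F) hmsm
  rw [← e] at e2
  exact e2

end

theorem thm_WR (hNm : St_Nm) : St_WR := by
  intro A F V _ _ _ _ _ _ _ _ _ _ _ c M hM hne
  obtain ⟨h₀, hh₀⟩ := hne
  have key : ∀ (k : ℕ) (h : V → ℝ), IsNm F c M h →
      Module.finrank F V - Module.finrank F
        (Submodule.span F (MinOn (SW M (⊤ : Submodule F V)) h)) ≤ k →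
      ∃ h' ∈ Nms F c M, Submodule.span F (MinOn (SW M (⊤ : Submodule F V)) h') = ⊤ := by
    intro k
    induction k with
    | zero =>
      intro h hh hk
      refine ⟨h, hh, ?_⟩
      refine Submodule.eq_top_of_finrank_eq ?_
      have := Submodule.finrank_le (Submodule.span F (MinOn (SW M (⊤ : Submodule F V)) h))
      omega
    | succ k ih =>
      intro h hh hk
      by_cases hW : Submodule.span F (MinOn (SW M (⊤ : Submodule F V)) h) = ⊤
      · exact ⟨h, hh, hW⟩
      · obtain ⟨h', hh', hlt⟩ := wr_step c M hNm hM h hh hW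
        refine ih h' hh' ?_
        have := Submodule.finrank_lt_finrank_of_lt hlt
        have := Submodule.finrank_le (Submodule.span F (MinOn (SW M (⊤ : Submodule F V)) h'))
        omega
  exact key _ h₀ hh₀ le_rfl

end Pool.Agent.NR
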