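import Pool.Agent.NR.St

/-!
# NR: finitely many orbits with finite stabilizers (proof of `St_XFin`)
-/

set_option autoImplicit false
set_option linter.unusedVariables false

noncomputable section

namespace Pool.Agent.NR

open CategoryTheory Function Pool.Agent.KQ Pool.Agent.FGK Pool.Agent.GQ

section

variable {A F V : Type} [CommRing A] [Field F] [Algebra A F] [AddCommGroup V]
  [Module F V] [Module A V] [IsScalarTower A F V]

theorem xfin_act (c : A → ℝ) (M : Submodule A V) (g : Gam (F := F) M) (n : ℕ)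
    (x : (nvS.{1} (PX F c M)).obj n) (i : Fin (n + 1)) :
    ((((pxAct c M).act g).app n x).down i).1 =
      (x.down i).1.map g.1.toEquiv.toEmbedding := rfl

theorem xfin_basis [FiniteDimensional F V] (s : Set V) (hs : Submodule.span F s = ⊤) :
    ∃ v : Module.Basis (Fin (Module.finrank F V)) F V, ∀ l, v l ∈ s := by
  let b := Module.Basis.ofSpan hs.ge
  refine ⟨b.reindex (b.indexEquiv (Module.finBasis F V)), fun l => ?_⟩
  rw [Module.Basis.reindex_apply]
  exact Module.Basis.ofSpan_subset hs.ge ⟨_, rfl⟩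

end

theorem xfin_one (hL : St_Lam) (hB : St_Box) (A F V : Type) [CommRing A] [IsDomain A]
    [Module.Finite ℤ A] [Field F] [CharZero F] [Algebra A F] [IsFractionRing A F]
    [AddCommGroup V] [Module F V] [FiniteDimensional F V] [Module A V] [IsScalarTower A F V]
    (c : A → ℝ) (M : Submodule A V) (hM : IsLatA F M) (n : ℕ) :
    ∃ T : Set ((nvS.{1} (PX F c M)).obj n), T.Finite ∧ ∀ x, x ∉ (badX F c M).s n →
      ∃ g, ((pxAct c M).act g).app n x ∈ T := by
  classical
  let r := Module.finrank F V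
  obtain ⟨Λ, hΛ, hL⟩ := hL A F c r
  obtain ⟨E, hE, hB⟩ := hB A F c r
  let P : (Submodule A (Fin r → F) × (Fin (n + 1) → Set (Fin r → F))) →
      (nvS.{1} (PX F c M)).obj n → Prop := fun k x =>
    ∃ v : Module.Basis (Fin r) F V, (∀ y : Fin r → F, y ∈ k.1 ↔ v.equivFun.symm y ∈ M) ∧
      ∀ i, k.2 i = v.equivFun '' ((x.down i).1 : Set V)
  let Cd : Set (Submodule A (Fin r → F) × (Fin (n + 1) → Set (Fin r → F))) :=
    Λ ×ˢ Set.pi Set.univ fun _ => {s | s ⊆ E}
  have hCd : Cd.Finite := hΛ.prod (Set.Finite.pi fun _ => hE.finite_subsets)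
  refine ⟨⋃ k ∈ Cd, {x | ∃ h : (∃ x, P k x), x = h.choose}, hCd.biUnion fun k _ => ?_, ?_⟩
  · refine Set.Subsingleton.finite ?_
    rintro x ⟨h, rfl⟩ y ⟨h', rfl⟩
    rfl
  · intro x hx
    have hx' : (spX F c M) (x.down (Fin.last n)) = ⊤ := by
      by_contra h
      exact hx (Or.inr h)
    obtain ⟨v, hv⟩ := xfin_basis (F := F) ((x.down (Fin.last n)).1 : Set V) hx'
    obtain ⟨h, hh, hmin⟩ := (x.down (Fin.last n)).2
    have hvm : ∀ l, v l ∈ MinOn (SW M (⊤ : Submodule F V)) h := fun l => hmin _ (hv l)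
    obtain ⟨L, hLΛ, hLM⟩ := hL V M h v hM hh hvm
    let k : Submodule A (Fin r → F) × (Fin (n + 1) → Set (Fin r → F)) :=
      (L, fun i => v.equivFun '' ((x.down i).1 : Set V))
    have hkx : P k x := ⟨v, hLM, fun i => rfl⟩
    have hk : k ∈ Cd := by
      refine ⟨hLΛ, fun i _ => ?_⟩
      rintro _ ⟨w, hw, rfl⟩
      refine hB V M h v hM hh hvm w (hmin w ?_)
      exact x.down.monotone (Fin.le_last i) hw
    have hex : ∃ x, P k x := ⟨x, hkx⟩
    obtain ⟨v', hLM', hs'⟩ := hex.choose_spec
    let g : V ≃ₗ[F] V := v.equivFun.trans v'.equivFun.symm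
    have hg : g ∈ Gam (F := F) M := by
      intro u
      have h1 := hLM' (v.equivFun u)
      have h2 := hLM (v.equivFun u)
      rw [LinearEquiv.symm_apply_apply] at h2
      exact h1.symm.trans h2
    refine ⟨⟨g, hg⟩, Set.mem_biUnion hk ⟨hex, ?_⟩⟩
    refine congrArg ULift.up (OrderHom.ext _ _ (funext fun i => Subtype.ext ?_))
    refine Finset.coe_injective ?_
    have h3 : v.equivFun '' ((x.down i).1 : Set V) =
        v'.equivFun '' (((hex.choose).down i).1 : Set V) := hs' i
    have h4 : ((((x.down i).1.map g.toEquiv.toEmbedding : Finset V)) : Set V) =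
        v'.equivFun.symm '' (v.equivFun '' ((x.down i).1 : Set V)) := by
      rw [Finset.coe_map, Set.image_image]
      rfl
    refine h4.trans ?_
    rw [h3, Set.image_image]
    simp only [LinearEquiv.symm_apply_apply, Set.image_id']
    rfl

theorem xfin_two (A F V : Type) [CommRing A] [IsDomain A]
    [Module.Finite ℤ A] [Field F] [CharZero F] [Algebra A F] [IsFractionRing A F]
    [AddCommGroup V] [Module F V] [FiniteDimensional F V] [Module A V] [IsScalarTower A F V]
    (c : A → ℝ) (M : Submodule A V) (n : ℕ) (x : (nvS.{1} (PX F c M)).obj n)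
    (hx : x ∉ (badX F c M).s n) : {g | ((pxAct c M).act g).app n x = x}.Finite := by
  classical
  have hx' : (spX F c M) (x.down (Fin.last n)) = ⊤ := by
    by_contra h
    exact hx (Or.inr h)
  let σ : Finset V := (x.down (Fin.last n)).1
  have hfin : (Set.pi Set.univ fun _ : σ => (σ : Set V)).Finite :=
    Set.Finite.pi fun _ => σ.finite_toSet
  refine Set.Finite.of_injOn (f := fun (g : Gam (F := F) M) (w : σ) => g.1 w.1) ?_ ?_ hfin
  · intro g hg w _
    have h1 : σ.map g.1.toEquiv.toEmbedding = σ :=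
      congrArg (fun y : (nvS.{1} (PX F c M)).obj n => (y.down (Fin.last n)).1) hg
    have h2 : g.1 w.1 ∈ σ.map g.1.toEquiv.toEmbedding := Finset.mem_map.2 ⟨w.1, w.2, rfl⟩
    rw [h1] at h2
    exact h2
  · intro g _ g' _ h
    refine Subtype.ext (LinearEquiv.toLinearMap_injective ?_)
    refine LinearMap.ext_on (s := (σ : Set V)) hx' fun w hw => ?_
    exact congrFun h ⟨w, hw⟩

/-- finitely many orbits with finite stabilizers -/
theorem thm_XFin (hL : St_Lam) (hB : St_Box) : St_XFin := by
  intro A F V _ _ _ _ _ _ _ _ _ _ _ _ c M hM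
  exact ⟨fun n => xfin_one hL hB A F V c M hM n, fun n x hx => xfin_two A F V c M n x hx⟩

end Pool.Agent.NR
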