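import Pool.Agent.GQ.All
import Pool.Agent.NR.AdmW
import Pool.Agent.NR.Box
import Pool.Agent.NR.CCN
import Pool.Agent.NR.FLM
import Pool.Agent.NR.Glue
import Pool.Agent.NR.Idx
import Pool.Agent.NR.Lam
import Pool.Agent.NR.NRK
import Pool.Agent.NR.Nm
import Pool.Agent.NR.NmC
import Pool.Agent.NR.NmEx
import Pool.Agent.NR.QA
import Pool.Agent.NR.SlM
import Pool.Agent.NR.SpX
import Pool.Agent.NR.WR
import Pool.Agent.NR.XFin

/-!
# NR: the K-groups of orders in number fields are finitely generated: assembly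
-/

set_option autoImplicit false

namespace Pool.Agent.NR

open Pool.Agent.GQ

universe u

theorem all_Glue : St_Glue.{u} := thm_Glue

theorem all_QA : St_QA.{u} := thm_QA

theorem all_CCN : St_CCN := thm_CCN all_Glue

theorem all_Nm : St_Nm := thm_Nm

theorem all_NmEx : St_NmEx := thm_NmEx

theorem all_NmC : St_NmC := thm_NmC all_CCN all_Nm

theorem all_AdmW : St_AdmW := thm_AdmW all_Nm

theorem all_SpX : St_SpX := thm_SpX all_Glue all_NmC all_AdmW

theorem all_Idx : St_Idx := thm_Idx

theorem all_Box : St_Box := thm_Box all_Idx all_Nm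

theorem all_Lam : St_Lam := thm_Lam all_Idx

theorem all_XFin : St_XFin := thm_XFin all_Lam all_Box

theorem all_SlM : St_SlM := thm_SlM all_NmEx all_XFin all_SpX all_hOSl all_hOStr

theorem all_WR : St_WR := thm_WR all_Nm

theorem all_FLM : St_FLM := thm_FLM all_NmEx all_WR all_Lam

/-- THE K-GROUPS OF ORDERS IN NUMBER FIELDS ARE FINITELY GENERATED. -/
theorem all_NRK : St_NRK := thm_NRK all_FLM all_SlM all_T3

end Pool.Agent.NR
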