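import Pool.Agent.GQ.Defs2

/-!
# NR: finite generation of `K_n` of number rings (Quillen 1973): definitions

Project NR for MP_e17fa799_al (architect helper71). `A` is a domain which is finite over `ℤ`, of
characteristic zero, `F` its field of fractions, `V` a finite dimensional vector space over `F`, `M` a lattice in
`V`. Instead of the symmetric space we use the nerve of its covering by the convex sets
`{h | v is a shortest vector of M for h}`, `v ∈ M ∖ 0`, `h` in the convex set `Nms` of norms.
-/

set_option autoImplicit false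
set_option linter.unusedVariables false

noncomputable section

namespace Pool.Agent.NR

open CategoryTheory Function Pool.Agent.KQ Pool.Agent.FGK Pool.Agent.GQ

universe u

/-! ### finite sets of common minima -/

/-- the elements of `S` at which `h` is minimal on `S` -/
def MinOn {T : Type} (S : Set T) (h : T → ℝ) : Set T := {v | v ∈ S ∧ ∀ w ∈ S, h v ≤ h w}

/-- `σ` consists of minima of one function of the family `C` -/
def Adm {T : Type} (C : Set (T → ℝ)) (S : Set T) (σ : Finset T) : Prop :=
  ∃ h ∈ C, ∀ v ∈ σ, v ∈ MinOn S h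

/-- the union of a simplicial subset and its intersection with another one -/
def subInt {X : SSt.{u}} (A B : SubS X) : SubS X where
  s n := {x | x ∈ A.s n ∧ x ∈ B.s n}
  map_mem θ x h := ⟨A.map_mem θ x h.1, B.map_mem θ x h.2⟩

/-- the map of nerves of a monotone map -/
def nvMap {P Q : Type} [Preorder P] [Preorder Q] (f : P →o Q) : nvS.{u} P ⟶ nvS.{u} Q :=
  ⟨fun n x => ⟨f.comp x.down⟩, fun _ _ => rfl⟩

/-! ### norms -/

section

variable {A F V : Type} [CommRing A] [Field F] [Algebra A F] [AddCommGroup V]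
  [Module F V] [Module A V] [IsScalarTower A F V]

variable (F) in
/-- the norms on `V` (with the constants `c`) for which `M` is discrete -/
structure IsNm (c : A → ℝ) (M : Submodule A V) (h : V → ℝ) : Prop where
  add : ∀ v w, h (v + w) ≤ h v + h w
  rat : ∀ (q : ℚ) (v : V), h ((q : F) • v) = |(q : ℝ)| * h v
  mul : ∀ (a : A) (v : V), h (a • v) ≤ c a * h v
  fin : ∀ R : ℝ, {m : V | m ∈ M ∧ h m ≤ R}.Finite

variable (F) in
/-- the set of norms -/
def Nms (c : A → ℝ) (M : Submodule A V) : Set (V → ℝ) := {h | IsNm F c M h}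

/-- the nonzero vectors of `M` in the subspace `W` -/
def SW (M : Submodule A V) (W : Submodule F V) : Set V := {m | m ∈ M ∧ m ∈ W ∧ m ≠ 0}

variable (F) in
/-- the finite sets of vectors of `M ∖ 0` which are shortest for one norm (`∅` is allowed) -/
abbrev PX (c : A → ℝ) (M : Submodule A V) : Type :=
  {σ : Finset V // Adm (Nms F c M) (SW M (⊤ : Submodule F V)) σ}

variable (F) in
/-- the span -/
def spX (c : A → ℝ) (M : Submodule A V) : PX F c M →o Submodule F V :=
  ⟨fun σ => Submodule.span F (σ.1 : Set V), fun _ _ h => Submodule.span_mono h⟩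

variable (F) in
/-- the chains `σ_0 ≤ .. ≤ σ_n` with `σ_0 ≠ ∅` or `span σ_n ≠ V` -/
def badX (c : A → ℝ) (M : Submodule A V) : SubS (nvS.{1} (PX F c M)) where
  s n := {x | (x.down 0).1 ≠ ∅ ∨ spX F c M (x.down (Fin.last n)) ≠ ⊤}
  map_mem {m n} θ x h := by
    rcases h with h | h
    · left
      intro h1
      refine h (Finset.subset_empty.1 ?_)
      have h2 : (x.down 0).1 ⊆ (x.down (θ 0)).1 := x.down.monotone (Fin.zero_le (θ 0))
      rwa [show (x.down (θ 0)).1 = ∅ from h1] at h2
    · right
      intro h1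
      refine h (top_le_iff.1 ?_)
      have h2 := (spX F c M).monotone (x.down.monotone (Fin.le_last (θ (Fin.last m))))
      have h3 : spX F c M (x.down (θ (Fin.last m))) = ⊤ := h1
      rwa [h3] at h2

omit [IsScalarTower A F V] in
theorem adm_map (c : A → ℝ) (M : Submodule A V) [IsScalarTower A F V] (g : Gam (F := F) M)
    (σ : Finset V) (hσ : Adm (Nms F c M) (SW M (⊤ : Submodule F V)) σ) :
    Adm (Nms F c M) (SW M (⊤ : Submodule F V)) (σ.map g.1.toEquiv.toEmbedding) := by
  obtain ⟨h, hh, h1⟩ := hσ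
  have hh : IsNm F c M h := hh
  have hg : ∀ v, g.1 v ∈ M ↔ v ∈ M := g.2
  have hg' : ∀ v, g.1.symm v ∈ M ↔ v ∈ M := fun v => by
    rw [← hg (g.1.symm v), g.1.apply_symm_apply]
  refine ⟨fun v => h (g.1.symm v), ⟨fun v w => ?_, fun q v => ?_, fun a v => ?_, fun R => ?_⟩,
    fun v hv => ?_⟩
  · rw [map_add]
    exact hh.add _ _
  · rw [map_smul]
    exact hh.rat _ _
  · have h2 : g.1.symm (a • v) = a • g.1.symm v := by
      rw [← algebraMap_smul F a v, map_smul, algebraMap_smul]
    rw [h2]
    exact hh.mul _ _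
  · refine ((hh.fin R).image g.1).subset ?_
    rintro m ⟨hm, hm'⟩
    exact ⟨g.1.symm m, ⟨(hg' m).2 hm, hm'⟩, g.1.apply_symm_apply m⟩
  · rw [Finset.mem_map] at hv
    obtain ⟨w, hw, rfl⟩ := hv
    obtain ⟨⟨h3, -, h4⟩, h5⟩ := h1 w hw
    refine ⟨⟨(hg w).2 h3, Submodule.mem_top, fun h6 => h4 ?_⟩, fun u hu => ?_⟩
    · exact (LinearEquiv.map_eq_zero_iff g.1).1 h6
    · change h (g.1.symm (g.1 w)) ≤ h (g.1.symm u)
      rw [g.1.symm_apply_apply]
      refine h5 _ ⟨(hg' u).2 hu.1, Submodule.mem_top, fun h6 => hu.2.2 ?_⟩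
      exact (LinearEquiv.map_eq_zero_iff g.1.symm).1 h6

/-- the action of an automorphism on `PX` -/
def mapX (c : A → ℝ) (M : Submodule A V) (g : Gam (F := F) M) : PX F c M →o PX F c M :=
  ⟨fun σ => ⟨σ.1.map g.1.toEquiv.toEmbedding, adm_map c M g σ.1 σ.2⟩,
    fun _ _ h => Finset.map_subset_map.2 h⟩

/-- the action of `GL(M)` on the chains -/
def pxAct (c : A → ℝ) (M : Submodule A V) : GAct (Gam (F := F) M) (nvS.{1} (PX F c M)) where
  act g := nvMap (mapX c M g)
  one := SSt.hom_ext fun n x => congrArg ULift.up (by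
    apply OrderHom.ext
    funext i
    refine Subtype.ext ?_
    ext v
    change v ∈ Finset.map _ _ ↔ _
    rw [Finset.mem_map]
    constructor
    · rintro ⟨w, hw, rfl⟩
      exact hw
    · intro hv
      exact ⟨v, hv, rfl⟩)
  mul g h := SSt.hom_ext fun n x => congrArg ULift.up (by
    apply OrderHom.ext
    funext i
    refine Subtype.ext ?_
    ext v
    change v ∈ Finset.map _ _ ↔ v ∈ Finset.map _ (Finset.map _ _)
    rw [Finset.map_map]
    rfl)

end

end Pool.Agent.NR
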