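import Pool.Agent.GQ.FAlg
import Pool.Agent.Helper38.Mixed.FG

/-!
# NR, part Z: rings of dimension at most one over the integers

A class of rings with the closure properties `GTH.Cls` which contains the finite fields, the domains finite over
`k[X]` (`k` a finite field) and the domains of characteristic zero finite over `ℤ` contains all rings of finite type
over `ℤ` of dimension at most `1`. Architect helper38.
-/

set_option autoImplicit false
set_option linter.style.haveILetI false

namespace Pool.Agent.NR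

open Function Pool.Agent.GTH Pool.Agent.GQ

/-- orders in number fields -/
def Num (G : (R : Type) → [CommRing R] → Prop) : Prop :=
  ∀ (A : Type) [CommRing A] [IsDomain A] [CharZero A] [Module.Finite ℤ A], G A

section

variable {G : (R : Type) → [CommRing R] → Prop} (hG : Cls G) (hB : Base G)

include hG hB

/-- finite rings -/
theorem fin_ring (R : Type) [CommRing R] [Finite R] : G R := by
  refine hG.of_prime R fun P hP => ?_
  haveI := hP
  haveI : IsDomain (R ⧸ P) := Ideal.Quotient.isDomain P
  haveI : Finite (R ⧸ P) := Finite.of_surjective _ Ideal.Quotient.mk_surjective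
  letI : Field (R ⧸ P) := (Finite.isField_of_domain (R ⧸ P)).toField
  exact hB.fld (R ⧸ P)

/-- the quotients of orders -/
theorem order_quot (A : Type) [CommRing A] [Module.Finite ℤ A] (N : ℤ) (hN : N ≠ 0) :
    G (A ⧸ Ideal.span {(N : A)}) := by
  haveI : Module.Finite ℤ (A ⧸ Ideal.span {(N : A)}) := inferInstance
  have h0 : ∀ x : A ⧸ Ideal.span {(N : A)}, N • x = 0 := by
    intro x
    obtain ⟨x, rfl⟩ := Ideal.Quotient.mk_surjective x
    rw [← map_zsmul, Ideal.Quotient.eq_zero_iff_mem, zsmul_eq_mul, Ideal.mem_span_singleton]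
    exact dvd_mul_right _ _
  haveI : Finite (A ⧸ Ideal.span {(N : A)}) := by
    refine Module.finite_of_fg_torsion (A ⧸ Ideal.span {(N : A)}) fun x => ?_
    exact ⟨⟨N, mem_nonZeroDivisors_of_ne_zero hN⟩, h0 x⟩
  exact fin_ring hG hB _

/-- domains of characteristic zero, algebraic over the integers -/
theorem num_dom (hNum : Num G) (C : Type) [CommRing C] [IsDomain C] [CharZero C]
    [Algebra.FiniteType ℤ C] [Algebra.IsAlgebraic ℤ C]
    (h : ∀ N : ℤ, N ≠ 0 → G (C ⧸ Ideal.span {(N : C)})) : G C := by
  haveI : IsNoetherianRing C := Algebra.FiniteType.isNoetherianRing ℤ C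
  obtain ⟨S, hS⟩ := (inferInstance : Algebra.FiniteType ℤ C).out
  obtain ⟨N, hN, hint⟩ := Algebra.IsAlgebraic.exists_integral_multiples ℤ S
  let A : Subalgebra ℤ C := Algebra.adjoin ℤ ((fun z : C => N • z) '' (S : Set C))
  haveI hfin : Module.Finite ℤ A := by
    have h1 : (Subalgebra.toSubmodule A).FG := by
      refine fg_adjoin_of_finite (S.finite_toSet.image _) ?_
      rintro _ ⟨z, hz, rfl⟩
      exact hint z hz
    exact Module.Finite.iff_fg.2 h1
  haveI : CharZero A := charZero_of_injective_algebraMap (R := ℤ) (A := A) (by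
    intro a b hab
    have h1 : ((algebraMap ℤ A a : A) : C) = (algebraMap ℤ A b : A) := congrArg _ hab
    have h2 : (a : C) = (b : C) := by simpa using h1
    exact_mod_cast h2)
  haveI : IsNoetherianRing A := isNoetherian_of_tower ℤ (inferInstance : IsNoetherian ℤ A)
  let g : A →+* C := A.val.toRingHom
  have hg : Injective g := Subtype.val_injective
  have h1 : ∀ t : C, ∃ (m : ℕ) (t' : A), (N : C) ^ m * t = g t' := by
    intro t
    have ht : t ∈ Algebra.adjoin ℤ (S : Set C) := by rw [hS]; trivial
    refine Algebra.adjoin_induction (p := fun t _ => ∃ (m : ℕ) (t' : A), (N : C) ^ m * t = g t')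
      ?_ ?_ ?_ ?_ ht
    · intro x hx
      refine ⟨1, ⟨N • x, Algebra.subset_adjoin ⟨x, hx, rfl⟩⟩, ?_⟩
      show (N : C) ^ 1 * x = N • x
      rw [pow_one, zsmul_eq_mul]
    · intro r
      exact ⟨0, algebraMap ℤ A r, by rw [pow_zero, one_mul]; rfl⟩
    · rintro x y _ _ ⟨m, a, ha⟩ ⟨n, b, hb⟩
      refine ⟨m + n, (N : A) ^ n * a + (N : A) ^ m * b, ?_⟩
      rw [map_add, map_mul, map_mul, ← ha, ← hb, map_pow, map_pow, map_intCast]
      ring
    · rintro x y _ _ ⟨m, a, ha⟩ ⟨n, b, hb⟩
      refine ⟨m + n, a * b, ?_⟩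
      rw [map_mul, ← ha, ← hb]
      ring
  have h2 : ∀ t' : A, g t' = 0 → ∃ m : ℕ, (N : A) ^ m * t' = 0 := by
    intro t' ht
    refine ⟨0, ?_⟩
    rw [pow_zero, one_mul]
    exact hg (ht.trans (map_zero g).symm)
  have h3 : G (Localization.Away (N : C)) :=
    hG.of_almost_iso g (N : A) (N : C) (map_intCast g N) h1 h2 (hNum A) (order_quot hG hB A N hN)
  exact hG.of_away C (Localization.Away (N : C)) (N : C) (h N hN) h3

end

/-- in a domain of characteristic zero, of finite type over the integers and of dimension at most one,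
every nonzero element divides a nonzero integer -/
theorem dvd_int (C : Type) [CommRing C] [IsDomain C] [CharZero C] [Algebra.FiniteType ℤ C]
    (h : ringKrullDim C ≤ 1) (c : C) (hc : c ≠ 0) : ∃ N : ℤ, N ≠ 0 ∧ c ∣ (N : C) := by
  by_contra hcon
  push Not at hcon
  let S : Submonoid C := (nonZeroDivisors ℤ).map (Int.castRingHom C)
  have hdis : Disjoint ((Ideal.span {c} : Ideal C) : Set C) S := by
    rw [Set.disjoint_left]
    rintro x hx ⟨N, hN, rfl⟩
    have hx' : (N : C) ∈ Ideal.span {c} := hx
    rw [Ideal.mem_span_singleton] at hx'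
    exact hcon N (nonZeroDivisors.ne_zero hN) hx'
  obtain ⟨Q, hQ, hle, hQS⟩ := Ideal.exists_le_prime_disjoint _ _ hdis
  have hQ0 : Q ≠ ⊥ := by
    rintro rfl
    exact hc (by simpa using hle (Ideal.mem_span_singleton_self c))
  haveI : Ring.KrullDimLE 1 C := by
    rw [Ring.krullDimLE_iff]
    exact_mod_cast h
  haveI hmax : Q.IsMaximal :=
    ((Ring.krullDimLE_one_iff_of_noZeroDivisors (R := C)).1 inferInstance Q hQ0 hQ)
  letI : Field (C ⧸ Q) := Ideal.Quotient.field Q
  haveI := Pool.Agent.Helper38.Mixed.isJacobsonRing_int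
  haveI : Algebra.FiniteType ℤ (C ⧸ Q) := inferInstance
  haveI : Module.Finite ℤ (C ⧸ Q) := finite_of_finite_type_of_isJacobsonRing ℤ (C ⧸ Q)
  have hinj : Injective (algebraMap ℤ (C ⧸ Q)) := by
    rw [injective_iff_map_eq_zero]
    intro N hN
    by_contra hN0
    have h1 : (N : C) ∈ Q := by
      rw [← Ideal.Quotient.eq_zero_iff_mem, map_intCast]
      simpa using hN
    exact Set.disjoint_left.1 hQS h1 ⟨N, mem_nonZeroDivisors_of_ne_zero hN0, rfl⟩
  exact Int.not_isField (isField_of_isIntegral_of_isField hinj (Field.toIsField (C ⧸ Q)))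

end Pool.Agent.NR
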