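import Pool.Agent.NR.ZAlg

/-!
# NR, part Z: rings of dimension at most one over the integers

Architect helper38.
-/

set_option autoImplicit false
set_option linter.style.haveILetI false

namespace Pool.Agent.NR

open Function Pool.Agent.GTH Pool.Agent.GQ

section

attribute [-instance] Ideal.instAlgebraQuotient Ideal.Quotient.algebra

/-- quotients of rings of finite type over the integers -/
theorem ft_quot (B : Type) [CommRing B] [Algebra.FiniteType ℤ B] (P : Ideal B) :
    Algebra.FiniteType ℤ (B ⧸ P) := by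
  have h : (algebraMap ℤ (B ⧸ P)).FiniteType := by
    have h1 : (algebraMap ℤ (B ⧸ P)) = (Ideal.Quotient.mk P).comp (algebraMap ℤ B) :=
      RingHom.ext_int _ _
    rw [h1]
    exact RingHom.FiniteType.comp
      (RingHom.FiniteType.of_surjective _ Ideal.Quotient.mk_surjective)
      (RingHom.finiteType_algebraMap.2 inferInstance)
  exact RingHom.finiteType_algebraMap.1 h

end

theorem alg_descend (C K : Type) [CommRing C] [IsDomain C] [Field K] [CharZero K] [Algebra C K]
    [IsFractionRing C K] [Algebra.IsAlgebraic ℚ K] : Algebra.IsAlgebraic ℤ C := by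
  refine ⟨fun c => ?_⟩
  have h4 : IsAlgebraic ℚ (algebraMap C K c) := Algebra.IsAlgebraic.isAlgebraic _
  rw [← IsFractionRing.isAlgebraic_iff ℤ ℚ K] at h4
  exact (isAlgebraic_algebraMap_iff (IsFractionRing.injective C K)).1 h4

theorem alg_of_krull_aux (C K : Type) [CommRing C] [IsDomain C] [CharZero C]
    [Algebra.FiniteType ℤ C] [Field K] [CharZero K] [Algebra C K] [IsFractionRing C K]
    (h : ringKrullDim C ≤ 1) : Algebra.IsAlgebraic ℤ C := by
  classical
  obtain ⟨S, hS⟩ := (inferInstance : Algebra.FiniteType ℤ C).out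
  let T : Set K := algebraMap C K '' (S : Set C)
  have h1 : ∀ c : C, algebraMap C K c ∈ Algebra.adjoin ℚ T := by
    intro c
    have hc : c ∈ Algebra.adjoin ℤ (S : Set C) := by rw [hS]; trivial
    refine Algebra.adjoin_induction (p := fun c _ => algebraMap C K c ∈ Algebra.adjoin ℚ T)
      ?_ ?_ ?_ ?_ hc
    · intro x hx
      exact Algebra.subset_adjoin ⟨x, hx, rfl⟩
    · intro r
      rw [show algebraMap ℤ C r = (r : C) from rfl, map_intCast]
      exact intCast_mem _ r
    · intro x y _ _ hx hy
      rw [map_add]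
      exact add_mem hx hy
    · intro x y _ _ hx hy
      rw [map_mul]
      exact mul_mem hx hy
  have h2 : Algebra.adjoin ℚ T = ⊤ := by
    rw [eq_top_iff]
    intro x _
    obtain ⟨a, b, hb, rfl⟩ := IsFractionRing.div_surjective (A := C) x
    obtain ⟨N, hN, e, he⟩ := dvd_int C h b (nonZeroDivisors.ne_zero hb)
    have hb0 : algebraMap C K b ≠ 0 := IsFractionRing.to_map_ne_zero_of_mem_nonZeroDivisors hb
    have hN0 : (N : K) ≠ 0 := by exact_mod_cast hN
    have he' : (N : K) = algebraMap C K b * algebraMap C K e := by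
      rw [← map_mul, ← he, map_intCast]
    have h3 : algebraMap C K a / algebraMap C K b =
        (N : ℚ)⁻¹ • algebraMap C K (a * e) := by
      rw [Algebra.smul_def, map_inv₀, map_intCast, map_mul, div_eq_iff hb0, mul_assoc,
        mul_assoc, mul_comm (algebraMap C K e), ← he', mul_comm (algebraMap C K a), ← mul_assoc,
        inv_mul_cancel₀ hN0, one_mul]
    rw [h3]
    exact Subalgebra.smul_mem _ (h1 _) _
  haveI : Algebra.FiniteType ℚ K :=
    ⟨⟨S.image (algebraMap C K), by rw [Finset.coe_image]; exact h2⟩⟩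
  haveI : Module.Finite ℚ K := finite_of_finite_type_of_isJacobsonRing ℚ K
  haveI : Algebra.IsAlgebraic ℚ K := inferInstance
  exact alg_descend C K

/-- domains of characteristic zero, of finite type over the integers and of dimension at most one are
algebraic -/
theorem alg_of_krull (C : Type) [CommRing C] [IsDomain C] [CharZero C] [Algebra.FiniteType ℤ C]
    (h : ringKrullDim C ≤ 1) : Algebra.IsAlgebraic ℤ C := by
  haveI : CharZero (FractionRing C) :=
    charZero_of_injective_algebraMap (IsFractionRing.injective C (FractionRing C))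
  exact alg_of_krull_aux C (FractionRing C) h

theorem alg_of_trdeg_aux (C K : Type) [CommRing C] [IsDomain C] [Field K] [CharZero K]
    [Algebra C K] [IsFractionRing C K] (h : Algebra.trdeg (⊥ : Subfield K) K ≤ (0 : ℕ)) :
    Algebra.IsAlgebraic ℤ C := by
  let F : Subfield K := ⊥
  have h0 : Algebra.trdeg F K = 0 := le_antisymm (by exact_mod_cast h) zero_le
  haveI h1 : Algebra.IsAlgebraic F K := trdeg_eq_zero_iff.1 h0
  have h2 : ∀ x : F, IsAlgebraic ℚ (x : K) := by
    intro x
    have h3 : (x : K) ∈ (algebraMap ℚ K).fieldRange := by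
      rw [← Subfield.bot_eq_of_charZero]
      exact x.2
    obtain ⟨y, hy⟩ := h3
    rw [← hy]
    exact isAlgebraic_algebraMap y
  haveI : Algebra.IsAlgebraic ℚ F := ⟨fun x =>
    (isAlgebraic_algebraMap_iff (R := ℚ) (S := F) (A := K) Subtype.val_injective).1 (h2 x)⟩
  haveI : Algebra.IsAlgebraic ℚ K := Algebra.IsAlgebraic.trans ℚ F K
  exact alg_descend C K

/-- domains of characteristic zero and residual dimension zero are algebraic -/
theorem alg_of_trdeg (C : Type) [CommRing C] [IsDomain C] [CharZero C]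
    (h : Algebra.trdeg (⊥ : Subfield (FractionRing C)) (FractionRing C) ≤ (0 : ℕ)) :
    Algebra.IsAlgebraic ℤ C := by
  haveI : CharZero (FractionRing C) :=
    charZero_of_injective_algebraMap (IsFractionRing.injective C (FractionRing C))
  exact alg_of_trdeg_aux C (FractionRing C) h

section

attribute [-instance] Ideal.instAlgebraQuotient Ideal.Quotient.algebra

variable {G : (R : Type) → [CommRing R] → Prop} (hG : Cls G) (hB : Base G) (hN : Num G)

include hG hB hN

/-- noetherian induction -/
theorem z_induct (B : Type) [CommRing B] [Algebra.FiniteType ℤ B]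
    (h0 : ∀ P : Ideal B, P.IsPrime → CharZero (B ⧸ P) → Algebra.IsAlgebraic ℤ (B ⧸ P))
    (hp : ∀ (P : Ideal B) [P.IsPrime] (p : ℕ) [Fact p.Prime] [Algebra (ZMod p) (B ⧸ P)]
      [Algebra.FiniteType (ZMod p) (B ⧸ P)], G (B ⧸ P)) : G B := by
  haveI : IsNoetherianRing B := Algebra.FiniteType.isNoetherianRing ℤ B
  refine hG.induct B fun P hP hJ => ?_
  haveI := hP
  haveI : IsDomain (B ⧸ P) := Ideal.Quotient.isDomain P
  haveI : Algebra.FiniteType ℤ (B ⧸ P) := ft_quot B P
  obtain ⟨p, hchar⟩ := CharP.exists (B ⧸ P)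
  rcases CharP.char_is_prime_or_zero (B ⧸ P) p with hpp | rfl
  · haveI : Fact p.Prime := ⟨hpp⟩
    letI : Algebra (ZMod p) (B ⧸ P) := ZMod.algebra (B ⧸ P) p
    haveI : IsScalarTower ℤ (ZMod p) (B ⧸ P) := IsScalarTower.of_algebraMap_eq fun x => by
      simp
    haveI : Algebra.FiniteType (ZMod p) (B ⧸ P) :=
      Algebra.FiniteType.of_restrictScalars_finiteType ℤ (ZMod p) (B ⧸ P)
    exact hp P p
  · haveI : CharZero (B ⧸ P) := CharP.charP_to_charZero (B ⧸ P)
    haveI := h0 P hP inferInstance
    refine num_dom hG hB hN (B ⧸ P) fun N hN0 => ?_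
    have h1 : ((N : ℤ) : B ⧸ P) = Ideal.Quotient.mk P (N : B) := (map_intCast _ N).symm
    rw [h1]
    refine hG.quot_quot P (N : B) (hJ _ ?_)
    refine lt_of_le_of_ne le_sup_left fun he => ?_
    have h2 : (N : B) ∈ P := by
      rw [he]
      exact Ideal.mem_sup_right (Ideal.mem_span_singleton_self _)
    rw [← Ideal.Quotient.eq_zero_iff_mem, ← h1] at h2
    exact hN0 (by exact_mod_cast h2)

/-- rings of Krull dimension at most one -/
theorem z_krull (B : Type) [CommRing B] [Algebra.FiniteType ℤ B] (h : ringKrullDim B ≤ 1) :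
    G B := by
  refine z_induct hG hB hN B (fun P hP h0 => ?_) fun P _ p _ _ _ => ?_
  · haveI := hP
    haveI : IsDomain (B ⧸ P) := Ideal.Quotient.isDomain P
    haveI : Algebra.FiniteType ℤ (B ⧸ P) := ft_quot B P
    exact alg_of_krull (B ⧸ P) ((ringKrullDim_quotient_le P).trans h)
  · exact hB.krull hG p (B ⧸ P) ((ringKrullDim_quotient_le P).trans h)

/-- rings of residual dimension zero -/
theorem z_res (B : Type) [CommRing B] [Algebra.FiniteType ℤ B] (h : BassH.ResDimLE 0 B) :
    G B := by
  refine z_induct hG hB hN B (fun P hP h0 => ?_) fun P _ p _ _ _ => ?_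
  · haveI := hP
    haveI : IsDomain (B ⧸ P) := Ideal.Quotient.isDomain P
    exact alg_of_trdeg (B ⧸ P) (h P)
  · haveI : IsDomain (B ⧸ P) := Ideal.Quotient.isDomain P
    exact hB.dom_trdeg p (B ⧸ P) ((h P).trans (by exact_mod_cast Nat.zero_le 1))

end

end Pool.Agent.NR
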