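import Pool.Agent.NR.ZRing
import Pool.Agent.GQ.FSch

/-!
# NR, part Z: schemes of dimension at most one over the integers

Architect helper38.
-/

set_option autoImplicit false
set_option linter.style.haveILetI false

noncomputable section

namespace Pool.Agent.NR

open CategoryTheory AlgebraicGeometry TopologicalSpace Pool.Agent.KTX Pool.Agent.GQ
open Pool.Agent.KIN (h2_noeth)

universe u

/-- a property of schemes of finite type over the integers of dimension at most one -/
theorem sch_dimZ (P : Scheme.{0} → Prop)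
    (hiso : ∀ (Y Z : Scheme.{0}) [IsNoetherian Y] [IsNoetherian Z], (Y ≅ Z) → P Z → P Y)
    (hR : ∀ (B : Type) [CommRing B] [Algebra.FiniteType ℤ B], ringKrullDim B ≤ 1 → P (Sp B))
    (hloc : ∀ (Z' Z W : Scheme.{0}) [IsNoetherian Z] (i : Z' ⟶ Z) (j : W ⟶ Z)
      [IsClosedImmersion i] [IsOpenImmersion j], Set.range i = (Set.range j)ᶜ → P Z' → P W →
        P Z)
    (X : Scheme.{0}) (f : X ⟶ Sp ℤ) [LocallyOfFiniteType f] [QuasiCompact f]
    (h : topologicalKrullDim X ≤ 1) : P X := by
  haveI : IsNoetherian (Sp ℤ) := inferInstance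
  haveI : IsNoetherian X := h2_noeth f
  refine sch_ind (X := X) P (fun Z W i j _ _ _ => ?_) hloc
  haveI hZ : IsNoetherian Z := h2_noeth i
  haveI : LocallyOfFiniteType (j ≫ i ≫ f) := inferInstance
  haveI : QuasiCompact j := inferInstance
  haveI : IsNoetherian W := h2_noeth j
  let B : Type := Γ(W, ⊤)
  let φ : ℤ →+* B := (Spec.preimage (W.isoSpec.inv ≫ j ≫ i ≫ f)).hom
  have hφ : φ = algebraMap ℤ B := RingHom.ext_int _ _
  haveI : Algebra.FiniteType ℤ B := by
    have h1 : Spec.map (CommRingCat.ofHom φ) = W.isoSpec.inv ≫ j ≫ i ≫ f :=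
      Spec.map_preimage _
    have h2 : LocallyOfFiniteType (Spec.map (CommRingCat.ofHom φ)) := by
      rw [h1]
      infer_instance
    rw [HasRingHomProperty.Spec_iff (P := @LocallyOfFiniteType)] at h2
    have h3 : φ.FiniteType := h2
    rw [hφ, RingHom.finiteType_algebraMap] at h3
    exact h3
  have h3 : ringKrullDim B ≤ 1 := by
    rw [← PrimeSpectrum.topologicalKrullDim_eq_ringKrullDim]
    have h4 : topologicalKrullDim (Sp B) ≤ topologicalKrullDim W :=
      W.isoSpec.inv.homeomorph.isInducing.topologicalKrullDim_le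
    have h5 : topologicalKrullDim W ≤ topologicalKrullDim X :=
      (i.isClosedEmbedding.isInducing.comp j.isOpenEmbedding.isInducing).topologicalKrullDim_le
    exact (h4.trans h5).trans h
  haveI : IsNoetherian (Sp B) := by
    haveI : IsNoetherianRing B := Algebra.FiniteType.isNoetherianRing ℤ B
    infer_instance
  exact hiso W (Sp B) W.isoSpec (hR B h3)

/-- schemes of finite type over the integers of dimension at most one -/
theorem thy_dimZ (L : LThy.{u})
    (hR : ∀ (B : Type) [CommRing B] [Algebra.FiniteType ℤ B], ringKrullDim B ≤ 1 →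
      ∀ n : ℤ, AddGroup.FG ((L.th n).T (Sp B)))
    (X : Scheme.{0}) (f : X ⟶ Sp ℤ) [LocallyOfFiniteType f] [QuasiCompact f]
    (h : topologicalKrullDim X ≤ 1) (n : ℤ) : AddGroup.FG ((L.th n).T X) :=
  sch_dimZ (fun Z => ∀ n : ℤ, AddGroup.FG ((L.th n).T Z))
    (fun Y Z _ _ e hZ n => thy_iso L e n (hZ n)) (fun B _ _ hB n => hR B hB n)
    (fun Z' Z W _ i j _ _ h h1 h2 n => thy_glue L Z' Z W i j h h1 h2 n) X f h n

/-- a morphism to `Spec ℤ` from the morphism to the terminal scheme -/
theorem exists_specZ (X : Scheme.{0}) [LocallyOfFiniteType (Limits.terminal.from X)]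
    [QuasiCompact (Limits.terminal.from X)] :
    ∃ f : X ⟶ Sp ℤ, LocallyOfFiniteType f ∧ QuasiCompact f := by
  let e : ⊤_ Scheme.{0} ≅ Sp ℤ := Limits.terminalIsTerminal.uniqueUpToIso specZIsTerminal
  exact ⟨Limits.terminal.from X ≫ e.hom, inferInstance, inferInstance⟩

end Pool.Agent.NR
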